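import Pool.Agent.K9h44.HS.Stm

/-! Project HS (helper44): two paths of closed orbits with a common interior member have the same
first member. -/

open Real Set MeasureTheory Topology Filter

namespace Pool.Agent.K9h44.HS

open Pool.Agent.W960.HP (Path Good)

theorem ag : S_AG := by
  intro X η a a' γ γ' T T' hX hη F F' τ₀ hτ₀ τ₁ hτ₁ he
  have hη0 := hη.le
  set K : Set ℝ := {τ | τ ∈ Icc (0:ℝ) 1 ∧ ∃ τ' ∈ Icc (0:ℝ) 1, range (γ τ) = range (γ' τ')} with hK
  have hKc : IsClosed K := F.isClosed_agree hX hη0 F' le_rfl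
  -- interior times are matched with interior times
  have hint : ∀ x ∈ Ioo (0:ℝ) 1, ∀ y ∈ Icc (0:ℝ) 1, range (γ x) = range (γ' y) →
      y ∈ Ioo (0:ℝ) 1 := by
    intro x hx y hy hxy
    have hang := F.angle_eq hX hη0 F' (Ioo_subset_Icc_self hx) hy hxy
    have hax := F.am x hx
    refine ⟨?_, ?_⟩
    · rcases eq_or_lt_of_le hy.1 with h0 | h0
      · rw [← h0, F'.a0] at hang
        linarith [hax.1]
      · exact h0
    · rcases eq_or_lt_of_le hy.2 with h0 | h0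
      · rw [h0, F'.a1] at hang
        linarith [hax.2]
      · exact h0
  have hopen : ∀ x ∈ Ioo (0:ℝ) 1, x ∈ K → ∀ᶠ w in 𝓝 x, w ∈ K := by
    rintro x hx ⟨-, y, hy, hxy⟩
    filter_upwards [F.cover hX hη0 F' hx (hint x hx y hy hxy) hxy one_pos,
      Icc_mem_nhds hx.1 hx.2] with w hw hw'
    obtain ⟨y', -, hy', hwy⟩ := hw
    exact ⟨hw', y', hy', hwy⟩
  set A : Set ℝ := K ∩ Ioo 0 1 with hA
  have hAo : IsOpen A := by
    rw [isOpen_iff_mem_nhds]
    rintro x ⟨hx1, hx2⟩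
    filter_upwards [hopen x hx2 hx1, Ioo_mem_nhds hx2.1 hx2.2] with w hw hw'
    exact ⟨hw, hw'⟩
  have hsub : Ioo (0:ℝ) 1 ⊆ A := by
    refine isPreconnected_Ioo.subset_of_closure_inter_subset hAo
      ⟨τ₀, hτ₀, ⟨Ioo_subset_Icc_self hτ₀, τ₁, Ioo_subset_Icc_self hτ₁, he⟩, hτ₀⟩ ?_
    rintro x ⟨hx1, hx2⟩
    exact ⟨(hKc.closure_subset_iff.2 inter_subset_left) hx1, hx2⟩
  have h0 : (0:ℝ) ∈ K := by
    refine (hKc.closure_subset_iff.2 (hsub.trans inter_subset_left)) ?_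
    rw [closure_Ioo zero_ne_one]
    exact ⟨le_rfl, zero_le_one⟩
  obtain ⟨h01, y, hy, hxy⟩ := h0
  have hang := F.angle_eq hX hη0 F' h01 hy hxy
  rw [F.a0] at hang
  have hy0 : y = 0 := by
    by_contra hcon
    have hy' : 0 < y := lt_of_le_of_ne hy.1 (Ne.symm hcon)
    rcases eq_or_lt_of_le hy.2 with h1 | h1
    · rw [h1, F'.a1] at hang
      linarith
    · linarith [(F'.am y ⟨hy', h1⟩).1]
  rw [hy0] at hxy
  exact hxy

end Pool.Agent.K9h44.HS
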