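import Pool.Agent.K9h44.HS.TH
import Pool.Agent.K9h44.HS.AG

/-! Project HS (helper44): members of a path with minimal periods, and the star-shape of the middle
members of a path in an annulus without singular points. -/

open Real Set MeasureTheory Topology Filter

namespace Pool.Agent.K9h44.HS

open Pool.Agent.H709R2 (wedge rot field ClosedOrbit)
open Pool.Agent.H709U (rf Orb V W)
open Pool.Agent.N224.Hil (Loop wn ins fill w1 w2 w3 w4 allT0 allJ allTT)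
open Pool.Agent.W960.HP (Path Good)

variable {X : ℝ → ℝ × ℝ → ℝ × ℝ} {η : ℝ} {a : ℝ → ℝ} {γ : ℝ → ℝ → ℝ × ℝ} {T : ℝ → ℝ}

lemma orb_loop' {Y : ℝ × ℝ → ℝ × ℝ} (hY : ContDiff ℝ 2 Y) {g : ℝ → ℝ × ℝ} {S : ℝ}
    (h : Orb Y g S) : Loop g (fun t => Y (g t)) S :=
  ⟨h.pos, h.ode, hY.continuous.comp (continuous_iff_continuousAt.2 fun t => (h.ode t).continuousAt),
    h.per⟩

/-- a member of a path, parametrised with its minimal period -/
lemma member (hX : Good X η) (F : Path X η a γ T) {τ : ℝ} (hτ : τ ∈ Icc (0:ℝ) 1) {p : ℝ × ℝ}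
    (hp : p ∉ range (γ τ)) (hw : wn (γ τ) (fun t => X (a τ) (γ τ t)) (T τ) p ≠ 0) :
    ∃ (δ : ℝ → ℝ × ℝ) (S : ℝ), Orb (X (a τ)) δ S ∧ range (γ τ) = range δ ∧
      (wn δ (fun t => X (a τ) (δ t)) S p = 1 ∨ wn δ (fun t => X (a τ) (δ t)) S p = -1) ∧
      0 < wn δ (fun t => X (a τ) (δ t)) S p * wn (γ τ) (fun t => X (a τ) (γ τ t)) (T τ) p ∧
      fill (γ τ) (fun t => X (a τ) (γ τ t)) (T τ) = fill δ (fun t => X (a τ) (δ t)) S ∧
      ins (γ τ) (fun t => X (a τ) (γ τ t)) (T τ) = ins δ (fun t => X (a τ) (δ t)) S := by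
  have hY := hX.smooth (a τ)
  have hcl : ClosedOrbit (rf (X (a τ)) 0) (range (γ τ)) := by
    rw [Pool.Agent.W960.HP.rf_zero]
    exact F.closed hτ
  obtain ⟨δ, S, hO, hr⟩ := Pool.Agent.H709U.m0 (X (a τ)) hY 0 _ hcl
  rw [Pool.Agent.W960.HP.rf_zero] at hO
  have hfill := N224.Hil.NI.fill_eq hY (F.pos τ hτ) (F.ode τ hτ) (F.per τ hτ) hO hr
  obtain ⟨c, hc⟩ : γ τ 0 ∈ range δ := hr ▸ mem_range_self 0
  have ht := N224.Hil.NI.translate hY (F.pos τ hτ) hO.pos (F.ode τ hτ) hO.ode (F.per τ hτ) hO.per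
    hc.symm
  have h1 : δ (c + T τ) = δ c := by
    have h2 := F.per τ hτ 0
    rw [ht, ht 0] at h2
    rw [show c + T τ = 0 + T τ + c by ring, h2]
    congr 1
    ring
  obtain ⟨k, hk⟩ := hO.inj _ _ h1
  have hTk : T τ = k * S := by linarith
  have hk0 : (0:ℝ) < k := by
    have h2 := F.pos τ hτ
    rw [hTk] at h2
    exact (mul_pos_iff_of_pos_right hO.pos).1 h2
  have c0 : Continuous δ := continuous_iff_continuousAt.2 fun t => (hO.ode t).continuousAt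
  have hpδ : p ∉ range δ := by rw [← hr]; exact hp
  have hper := N224.Hil.NI.periods (c := c) ht hTk hO.per c0 hY.continuous hpδ
  have hLδ := orb_loop' hY hO
  obtain ⟨ε, hε, hall, -⟩ := allJ δ _ S hLδ hO.ne hO.inj
  have hw' : wn δ (fun t => X (a τ) (δ t)) S p ≠ 0 := by
    intro h
    rw [hper, h, mul_zero] at hw
    exact hw rfl
  have hval : wn δ (fun t => X (a τ) (δ t)) S p = ε := (hall p hpδ).resolve_left hw'
  refine ⟨δ, S, hO, hr, ?_, ?_, hfill, ?_⟩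
  · rw [hval]
    exact hε
  · rw [hper]
    have h2 : 0 < wn δ (fun t => X (a τ) (δ t)) S p ^ 2 := by positivity
    nlinarith
  · have h3 : ∀ (g V : ℝ → ℝ × ℝ) (S : ℝ), ins g V S = fill g V S \ range g := by
      intro g V S
      ext z
      constructor
      · intro h
        exact ⟨Or.inr h, h.1⟩
      · rintro ⟨h | h, h'⟩
        · exact absurd h h'
        · exact h
    rw [h3, h3, hfill, hr]

/-- the algebra of the angles -/
lemma level_ineq {v u N s c₀ s₀ c₁ s₁ : ℝ} (hN : 0 ≤ N) (hNN : N ^ 2 = v ^ 2 + u ^ 2) (hs : 0 < s)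
    (hs' : s ≤ 1 / 32) (hc₀ : 1 / 2 ≤ c₀) (hc₀' : c₀ ≤ 1) (hs₀ : 4 * s ≤ s₀) (hc₁ : 1 / 2 ≤ c₁)
    (hc₁' : c₁ ≤ 1) (hs₁ : 4 * s ≤ s₁) (h1 : -(s * N) ≤ v * c₁ + u * s₁)
    (h0 : -(s * N) ≤ v * c₀ - u * s₀) : s * N ≤ v := by
  obtain ⟨c, hc, hc', h⟩ : ∃ c : ℝ, 1 / 2 ≤ c ∧ c ≤ 1 ∧ 4 * s * |u| - s * N ≤ v * c := by
    rcases le_total u 0 with hu | hu
    · refine ⟨c₁, hc₁, hc₁', ?_⟩
      rw [abs_of_nonpos hu]
      nlinarith
    · refine ⟨c₀, hc₀, hc₀', ?_⟩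
      rw [abs_of_nonneg hu]
      nlinarith
  have hu2 := sq_abs u
  have hsN : 0 ≤ s * N := mul_nonneg hs.le hN
  rcases le_or_gt (N / 2) |u| with hu | hu
  · have h2 : s * N ≤ v * c := by nlinarith
    by_contra hcon
    push Not at hcon
    rcases le_or_gt v 0 with hv | hv
    · have h3 : v * c ≤ 0 := mul_nonpos_of_nonpos_of_nonneg hv (by linarith)
      have h4 : s * N = 0 := le_antisymm (h2.trans h3) hsN
      have h5 : N = 0 := by
        rcases mul_eq_zero.1 h4 with h5 | h5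
        · exact absurd h5 hs.ne'
        · exact h5
      rw [h5] at hNN hcon
      have h6 : v = 0 := by nlinarith [sq_nonneg v, sq_nonneg u]
      rw [h6] at hcon
      linarith
    · nlinarith
  · have h2 : -(s * N) ≤ v * c := by nlinarith [abs_nonneg u, mul_nonneg hs.le (abs_nonneg u)]
    have h3 : 3 / 4 * N ^ 2 ≤ v ^ 2 := by nlinarith [abs_nonneg u]
    by_contra hcon
    push Not at hcon
    have hNpos : 0 < N := by
      rcases hN.lt_or_eq with h4 | h4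
      · exact h4
      · exfalso
        rw [← h4] at hu
        linarith [abs_nonneg u]
    have h4 : -(2 * (s * N)) ≤ v := by
      rcases le_or_gt 0 v with hv | hv
      · linarith
      · nlinarith
    have h5 : v ^ 2 ≤ (2 * (s * N)) ^ 2 := by nlinarith
    have h6 : (2 * (s * N)) ^ 2 ≤ N ^ 2 / 256 := by
      have h7 : 2 * (s * N) ≤ N / 16 := by nlinarith
      nlinarith
    nlinarith

lemma final_ineq {η ε v w : ℝ} (hη : 0 < η) (hε : ε = 1 ∨ ε = -1)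
    (h1 : η / 32 / 2 * |w| ≤ ε * v) (h2 : 0 < ε * v) : (η / 128) ^ 2 * w ^ 2 < v ^ 2 := by
  have h3 : v ^ 2 = (ε * v) ^ 2 := by
    rcases hε with h | h <;> rw [h] <;> ring
  rw [h3]
  rcases eq_or_ne w 0 with h4 | h4
  · rw [h4]
    have : 0 < (ε * v) ^ 2 := by positivity
    linarith
  · have h5 : 0 < |w| := abs_pos.2 h4
    rw [← sq_abs w]
    have h7 : (η / 32 / 2 * |w|) ^ 2 ≤ (ε * v) ^ 2 :=
      pow_le_pow_left₀ (by positivity) h1 2
    have h8 : 0 < (η * |w|) ^ 2 := by positivity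
    nlinarith

/-- the middle members of a path in an annulus without singular points are uniformly star-shaped -/
lemma star_mid (hTH : S_TH) (hCVX : S_CVX) {P Q : MvPolynomial (Fin 2) ℝ} {σ η : ℝ}
    (hσ : σ = 1 ∨ σ = -1) (hη : 0 < η) (hη1 : η ≤ 1) {p : ℝ × ℝ} {r R : ℝ} (hr : 0 < r)
    (hrR : r ≤ R) {M : ℕ} {c : Fin M → ℝ}
    (hc : ∀ θ : ℝ, ∃ i, ∃ k : ℤ, θ < c i + k * π ∧ c i + k * π < θ + η / 256) {b : Fin 2 → ℝ}
    (hb0 : 0 < b 0) (hb1 : b 1 < η) {α : ℝ} (hα0 : b 0 + η / 5 ≤ α) (hα1 : α + η / 5 ≤ b 1)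
    (hfree : ∀ z, (η / 32 * r) ^ 2 ≤ H709R2.sq (z - p) → H709R2.sq (z - p) ≤ (2 * R) ^ 2 →
      field P Q z ≠ 0 ∧ ∀ i j, ev (Lv P Q (c i)) z = 0 → ev (DLv P Q (c i) (σ * b j)) z ≠ 0)
    {a : ℝ → ℝ} {γ : ℝ → ℝ → ℝ × ℝ} {T : ℝ → ℝ}
    (F : Path (fun a => rf (field P Q) (σ * a)) η a γ T)
    (hγ : ∀ τ ∈ Icc (0:ℝ) 1, ∀ t, r ^ 2 ≤ H709R2.sq (γ τ t - p) ∧
      H709R2.sq (γ τ t - p) ≤ R ^ 2)
    (hw : wn (γ 0) (fun t => rf (field P Q) (σ * a 0) (γ 0 t)) (T 0) p ≠ 0) :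
    ∃ τ ∈ Ioo (0:ℝ) 1, a τ = α ∧ ∀ z ∈ range (γ τ),
      (η / 128) ^ 2 * W (field P Q) p (σ * α) z ^ 2 < V (field P Q) p (σ * α) z ^ 2 := by
  have hF2 : ContDiff ℝ 2 (field P Q) := H709R2.contDiff_field P Q
  have hπ := Real.pi_gt_three
  have hX : Good (fun a => rf (field P Q) (σ * a)) η :=
    W960.HP.good_rf hF2 hσ (by linarith)
  have hη0 := hη.le
  -- the three times
  have hαη : α < η := by linarith
  have hα00 : 0 < α := by linarith
  obtain ⟨τ₀, hτ₀, ha₀⟩ : ∃ τ₀ ∈ Ioo (0:ℝ) 1, a τ₀ = b 0 := by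
    obtain ⟨x, hx, hax⟩ := intermediate_value_Icc zero_le_one F.conta
      (show b 0 ∈ Icc (a 0) (a 1) by rw [F.a0, F.a1]; exact ⟨hb0.le, by linarith⟩)
    refine ⟨x, ⟨lt_of_le_of_ne hx.1 ?_, lt_of_le_of_ne hx.2 ?_⟩, hax⟩
    · rintro rfl; rw [F.a0] at hax; linarith
    · rintro rfl; rw [F.a1] at hax; linarith
  obtain ⟨τ, hτ, haτ⟩ : ∃ τ ∈ Ioo τ₀ 1, a τ = α := by
    obtain ⟨x, hx, hax⟩ := intermediate_value_Icc hτ₀.2.le
      (F.conta.mono (Icc_subset_Icc_left hτ₀.1.le))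
      (show α ∈ Icc (a τ₀) (a 1) by rw [ha₀, F.a1]; exact ⟨by linarith, hαη.le⟩)
    refine ⟨x, ⟨lt_of_le_of_ne hx.1 ?_, lt_of_le_of_ne hx.2 ?_⟩, hax⟩
    · rintro rfl; rw [ha₀] at hax; linarith
    · rintro rfl; rw [F.a1] at hax; linarith
  have hτ0 : 0 < τ := hτ₀.1.trans hτ.1
  obtain ⟨τ₁, hτ₁, ha₁⟩ : ∃ τ₁ ∈ Ioo τ 1, a τ₁ = b 1 := by
    obtain ⟨x, hx, hax⟩ := intermediate_value_Icc hτ.2.le
      (F.conta.mono (Icc_subset_Icc_left hτ0.le))
      (show b 1 ∈ Icc (a τ) (a 1) by rw [haτ, F.a1]; exact ⟨by linarith, hb1.le⟩)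
    refine ⟨x, ⟨lt_of_le_of_ne hx.1 ?_, lt_of_le_of_ne hx.2 ?_⟩, hax⟩
    · rintro rfl; rw [haτ] at hax; linarith
    · rintro rfl; rw [F.a1] at hax; linarith
  have m0 : τ₀ ∈ Icc (0:ℝ) 1 := Ioo_subset_Icc_self hτ₀
  have m : τ ∈ Icc (0:ℝ) 1 := ⟨hτ0.le, hτ.2.le⟩
  have m1 : τ₁ ∈ Icc (0:ℝ) 1 := ⟨(hτ0.trans hτ₁.1).le, hτ₁.2.le⟩
  refine ⟨τ, ⟨hτ0, hτ.2⟩, haτ, ?_⟩
  -- the point `p`
  have hpoff : ∀ τ ∈ Icc (0:ℝ) 1, p ∉ range (γ τ) := by
    rintro τ hτ ⟨t, ht⟩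
    have h1 := (hγ τ hτ t).1
    rw [ht, sub_self] at h1
    unfold H709R2.sq at h1
    simp at h1
    nlinarith
  have hwc : ∀ x ∈ Icc (0:ℝ) 1, wn (γ x) (fun t => rf (field P Q) (σ * a x) (γ x t)) (T x) p =
      wn (γ 0) (fun t => rf (field P Q) (σ * a 0) (γ 0 t)) (T 0) p := fun x hx =>
    path_wn_const hX F isPreconnected_Icc (fun y hy => ⟨hy, hpoff y hy⟩) hx
      ⟨le_rfl, zero_le_one⟩
  obtain ⟨w, hwd⟩ : ∃ w : ℝ, w = wn (γ 0) (fun t => rf (field P Q) (σ * a 0) (γ 0 t)) (T 0) p :=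
    ⟨_, rfl⟩
  rw [← hwd] at hw hwc
  have hmem : ∀ x ∈ Icc (0:ℝ) 1, ∃ (δ : ℝ → ℝ × ℝ) (S : ℝ), Orb (rf (field P Q) (σ * a x)) δ S ∧
      range (γ x) = range δ ∧
      (wn δ (fun t => rf (field P Q) (σ * a x) (δ t)) S p = 1 ∨
        wn δ (fun t => rf (field P Q) (σ * a x) (δ t)) S p = -1) ∧
      0 < wn δ (fun t => rf (field P Q) (σ * a x) (δ t)) S p * w ∧
      fill (γ x) (fun t => rf (field P Q) (σ * a x) (γ x t)) (T x) =
        fill δ (fun t => rf (field P Q) (σ * a x) (δ t)) S ∧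
      ins (γ x) (fun t => rf (field P Q) (σ * a x) (γ x t)) (T x) =
        ins δ (fun t => rf (field P Q) (σ * a x) (δ t)) S := by
    intro x hx
    have h1 := member hX F hx (hpoff x hx) (by rw [hwc x hx]; exact hw)
    simp only [hwc x hx] at h1
    exact h1
  obtain ⟨δ₀, S₀, hO₀, hr₀, hv₀, hs₀, hf₀, hi₀⟩ := hmem τ₀ m0
  obtain ⟨δ, S, hO, hrr, hv, hs, hf, hi⟩ := hmem τ m
  obtain ⟨δ₁, S₁, hO₁, hr₁, hv₁, hs₁, hf₁, hi₁⟩ := hmem τ₁ m1
  rw [ha₀] at hO₀ hv₀ hs₀ hf₀ hi₀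
  rw [haτ] at hO hv hs hf hi
  rw [ha₁] at hO₁ hv₁ hs₁ hf₁ hi₁
  obtain ⟨ε, hεd⟩ : ∃ ε : ℝ, ε = wn δ (fun t => rf (field P Q) (σ * α) (δ t)) S p := ⟨_, rfl⟩
  rw [← hεd] at hv hs
  have e0 : wn δ₀ (fun t => rf (field P Q) (σ * b 0) (δ₀ t)) S₀ p = ε := by
    rcases hv with h | h <;> rcases hv₀ with h' | h' <;> rw [h, h'] <;> exfalso <;>
      rw [h] at hs <;> rw [h'] at hs₀ <;> linarith
  have e1 : wn δ₁ (fun t => rf (field P Q) (σ * b 1) (δ₁ t)) S₁ p = ε := by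
    rcases hv with h | h <;> rcases hv₁ with h' | h' <;> rw [h, h'] <;> exfalso <;>
      rw [h] at hs <;> rw [h'] at hs₁ <;> linarith
  -- nestedness
  have hnest := nest _ η a γ T hX hη F p hpoff (by rw [← hwd]; exact hw) τ₀ m0 τ m τ₁ m1 hτ.1 hτ₁.1
  simp only [ha₀, ha₁] at hnest
  rw [hf₀, hf₁, hi₀, hi₁, hrr] at hnest
  -- the radii
  have hρ : ∀ t, r ^ 2 ≤ H709R2.sq (δ t - p) := by
    intro t
    obtain ⟨s, hs⟩ : δ t ∈ range (γ τ) := hrr ▸ mem_range_self t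
    rw [← hs]
    exact (hγ τ m s).1
  have hg0 : ∀ t, r ^ 2 ≤ H709R2.sq (δ₀ t - p) ∧ H709R2.sq (δ₀ t - p) < (2 * R) ^ 2 := by
    intro t
    obtain ⟨s, hs⟩ : δ₀ t ∈ range (γ τ₀) := hr₀ ▸ mem_range_self t
    rw [← hs]
    exact ⟨(hγ τ₀ m0 s).1, (hγ τ₀ m0 s).2.trans_lt (by nlinarith)⟩
  have hg1 : ∀ t, r ^ 2 ≤ H709R2.sq (δ₁ t - p) ∧ H709R2.sq (δ₁ t - p) < (2 * R) ^ 2 := by
    intro t
    obtain ⟨s, hs⟩ : δ₁ t ∈ range (γ τ₁) := hr₁ ▸ mem_range_self t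
    rw [← hs]
    exact ⟨(hγ τ₁ m1 s).1, (hγ τ₁ m1 s).2.trans_lt (by nlinarith)⟩
  -- star-shape at the level points
  obtain ⟨s, hsd⟩ : ∃ s : ℝ, s = η / 32 := ⟨_, rfl⟩
  have hs0 : 0 < s := by rw [hsd]; positivity
  have hs1 : s ≤ 1 / 32 := by rw [hsd]; linarith
  have hσσ : σ * σ = 1 := by rcases hσ with h | h <;> rw [h] <;> norm_num
  have hσa : |σ| = 1 := by rcases hσ with h | h <;> rw [h] <;> norm_num
  have hlevel : ∀ t i, ev (Lv P Q (c i)) (δ t) = 0 →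
      s * (√(H709R2.sq (δ t - p)) * √(H709R2.sq (field P Q (δ t)))) ≤
        ε * V (field P Q) p (σ * α) (δ t) := by
    intro t i hLt
    have hTHj : ∀ j : Fin 2, -(s * r * √(H709R2.sq (field P Q (δ t)))) ≤
        ε * wedge (δ t - p) (rf (field P Q) (σ * b j) (δ t)) := by
      refine hTH P Q p (s * r) (2 * R) r (c i) (fun j => σ * b j) ![δ₀, δ₁] ![S₀, S₁] ε
        (by positivity) (by nlinarith) (by linarith) hv ?_ ?_ ?_ ?_ (δ t) (hρ t) hLt ?_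
      · intro j
        fin_cases j
        · exact hO₀
        · exact hO₁
      · intro j
        fin_cases j
        · exact hg0
        · exact hg1
      · intro j
        fin_cases j
        · exact e0
        · exact e1
      · intro z hz1 hz2 hz3
        rw [hsd] at hz1
        exact ⟨(hfree z hz1 hz2).1, fun j => (hfree z hz1 hz2).2 i j hz3⟩
      · rcases hnest (δ t) (mem_range_self t) with h | h
        · exact ⟨0, 1, h.1, h.2⟩
        · exact ⟨1, 0, h.1, h.2⟩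
    obtain ⟨N, hN⟩ : ∃ N : ℝ, N = √(H709R2.sq (δ t - p)) * √(H709R2.sq (field P Q (δ t))) :=
      ⟨_, rfl⟩
    have hN0 : 0 ≤ N := by rw [hN]; positivity
    have hNr : r * √(H709R2.sq (field P Q (δ t))) ≤ N := by
      rw [hN]
      refine mul_le_mul_of_nonneg_right ?_ (Real.sqrt_nonneg _)
      rw [← Real.sqrt_sq hr.le]
      exact Real.sqrt_le_sqrt (hρ t)
    have hrot : ∀ θ : ℝ, wedge (δ t - p) (rf (field P Q) (σ * α + θ) (δ t)) =
        V (field P Q) p (σ * α) (δ t) * cos θ + W (field P Q) p (σ * α) (δ t) * sin θ := by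
      intro θ
      unfold V W wedge rf rot H709U.dot
      rw [Real.cos_add, Real.sin_add]
      simp only
      ring
    have hNN : N ^ 2 = (ε * V (field P Q) p (σ * α) (δ t)) ^ 2 +
        (σ * (ε * W (field P Q) p (σ * α) (δ t))) ^ 2 := by
      have h1 : ε ^ 2 = 1 := by rcases hv with h | h <;> rw [h] <;> norm_num
      have h2 : σ ^ 2 = 1 := by rw [pow_two]; exact hσσ
      rw [hN, mul_pow, Real.sq_sqrt (sq_nn _), Real.sq_sqrt (sq_nn _), mul_pow, mul_pow, mul_pow,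
        h1, h2, ← H709R2.sq_rot (σ * α) (field P Q (δ t))]
      unfold V W wedge H709U.dot H709R2.sq
      ring
    have hsin : ∀ d : ℝ, η / 5 ≤ d → d ≤ 1 → 4 * s ≤ sin d ∧ 1 / 2 ≤ cos d := by
      intro d hd1 hd2
      constructor
      · have h1 := Real.mul_le_sin (x := d) (by linarith) (by linarith)
        have h2 : 2 / π ≥ 5 / 8 := by
          rw [ge_iff_le, div_le_div_iff₀ (by norm_num) (by positivity)]
          have := Real.pi_lt_d2
          linarith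
        rw [hsd]
        nlinarith
      · have h1 := Real.one_sub_sq_div_two_le_cos (x := d)
        nlinarith
    have hd1 := hsin (b 1 - α) (by linarith) (by linarith)
    have hd0 := hsin (α - b 0) (by linarith) (by linarith)
    have k1 := hTHj 1
    have k0 := hTHj 0
    have a1 : σ * b 1 = σ * α + σ * (b 1 - α) := by ring
    have a0 : σ * b 0 = σ * α + -(σ * (α - b 0)) := by ring
    have csg : ∀ d : ℝ, cos (σ * d) = cos d ∧ sin (σ * d) = σ * sin d := by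
      intro d
      rcases hσ with h | h <;> rw [h] <;> simp
    rw [a1, hrot, (csg _).1, (csg _).2] at k1
    rw [a0, hrot, Real.cos_neg, Real.sin_neg, (csg _).1, (csg _).2] at k0
    rw [← hN]
    refine level_ineq (u := σ * (ε * W (field P Q) p (σ * α) (δ t))) hN0 hNN hs0 hs1 hd0.2
      (Real.cos_le_one _) hd0.1 hd1.2 (Real.cos_le_one _) hd1.1 ?_ ?_
    · have : s * r * √(H709R2.sq (field P Q (δ t))) ≤ s * N := by
        rw [mul_assoc]
        exact mul_le_mul_of_nonneg_left hNr hs0.le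
      linarith
    · have : s * r * √(H709R2.sq (field P Q (δ t))) ≤ s * N := by
        rw [mul_assoc]
        exact mul_le_mul_of_nonneg_left hNr hs0.le
      linarith
  -- conclusion
  have hpδ : ∀ t, δ t ≠ p := by
    intro t ht
    exact hpoff τ m (hrr ▸ ⟨t, ht⟩)
  have hcvx := hCVX P Q p (σ * α) ε s (η / 256) M c δ S hv hs0 (by linarith) (by positivity)
    (by rw [hsd]; linarith) hc hO hpδ hlevel
  intro z hz
  rw [hrr] at hz
  obtain ⟨t, rfl⟩ := hz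
  obtain ⟨h1, h2⟩ := hcvx t
  exact final_ineq hη hv (hsd ▸ h1) h2

end Pool.Agent.K9h44.HS
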