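import Pool.Agent.K9h44.HS.A1

/-! Project HS (helper44): counting the paths of closed orbits which enclose a point and touch an
annulus around it. -/

open Real Set MeasureTheory Topology Filter
open scoped ENNReal

namespace Pool.Agent.K9h44.HS

open Pool.Agent.H709R2 (wedge rot field ClosedOrbit)
open Pool.Agent.H709U (rf Orb V W lg InBox Cl)
open Pool.Agent.H709Q (Maj)
open Pool.Agent.N224.Hil (Loop wn ins fill w1 w2 w3 w4 allT0 allJ allTT)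
open Pool.Agent.W960.HP (Path Good PersG)

/-- a continuous family of periodic functions which is below `m` at one time and not at another one
touches `m` -/
lemma touch {f : ℝ → ℝ → ℝ} {T : ℝ → ℝ}
    (hf : ContinuousOn (fun q : ℝ × ℝ => f q.1 q.2) (Icc 0 1 ×ˢ univ))
    (hT : ContinuousOn T (Icc 0 1)) (hpos : ∀ τ ∈ Icc (0:ℝ) 1, 0 < T τ)
    (hper : ∀ τ ∈ Icc (0:ℝ) 1, ∀ t, f τ (t + T τ) = f τ t) {x y m : ℝ} (hx : x ∈ Icc (0:ℝ) 1)
    (hy : y ∈ Icc (0:ℝ) 1) (h1 : ∀ t, f x t < m) (h2 : ∃ t, m ≤ f y t) :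
    ∃ z ∈ Icc (0:ℝ) 1, (∀ t, f z t ≤ m) ∧ ∃ t, f z t = m := by
  obtain ⟨M, hM⟩ := (isCompact_Icc.image_of_continuousOn hT).isBounded.exists_norm_le
  have hM' : ∀ τ ∈ Icc (0:ℝ) 1, T τ ≤ M := fun τ hτ =>
    (le_abs_self _).trans (hM _ ⟨τ, hτ, rfl⟩)
  have hM0 : 0 ≤ M := (hpos x hx).le.trans (hM' x hx)
  have hred : ∀ τ ∈ Icc (0:ℝ) 1, ∀ t, ∃ t' ∈ Icc (0:ℝ) M, f τ t = f τ t' := by
    intro τ hτ t
    have hp : Function.Periodic (f τ) (T τ) := hper τ hτ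
    obtain ⟨t', ht', h⟩ := hp.exists_mem_Ico₀ (hpos τ hτ) t
    exact ⟨t', ⟨ht'.1, ht'.2.le.trans (hM' τ hτ)⟩, h⟩
  obtain ⟨g, hg⟩ : ∃ g : ℝ → ℝ → ℝ, g = fun z t => f (projIcc 0 1 zero_le_one z) t := ⟨_, rfl⟩
  have hgc : Continuous (Function.uncurry g) := by
    rw [hg]
    have h3 : Continuous fun q : ℝ × ℝ => (((projIcc (0:ℝ) 1 zero_le_one q.1 : ℝ), q.2) : ℝ × ℝ) :=
      (continuous_subtype_val.comp (continuous_projIcc.comp continuous_fst)).prodMk continuous_snd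
    exact hf.comp_continuous h3 fun q => ⟨(projIcc (0:ℝ) 1 zero_le_one q.1).2, mem_univ _⟩
  have hgv : ∀ z ∈ Icc (0:ℝ) 1, ∀ t, g z t = f z t := by
    intro z hz t
    rw [hg]
    simp only
    rw [projIcc_of_mem zero_le_one hz]
  have hgr : ∀ z, Continuous (g z) := fun z =>
    hgc.comp (continuous_const.prodMk continuous_id)
  have hG : Continuous fun z => sSup (g z '' Icc 0 M) :=
    isCompact_Icc.continuous_sSup (f := g) hgc
  have hne : (Icc (0:ℝ) M).Nonempty := ⟨0, le_rfl, hM0⟩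
  have hatt : ∀ z, ∃ t ∈ Icc (0:ℝ) M, sSup (g z '' Icc 0 M) = g z t := fun z =>
    isCompact_Icc.exists_sSup_image_eq hne (hgr z).continuousOn
  have hbdd : ∀ z, BddAbove (g z '' Icc 0 M) := fun z =>
    (isCompact_Icc.image (hgr z)).bddAbove
  have e1 : ∃ z, sSup (g z '' Icc 0 M) ≤ m := by
    obtain ⟨t, -, ht⟩ := hatt x
    exact ⟨x, by rw [ht, hgv x hx]; exact (h1 t).le⟩
  have e2 : ∃ z, m ≤ sSup (g z '' Icc 0 M) := by
    obtain ⟨t, ht⟩ := h2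
    obtain ⟨t', ht', h3⟩ := hred y hy t
    exact ⟨y, (ht.trans (by rw [h3, ← hgv y hy])).trans (le_csSup (hbdd y) ⟨t', ht', rfl⟩)⟩
  obtain ⟨z, hz⟩ := mem_range_of_exists_le_of_exists_ge hG e1 e2
  simp only at hz
  refine ⟨projIcc 0 1 zero_le_one z, (projIcc (0:ℝ) 1 zero_le_one z).2, fun t => ?_, ?_⟩
  · obtain ⟨t', ht', h3⟩ := hred _ (projIcc (0:ℝ) 1 zero_le_one z).2 t
    rw [h3, ← hz]
    have h4 := le_csSup (hbdd z) ⟨t', ht', rfl⟩
    rw [hg] at h4 ⊢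
    exact h4
  · obtain ⟨t, -, ht⟩ := hatt z
    refine ⟨t, ?_⟩
    rw [← hz, ht, hg]

/-- two disjoint loops around `q` in a closed disc do not both touch its boundary -/
lemma no_two_in {g U g' U' : ℝ → ℝ × ℝ} {S S' : ℝ} (hL : Loop g U S) (hL' : Loop g' U' S')
    (hd : Disjoint (range g) (range g')) {q : ℝ × ℝ} (hq : q ∉ range g) (hq' : q ∉ range g')
    (hw : wn g U S q ≠ 0) (hw' : wn g' U' S' q ≠ 0) {R : ℝ} (hR : 0 < R)
    (h1 : ∀ t, H709R2.sq (g t - q) ≤ R ^ 2) (h1' : ∀ t, H709R2.sq (g' t - q) ≤ R ^ 2)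
    (h2 : ∃ t, H709R2.sq (g t - q) = R ^ 2) (h2' : ∃ t, H709R2.sq (g' t - q) = R ^ 2) : False := by
  have key : ∀ {g U g' U' : ℝ → ℝ × ℝ} {S S' : ℝ} (hL : Loop g U S) (hL' : Loop g' U' S'),
      (∀ t, H709R2.sq (g' t - q) ≤ R ^ 2) → (∃ t, H709R2.sq (g t - q) = R ^ 2) →
      fill g U S ⊆ ins g' U' S' → False := by
    intro g U g' U' S S' hL hL' h1' h2 hsub
    obtain ⟨t, ht⟩ := h2
    have h3 : g t ∈ ins g' U' S' := hsub (Or.inl ⟨t, rfl⟩)
    have hop := (allT0 g' U' S' hL').1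
    have hc : ContinuousAt (fun x : ℝ => g t + x • (g t - q)) 0 := by fun_prop
    have h4 : ∀ᶠ x in 𝓝 (0:ℝ), g t + x • (g t - q) ∈ ins g' U' S' := by
      refine hc.eventually (p := fun y => y ∈ ins g' U' S') ?_
      have e0 : g t + (0:ℝ) • (g t - q) = g t := by rw [zero_smul, add_zero]
      simp only [e0]
      exact hop.mem_nhds h3
    have h5 : ∀ᶠ x in 𝓝[>] (0:ℝ), g t + x • (g t - q) ∈ ins g' U' S' ∧ 0 < x :=
      (h4.filter_mono nhdsWithin_le_nhds).and self_mem_nhdsWithin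
    obtain ⟨x, hx, hx0⟩ := h5.exists
    have h6 : H709R2.sq (g t + x • (g t - q) - q) = (1 + x) ^ 2 * R ^ 2 := by
      rw [← ht]
      unfold H709R2.sq
      simp only [Prod.fst_sub, Prod.snd_sub, Prod.fst_add, Prod.snd_add, Prod.smul_fst,
        Prod.smul_snd, smul_eq_mul]
      ring
    have h7 : ((1 + x) * R) ^ 2 ≤ H709R2.sq (g t + x • (g t - q) - q) := by rw [h6]; nlinarith
    refine far_fill hL' (p := q) (r := (1 + x) * R) (fun t => ?_) h7 (Or.inr hx)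
    have := h1' t
    have h8 : 0 < R ^ 2 := by positivity
    have h9 := mul_pos hx0 h8
    nlinarith [mul_nonneg (sq_nonneg x) h8.le]
  rcases allTT _ _ _ _ _ _ hL hL' hd with h | h | h
  · exact key hL hL' h1' h2 h
  · exact key hL' hL h1 h2' h
  · exact Set.disjoint_left.1 h (Or.inr ⟨hq, hw⟩) (Or.inr ⟨hq', hw'⟩)

/-- two disjoint loops around `q` outside an open disc do not both touch its boundary -/
lemma no_two_out {g U g' U' : ℝ → ℝ × ℝ} {S S' : ℝ} (hL : Loop g U S) (hL' : Loop g' U' S')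
    (hd : Disjoint (range g) (range g')) {q : ℝ × ℝ} (hq : q ∉ range g) (hq' : q ∉ range g')
    (hw : wn g U S q ≠ 0) (hw' : wn g' U' S' q ≠ 0) {R : ℝ} (hR : 0 < R)
    (h1 : ∀ t, R ^ 2 ≤ H709R2.sq (g t - q)) (h1' : ∀ t, R ^ 2 ≤ H709R2.sq (g' t - q))
    (h2 : ∃ t, H709R2.sq (g t - q) = R ^ 2) (h2' : ∃ t, H709R2.sq (g' t - q) = R ^ 2) : False := by
  have key : ∀ {g U g' U' : ℝ → ℝ × ℝ} {S S' : ℝ} (hL : Loop g U S) (hL' : Loop g' U' S'),
      wn g U S q ≠ 0 → (∀ t, R ^ 2 ≤ H709R2.sq (g t - q)) →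
      (∃ t, H709R2.sq (g' t - q) = R ^ 2) → fill g U S ⊆ ins g' U' S' → False := by
    intro g U g' U' S S' hL hL' hw h1 h2' hsub
    obtain ⟨t, ht⟩ := h2'
    have hcl := (allT0 g U S hL).2.isClosed
    have h4 : g' t ∈ fill g U S := by
      have hc : Continuous fun x : ℝ => q + x • (g' t - q) := by fun_prop
      have h5 : ∀ x ∈ Ioo (0:ℝ) 1, q + x • (g' t - q) ∈ fill g U S := by
        intro x hx
        refine Or.inr (disc_ins hL h1 hw ?_)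
        have h6 : H709R2.sq (q + x • (g' t - q) - q) = x ^ 2 * R ^ 2 := by
          rw [← ht]
          unfold H709R2.sq
          simp only [Prod.fst_sub, Prod.snd_sub, Prod.fst_add, Prod.snd_add, Prod.smul_fst,
            Prod.smul_snd, smul_eq_mul]
          ring
        rw [h6]
        have h7 : x ^ 2 < 1 := by nlinarith [hx.1, hx.2]
        have h8 : 0 < R ^ 2 := by positivity
        nlinarith
      have h6 : (1:ℝ) ∈ closure (Ioo (0:ℝ) 1) := by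
        rw [closure_Ioo zero_ne_one]
        exact ⟨zero_le_one, le_rfl⟩
      have h7 := hc.continuousWithinAt.mem_closure_image (s := Ioo (0:ℝ) 1) h6
      have h8 : q + (1:ℝ) • (g' t - q) = g' t := by rw [one_smul]; abel
      simp only [h8] at h7
      refine (closure_minimal ?_ hcl) h7
      rintro _ ⟨x, hx, rfl⟩
      exact h5 x hx
    exact (hsub h4).1 ⟨t, rfl⟩
  rcases allTT _ _ _ _ _ _ hL hL' hd with h | h | h
  · exact key hL hL' hw h1 h2' h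
  · exact key hL' hL hw' h1' h2 h
  · exact Set.disjoint_left.1 h (Or.inr ⟨hq, hw⟩) (Or.inr ⟨hq', hw'⟩)

/-- an enclosed point lies in the bounding box -/
lemma inbox_of_wn {g U : ℝ → ℝ × ℝ} {S : ℝ} (hL : Loop g U S) {q : ℝ × ℝ}
    (hw : wn g U S q ≠ 0) : InBox q (range g) := by
  have h : ∀ u : ℝ × ℝ, ¬ ∀ t, 0 < u.1 * ((g t).1 - q.1) + u.2 * ((g t).2 - q.2) := fun u hu =>
    hw (w3 g U S hL q u hu)
  have a1 := h (1, 0)
  have a2 := h (-1, 0)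
  have a3 := h (0, 1)
  have a4 := h (0, -1)
  push Not at a1 a2 a3 a4
  obtain ⟨t1, h1⟩ := a1
  obtain ⟨t2, h2⟩ := a2
  obtain ⟨t3, h3⟩ := a3
  obtain ⟨t4, h4⟩ := a4
  simp only at h1 h2 h3 h4
  exact ⟨⟨g t1, ⟨t1, rfl⟩, g t2, ⟨t2, rfl⟩, by linarith, by linarith⟩,
    ⟨g t3, ⟨t3, rfl⟩, g t4, ⟨t4, rfl⟩, by linarith, by linarith⟩⟩

/-- the majorant for a window -/
lemma maj_window {n : ℕ} {P Q : MvPolynomial (Fin 2) ℝ} (hP : P.totalDegree ≤ n)
    (hQ : Q.totalDegree ≤ n) (q : ℝ × ℝ) (v : ℝ) {w : ℝ} (hw : 0 ≤ w) :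
    Maj (fun α => (({D | ClosedOrbit (rf (field P Q) α) D ∧ (InBox q D ∧ q ∉ D ∧
      ∃ z ∈ D, |lg q z - v| ≤ w)}.encard : ℕ∞) : ℝ≥0∞)) ((2 * w + 1) * (8000 * (n + 1))) := by
  obtain ⟨m, hm⟩ : ∃ m : ℕ, m = ⌊2 * w⌋₊ + 1 := ⟨_, rfl⟩
  have h0 : (0:ℝ) ≤ 8000 * (n + 1) := by positivity
  have hmw : (m : ℝ) ≤ 2 * w + 1 := by
    rw [hm]
    push_cast
    linarith [Nat.floor_le (show (0:ℝ) ≤ 2 * w by linarith)]
  have h2 := H709U.maj_sum (Finset.range m) (fun i α => ((({C | C ∈ Cl P Q α ∧ InBox q C ∧ q ∉ C ∧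
    ∃ z ∈ C, (v - w + (i : ℝ)) ≤ lg q z ∧ lg q z ≤ (v - w + i) + 1}.encard : ℕ∞)) : ℝ≥0∞))
    (8000 * (n + 1)) h0 (fun i _ => H709U.h4' n P Q hP hQ q _)
  refine H709U.maj_mono (fun α hα => ?_) ?_ h2
  · apply H709U.encard_biUnion_le'
    rintro C ⟨hC, hb, hq, z, hz, hzv⟩
    have h1 := (abs_le.1 hzv).1
    have h3 := (abs_le.1 hzv).2
    have ht0 : 0 ≤ lg q z - (v - w) := by linarith
    have ht1 : lg q z - (v - w) ≤ 2 * w := by linarith
    simp only [mem_iUnion]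
    refine ⟨⌊lg q z - (v - w)⌋₊, ?_, hC, hb, hq, z, hz, ?_, ?_⟩
    · rw [Finset.mem_range, hm, Nat.lt_succ_iff]
      exact Nat.floor_le_floor ht1
    · have := Nat.floor_le ht0
      linarith
    · have := Nat.lt_floor_add_one (lg q z - (v - w))
      linarith
  · rw [Finset.card_range]
    exact mul_le_mul_of_nonneg_right hmw h0

lemma lg_eq_iff {q z : ℝ × ℝ} (hz : z ≠ q) (m : ℝ) :
    (lg q z ≤ m ↔ H709R2.sq (z - q) ≤ exp m ^ 2) ∧ (m ≤ lg q z ↔ exp m ^ 2 ≤ H709R2.sq (z - q)) ∧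
      (lg q z = m ↔ H709R2.sq (z - q) = exp m ^ 2) := by
  have h0 : 0 < H709R2.sq (z - q) := sq_pos_of_ne (sub_ne_zero.2 hz)
  have h1 : exp m ^ 2 = exp (2 * m) := by rw [← Real.exp_nat_mul]; norm_num
  unfold H709U.lg
  rw [h1]
  refine ⟨?_, ?_, ?_⟩
  · rw [← Real.log_le_iff_le_exp h0]
    constructor <;> intro h <;> linarith
  · rw [← Real.le_log_iff_exp_le h0]
    constructor <;> intro h <;> linarith
  · constructor
    · intro h
      have h2 : Real.log (H709R2.sq (z - q)) = 2 * m := by linarith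
      rw [← h2, Real.exp_log h0]
    · intro h
      rw [h, Real.log_exp]
      ring

lemma lg_contOn (q : ℝ × ℝ) : ContinuousOn (lg q) {z | z ≠ q} := by
  intro z hz
  have h0 : H709R2.sq (z - q) ≠ 0 := (sq_pos_of_ne (sub_ne_zero.2 hz)).ne'
  unfold H709U.lg
  exact (((sq_cont q).continuousAt.log h0).div_const 2).continuousWithinAt

/-- **the window count** -/
lemma window_count {n : ℕ} {P Q : MvPolynomial (Fin 2) ℝ} (hP : P.totalDegree ≤ n)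
    (hQ : Q.totalDegree ≤ n) {σ η : ℝ} (hσ : σ = 1 ∨ σ = -1) (hη : 0 < η) (hη1 : η ≤ 1)
    {q : ℝ × ℝ} {v w : ℝ} (hw0 : 0 ≤ w) (s : Finset (Set (ℝ × ℝ)))
    (a : Set (ℝ × ℝ) → ℝ → ℝ) (γ : Set (ℝ × ℝ) → ℝ → ℝ → ℝ × ℝ) (T : Set (ℝ × ℝ) → ℝ → ℝ)
    (hF : ∀ C ∈ s, Path (fun a => rf (field P Q) (σ * a)) η (a C) (γ C) (T C))
    (h0 : ∀ C ∈ s, C = range (γ C 0))
    (hdis : ∀ C ∈ s, ∀ C' ∈ s, C ≠ C' → ∀ τ ∈ Icc (0:ℝ) 1, ∀ τ' ∈ Icc (0:ℝ) 1,
      Disjoint (range (γ C τ)) (range (γ C' τ')))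
    (hoff : ∀ C ∈ s, ∀ τ ∈ Icc (0:ℝ) 1, q ∉ range (γ C τ))
    (hw : ∀ C ∈ s, wn (γ C 0) (fun t => rf (field P Q) (σ * a C 0) (γ C 0 t)) (T C 0) q ≠ 0)
    (hit : ∀ C ∈ s, ∃ τ ∈ Icc (0:ℝ) 1, ∃ t, |lg q (γ C τ t) - v| ≤ w) :
    (s.card : ℝ) * η ≤ (2 * w + 1) * (8000 * (n + 1)) + 2 * η := by
  classical
  have hF2 : ContDiff ℝ 2 (field P Q) := H709R2.contDiff_field P Q
  have hπ := Real.pi_gt_three
  have hX : Good (fun a => rf (field P Q) (σ * a)) η := W960.HP.good_rf hF2 hσ (by linarith)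
  have hL : ∀ C ∈ s, ∀ τ ∈ Icc (0:ℝ) 1, Loop (γ C τ)
      (fun t => rf (field P Q) (σ * a C τ) (γ C τ t)) (T C τ) := fun C hC τ hτ =>
    path_loop hX (hF C hC) hτ
  have hwn : ∀ C ∈ s, ∀ τ ∈ Icc (0:ℝ) 1,
      wn (γ C τ) (fun t => rf (field P Q) (σ * a C τ) (γ C τ t)) (T C τ) q ≠ 0 := by
    intro C hC τ hτ
    rw [path_wn_const hX (hF C hC) isPreconnected_Icc (fun y hy => ⟨hy, hoff C hC y hy⟩) hτ
      ⟨le_rfl, zero_le_one⟩]
    exact hw C hC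
  have hne : ∀ C ∈ s, ∀ τ ∈ Icc (0:ℝ) 1, ∀ t, γ C τ t ≠ q := fun C hC τ hτ t h =>
    hoff C hC τ hτ ⟨t, h⟩
  have hlgc : ∀ C ∈ s, ContinuousOn (fun x : ℝ × ℝ => lg q (γ C x.1 x.2)) (Icc 0 1 ×ˢ univ) := by
    intro C hC
    exact (lg_contOn q).comp (hF C hC).cont fun x hx => hne C hC x.1 hx.1 x.2
  obtain ⟨Wh, hWh⟩ : ∃ Wh : Set (ℝ × ℝ) → Prop, Wh = fun C => ∀ τ ∈ Icc (0:ℝ) 1, ∃ t,
    |lg q (γ C τ t) - v| ≤ w := ⟨_, rfl⟩
  obtain ⟨Wi, hWi⟩ : ∃ Wi : Set (ℝ × ℝ) → Prop, Wi = fun C => ∃ τ ∈ Icc (0:ℝ) 1,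
    (∀ t, lg q (γ C τ t) ≤ v - w) ∧ ∃ t, lg q (γ C τ t) = v - w := ⟨_, rfl⟩
  obtain ⟨Wo, hWo⟩ : ∃ Wo : Set (ℝ × ℝ) → Prop, Wo = fun C => ∃ τ ∈ Icc (0:ℝ) 1,
    (∀ t, v + w ≤ lg q (γ C τ t)) ∧ ∃ t, lg q (γ C τ t) = v + w := ⟨_, rfl⟩
  have hcover : s ⊆ s.filter Wh ∪ (s.filter Wi ∪ s.filter Wo) := by
    intro C hC
    simp only [Finset.mem_union, Finset.mem_filter]
    by_cases h1 : Wh C
    · exact Or.inl ⟨hC, h1⟩
    · right
      rw [hWh] at h1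
      push Not at h1
      obtain ⟨x, hx, h1⟩ := h1
      obtain ⟨y, hy, t, ht⟩ := hit C hC
      have hcx : Continuous fun t => lg q (γ C x t) := by
        have h2 : Continuous fun t : ℝ => ((x, t) : ℝ × ℝ) := by fun_prop
        exact (hlgc C hC).comp_continuous h2 fun t => ⟨hx, mem_univ _⟩
      -- one side
      have hside : (∀ t, lg q (γ C x t) < v - w) ∨ (∀ t, v + w < lg q (γ C x t)) := by
        by_contra hcon
        push Not at hcon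
        obtain ⟨⟨t1, h3⟩, t2, h4⟩ := hcon
        have h5 : v + w < lg q (γ C x t1) := by
          rcases lt_abs.1 (h1 t1) with h | h <;> linarith
        have h6 : lg q (γ C x t2) < v - w := by
          rcases lt_abs.1 (h1 t2) with h | h <;> linarith
        obtain ⟨t3, h7⟩ := mem_range_of_exists_le_of_exists_ge hcx (c := v)
          ⟨t2, by linarith⟩ ⟨t1, by linarith⟩
        have h8 := h1 t3
        simp only at h7
        rw [h7, sub_self, abs_zero] at h8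
        linarith
      have hper : ∀ τ ∈ Icc (0:ℝ) 1, ∀ t, γ C τ (t + T C τ) = γ C τ t := (hF C hC).per
      rcases hside with h2 | h2
      · left
        refine ⟨hC, ?_⟩
        rw [hWi]
        exact touch (f := fun τ t => lg q (γ C τ t)) (hlgc C hC) (hF C hC).contT (hF C hC).pos
          (fun τ hτ t => by simp only [hper τ hτ t]) hx hy h2 ⟨t, by linarith [(abs_le.1 ht).1]⟩
      · right
        refine ⟨hC, ?_⟩
        rw [hWo]
        obtain ⟨z, hz, h3, t', h4⟩ := touch (f := fun τ t => -lg q (γ C τ t)) (m := -(v + w))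
          (hlgc C hC).neg (hF C hC).contT (hF C hC).pos
          (fun τ hτ t => by simp only [hper τ hτ t]) hx hy (fun t => by linarith [h2 t])
          ⟨t, by linarith [(abs_le.1 ht).2]⟩
        exact ⟨z, hz, fun t => by linarith [h3 t], t', by linarith⟩
  -- at most one path touches from inside
  have hin : (s.filter Wi).card ≤ 1 := by
    rw [Finset.card_le_one]
    intro C hC C' hC'
    by_contra hne'
    rw [Finset.mem_filter, hWi] at hC hC'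
    obtain ⟨hC, τ, hτ, h1, t, ht⟩ := hC
    obtain ⟨hC', τ', hτ', h1', t', ht'⟩ := hC'
    exact no_two_in (hL C hC τ hτ) (hL C' hC' τ' hτ') (hdis C hC C' hC' hne' τ hτ τ' hτ')
      (hoff C hC τ hτ) (hoff C' hC' τ' hτ') (hwn C hC τ hτ) (hwn C' hC' τ' hτ')
      (R := exp (v - w)) (exp_pos _)
      (fun t => (lg_eq_iff (hne C hC τ hτ t) _).1.1 (h1 t))
      (fun t => (lg_eq_iff (hne C' hC' τ' hτ' t) _).1.1 (h1' t))
      ⟨t, (lg_eq_iff (hne C hC τ hτ t) _).2.2.1 ht⟩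
      ⟨t', (lg_eq_iff (hne C' hC' τ' hτ' t') _).2.2.1 ht'⟩
  have hout : (s.filter Wo).card ≤ 1 := by
    rw [Finset.card_le_one]
    intro C hC C' hC'
    by_contra hne'
    rw [Finset.mem_filter, hWo] at hC hC'
    obtain ⟨hC, τ, hτ, h1, t, ht⟩ := hC
    obtain ⟨hC', τ', hτ', h1', t', ht'⟩ := hC'
    exact no_two_out (hL C hC τ hτ) (hL C' hC' τ' hτ') (hdis C hC C' hC' hne' τ hτ τ' hτ')
      (hoff C hC τ hτ) (hoff C' hC' τ' hτ') (hwn C hC τ hτ) (hwn C' hC' τ' hτ')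
      (R := exp (v + w)) (exp_pos _)
      (fun t => (lg_eq_iff (hne C hC τ hτ t) _).2.1.1 (h1 t))
      (fun t => (lg_eq_iff (hne C' hC' τ' hτ' t) _).2.1.1 (h1' t))
      ⟨t, (lg_eq_iff (hne C hC τ hτ t) _).2.2.1 ht⟩
      ⟨t', (lg_eq_iff (hne C' hC' τ' hτ' t') _).2.2.1 ht'⟩
  -- whole paths
  have hwhole : ((s.filter Wh).card : ℝ) * η ≤ (2 * w + 1) * (8000 * (n + 1)) := by
    refine N224.Hil.side_card hF2 (G := fun _ D => InBox q D ∧ q ∉ D ∧ ∃ z ∈ D, |lg q z - v| ≤ w)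
      (fun _ _ h => h) (by positivity) (maj_window hP hQ q v hw0) hσ (by linarith) _ ?_
    intro C hC
    rw [Finset.mem_filter, hWh] at hC
    obtain ⟨hC, h1⟩ := hC
    rw [W960.HP.persG_iff hσ hη]
    refine ⟨a C, γ C, T C, hF C hC, fun τ hτ => ⟨inbox_of_wn (hL C hC τ hτ) (hwn C hC τ hτ),
      hoff C hC τ hτ, ?_⟩, h0 C hC⟩
    obtain ⟨t, ht⟩ := h1 τ hτ
    exact ⟨_, ⟨t, rfl⟩, ht⟩
  have hcard : (s.card : ℝ) ≤ (s.filter Wh).card + 2 := by
    have h1 := (Finset.card_le_card hcover).trans (Finset.card_union_le _ _)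
    have h2 := Finset.card_union_le (s.filter Wi) (s.filter Wo)
    have h3 : s.card ≤ (s.filter Wh).card + 2 := by omega
    exact_mod_cast h3
  nlinarith

end Pool.Agent.K9h44.HS
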