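import Pool.Agent.K9h44.HS.A2

/-! Project HS (helper44): counting the paths whose middle members are uniformly star-shaped. -/

open Real Set MeasureTheory Topology Filter
open scoped ENNReal

namespace Pool.Agent.K9h44.HS

open Pool.Agent.H709R2 (wedge rot field ClosedOrbit)
open Pool.Agent.H709U (rf Orb V W lg InBox Cl)
open Pool.Agent.H709Q (Maj)
open Pool.Agent.N224.Hil (Loop wn ins fill)
open Pool.Agent.W960.HP (Path Good PersG)

lemma V_add_pi (X : ℝ × ℝ → ℝ × ℝ) (p : ℝ × ℝ) (α : ℝ) (z : ℝ × ℝ) :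
    V X p (α + π) z = -V X p α z := by
  unfold V wedge rot
  rw [Real.cos_add_pi, Real.sin_add_pi]
  simp only
  ring

lemma W_add_pi (X : ℝ × ℝ → ℝ × ℝ) (p : ℝ × ℝ) (α : ℝ) (z : ℝ × ℝ) :
    W X p (α + π) z = -W X p α z := by
  unfold W H709U.dot rot
  rw [Real.cos_add_pi, Real.sin_add_pi]
  simp only
  ring

/-- a lower bound on an interval and a majorant -/
lemma maj_lower {N : ℝ → ℝ≥0∞} {K : ℝ} (hK : 0 ≤ K) (hM : Maj N K) {x y m : ℝ} (hx : 0 ≤ x)
    (hxy : x ≤ y) (hy : y ≤ π) (hm : 0 ≤ m) (h : ∀ α ∈ Ioo x y, ENNReal.ofReal m ≤ N α) :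
    m * (y - x) ≤ K := by
  obtain ⟨g, hg, h1, h2⟩ := hM
  have hsub : Ioo x y ⊆ Ioo 0 π := Ioo_subset_Ioo hx hy
  have h3 : ∫⁻ _ in Ioo x y, ENNReal.ofReal m ≤ ∫⁻ α in Ioo x y, g α :=
    setLIntegral_mono hg fun α hα => (h α hα).trans (h1 α (hsub hα))
  have h4 : ∫⁻ α in Ioo x y, g α ≤ ∫⁻ α in Ioo 0 π, g α := lintegral_mono_set hsub
  rw [setLIntegral_const, Real.volume_Ioo, ← ENNReal.ofReal_mul hm] at h3
  have h5 := (h3.trans h4).trans h2
  exact (ENNReal.ofReal_le_ofReal_iff hK).1 h5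

/-- **the star count** -/
lemma star_count {n : ℕ} {P Q : MvPolynomial (Fin 2) ℝ} (hP : P.totalDegree ≤ n)
    (hQ : Q.totalDegree ≤ n) {σ η : ℝ} (hσ : σ = 1 ∨ σ = -1) (hη : 0 < η) (hη1 : η ≤ 1)
    {p : ℝ × ℝ} (s : Finset (Set (ℝ × ℝ)))
    (a : Set (ℝ × ℝ) → ℝ → ℝ) (γ : Set (ℝ × ℝ) → ℝ → ℝ → ℝ × ℝ) (T : Set (ℝ × ℝ) → ℝ → ℝ)
    (hF : ∀ C ∈ s, Path (fun a => rf (field P Q) (σ * a)) η (a C) (γ C) (T C))
    (hdis : ∀ C ∈ s, ∀ C' ∈ s, C ≠ C' → ∀ τ ∈ Icc (0:ℝ) 1, ∀ τ' ∈ Icc (0:ℝ) 1,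
      Disjoint (range (γ C τ)) (range (γ C' τ')))
    (hstar : ∀ C ∈ s, ∀ α ∈ Ioo (2 * η / 5) (3 * η / 5), ∃ τ ∈ Ioo (0:ℝ) 1, a C τ = α ∧
      ∀ z ∈ range (γ C τ),
        (η / 128) ^ 2 * W (field P Q) p (σ * α) z ^ 2 < V (field P Q) p (σ * α) z ^ 2) :
    (s.card : ℝ) * (η / 5) ≤ (1 + 1 / (η / 128) ^ 2) * (π * n) := by
  classical
  have hπ := Real.pi_gt_three
  have hMaj := H709U.g4' n P Q hP hQ p (η / 128) (by positivity)
  have hK : 0 ≤ (1 + 1 / (η / 128) ^ 2) * (π * n) := by positivity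
  obtain ⟨A, hA⟩ : ∃ A : ℝ → Set (Set (ℝ × ℝ)), A = fun α => {C | C ∈ Cl P Q α ∧ ∀ z ∈ C,
    (η / 128) ^ 2 * W (field P Q) p α z ^ 2 < V (field P Q) p α z ^ 2} := ⟨_, rfl⟩
  have hMaj' : Maj (fun α => (((A α).encard : ℕ∞) : ℝ≥0∞))
      ((1 + 1 / (η / 128) ^ 2) * (π * n)) := by rw [hA]; exact hMaj
  -- many star-shaped closed orbits
  have hmany : ∀ α ∈ Ioo (2 * η / 5) (3 * η / 5), (s.card : ℕ∞) ≤ (A (σ * α)).encard := by
    intro α hα
    have hch : ∀ C : Set (ℝ × ℝ), ∃ D : Set (ℝ × ℝ), C ∈ s → ∃ τ ∈ Ioo (0:ℝ) 1, a C τ = α ∧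
        (∀ z ∈ range (γ C τ),
          (η / 128) ^ 2 * W (field P Q) p (σ * α) z ^ 2 < V (field P Q) p (σ * α) z ^ 2) ∧
        D = range (γ C τ) := by
      intro C
      by_cases hC : C ∈ s
      · obtain ⟨τ, h1, h2, h3⟩ := hstar C hC α hα
        exact ⟨range (γ C τ), fun _ => ⟨τ, h1, h2, h3, rfl⟩⟩
      · exact ⟨∅, fun h => absurd h hC⟩
    choose D hD using hch
    have hinj : InjOn D (s : Set (Set (ℝ × ℝ))) := by
      intro C hC C' hC' h
      by_contra hne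
      obtain ⟨τ, h1, -, -, h4⟩ := hD C hC
      obtain ⟨τ', h1', -, -, h4'⟩ := hD C' hC'
      have h5 := hdis C hC C' hC' hne τ (Ioo_subset_Icc_self h1) τ' (Ioo_subset_Icc_self h1')
      rw [← h4, ← h4', h] at h5
      have h6 : (D C').Nonempty := by rw [h4']; exact range_nonempty _
      obtain ⟨z, hz⟩ := h6
      exact Set.disjoint_left.1 h5 hz hz
    have h1 : ((s.image D : Finset (Set (ℝ × ℝ))) : Set (Set (ℝ × ℝ))) ⊆ A (σ * α) := by
      intro E hE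
      rw [Finset.coe_image] at hE
      obtain ⟨C, hC, rfl⟩ := hE
      obtain ⟨τ, h1, h2, h3, h4⟩ := hD C hC
      rw [h4, hA]
      refine ⟨?_, h3⟩
      have h5 := (hF C hC).closed (Ioo_subset_Icc_self h1)
      simp only [h2] at h5
      exact h5
    have h2 := encard_le_encard h1
    rw [Set.encard_coe_eq_coe_finsetCard, Finset.card_image_of_injOn hinj] at h2
    exact h2
  have hcast : ENNReal.ofReal (s.card : ℝ) = ((s.card : ℕ∞) : ℝ≥0∞) := by
    rw [ENNReal.ofReal_natCast]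
    simp
  rcases hσ with hσ | hσ
  · have h1 := maj_lower hK hMaj' (x := 2 * η / 5) (y := 3 * η / 5) (m := s.card) (by positivity)
      (by linarith) (by linarith) (Nat.cast_nonneg _) (fun α hα => by
        have h2 := hmany α hα
        rw [hσ, one_mul] at h2
        rw [hcast]
        exact ENat.toENNReal_le.2 h2)
    have e1 : 3 * η / 5 - 2 * η / 5 = η / 5 := by ring
    rwa [e1] at h1
  · have h1 := maj_lower hK hMaj' (x := π - 3 * η / 5) (y := π - 2 * η / 5) (m := s.card)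
      (by linarith) (by linarith) (by linarith) (Nat.cast_nonneg _) (fun β hβ => by
        have h2 := hmany (π - β) ⟨by linarith [hβ.2], by linarith [hβ.1]⟩
        rw [hcast]
        refine ENat.toENNReal_le.2 (h2.trans (encard_le_encard ?_))
        have e1 : σ * (π - β) + π = β := by rw [hσ]; ring
        rw [hA]
        rintro C ⟨h3, h4⟩
        refine ⟨?_, ?_⟩
        · have h5 := W960.HP.closed_add_pi h3
          rw [e1] at h5
          exact h5
        · intro z hz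
          have h5 := h4 z hz
          have h6 := V_add_pi (field P Q) p (σ * (π - β)) z
          have h7 := W_add_pi (field P Q) p (σ * (π - β)) z
          rw [e1] at h6 h7
          rw [h6, h7, neg_sq, neg_sq]
          exact h5)
    have e1 : π - 2 * η / 5 - (π - 3 * η / 5) = η / 5 := by ring
    rwa [e1] at h1

end Pool.Agent.K9h44.HS
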