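import Pool.Agent.K9h44.HS.A3

/-! Project HS (helper44): the swept region of a path and the choice of the window. -/

open Real Set MeasureTheory Topology Filter
open scoped ENNReal

namespace Pool.Agent.K9h44.HS

open Pool.Agent.H709R2 (wedge rot field ClosedOrbit)
open Pool.Agent.H709U (rf Orb V W lg InBox Cl)
open Pool.Agent.N224.Hil (Loop wn ins fill e2)
open Pool.Agent.W960.HP (Path Good PersG)

/-- the radii of the swept region -/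
lemma swept {X : ℝ → ℝ × ℝ → ℝ × ℝ} {η : ℝ} {a : ℝ → ℝ} {γ : ℝ → ℝ → ℝ × ℝ} {T : ℝ → ℝ}
    (F : Path X η a γ T) {p : ℝ × ℝ} (hp : ∀ τ ∈ Icc (0:ℝ) 1, p ∉ range (γ τ)) :
    ∃ r R : ℝ, 0 < r ∧ r ≤ R ∧ (∀ τ ∈ Icc (0:ℝ) 1, ∀ t, r ^ 2 ≤ H709R2.sq (γ τ t - p) ∧
      H709R2.sq (γ τ t - p) ≤ R ^ 2) ∧
      ∀ d, r ≤ d → d ≤ R → ∃ τ ∈ Icc (0:ℝ) 1, ∃ t, H709R2.sq (γ τ t - p) = d ^ 2 := by
  obtain ⟨M, hM⟩ := (isCompact_Icc.image_of_continuousOn F.contT).isBounded.exists_norm_le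
  have hM' : ∀ τ ∈ Icc (0:ℝ) 1, T τ ≤ M := fun τ hτ =>
    (le_abs_self _).trans (hM _ ⟨τ, hτ, rfl⟩)
  have m0 : (0:ℝ) ∈ Icc (0:ℝ) 1 := ⟨le_rfl, zero_le_one⟩
  have hM0 : 0 ≤ M := (F.pos 0 m0).le.trans (hM' 0 m0)
  have hred : ∀ τ ∈ Icc (0:ℝ) 1, ∀ t, ∃ t' ∈ Icc (0:ℝ) M, γ τ t = γ τ t' := by
    intro τ hτ t
    have hp : Function.Periodic (γ τ) (T τ) := F.per τ hτ
    obtain ⟨t', ht', h⟩ := hp.exists_mem_Ico₀ (F.pos τ hτ) t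
    exact ⟨t', ⟨ht'.1, ht'.2.le.trans (hM' τ hτ)⟩, h⟩
  have hc : ContinuousOn (fun x : ℝ × ℝ => H709R2.sq (γ x.1 x.2 - p)) (Icc 0 1 ×ˢ univ) :=
    (sq_cont p).comp_continuousOn F.cont
  have hc' : ContinuousOn (fun x : ℝ × ℝ => H709R2.sq (γ x.1 x.2 - p)) (Icc 0 1 ×ˢ Icc 0 M) :=
    hc.mono (prod_mono le_rfl (subset_univ _))
  have hK : IsCompact (Icc (0:ℝ) 1 ×ˢ Icc 0 M) := isCompact_Icc.prod isCompact_Icc
  have hKne : (Icc (0:ℝ) 1 ×ˢ Icc 0 M).Nonempty := ⟨(0, 0), m0, ⟨le_rfl, hM0⟩⟩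
  obtain ⟨x, hx, hmin⟩ := hK.exists_isMinOn hKne hc'
  obtain ⟨y, hy, hmax⟩ := hK.exists_isMaxOn hKne hc'
  have hx0 : 0 < H709R2.sq (γ x.1 x.2 - p) :=
    sq_pos_of_ne (sub_ne_zero.2 fun h => hp x.1 hx.1 ⟨x.2, h⟩)
  have hle : ∀ τ ∈ Icc (0:ℝ) 1, ∀ t, H709R2.sq (γ x.1 x.2 - p) ≤ H709R2.sq (γ τ t - p) ∧
      H709R2.sq (γ τ t - p) ≤ H709R2.sq (γ y.1 y.2 - p) := by
    intro τ hτ t
    obtain ⟨t', ht', h⟩ := hred τ hτ t
    rw [h]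
    exact ⟨hmin (show (τ, t') ∈ Icc (0:ℝ) 1 ×ˢ Icc 0 M from ⟨hτ, ht'⟩),
      hmax (show (τ, t') ∈ Icc (0:ℝ) 1 ×ˢ Icc 0 M from ⟨hτ, ht'⟩)⟩
  refine ⟨√(H709R2.sq (γ x.1 x.2 - p)), √(H709R2.sq (γ y.1 y.2 - p)), Real.sqrt_pos.2 hx0,
    Real.sqrt_le_sqrt (hle y.1 hy.1 y.2).1, ?_, ?_⟩
  · intro τ hτ t
    rw [Real.sq_sqrt (sq_nn _), Real.sq_sqrt (sq_nn _)]
    exact hle τ hτ t
  · intro d h1 h2
    have hd0 : 0 ≤ d := (Real.sqrt_nonneg _).trans h1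
    have h3 : H709R2.sq (γ x.1 x.2 - p) ≤ d ^ 2 := by
      rw [← Real.sqrt_le_left hd0]
      exact h1
    have h4 : d ^ 2 ≤ H709R2.sq (γ y.1 y.2 - p) := by
      rw [← Real.le_sqrt hd0 (sq_nn _)]
      exact h2
    have hpre : IsPreconnected (Icc (0:ℝ) 1 ×ˢ (univ : Set ℝ)) :=
      isPreconnected_Icc.prod isPreconnected_univ
    obtain ⟨w, hw, hwd⟩ := hpre.intermediate_value (a := x) (b := y) ⟨hx.1, mem_univ _⟩
      ⟨hy.1, mem_univ _⟩ hc ⟨h3, h4⟩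
    exact ⟨w.1, hw.1, w.2, hwd⟩

lemma e2_norm (x y : ℝ × ℝ) : e2 x y = ‖(⟨x.1, x.2⟩ : ℂ) - ⟨y.1, y.2⟩‖ := by
  rw [Complex.norm_def, Complex.normSq_apply]
  unfold N224.Hil.e2
  congr 1
  simp only [Complex.sub_re, Complex.sub_im]
  ring

lemma e2_tri (x y z : ℝ × ℝ) : e2 x z ≤ e2 x y + e2 y z := by
  rw [e2_norm, e2_norm, e2_norm]
  exact norm_sub_le_norm_sub_add_norm_sub _ _ _

lemma e2_comm (x y : ℝ × ℝ) : e2 x y = e2 y x := by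
  rw [e2_norm, e2_norm, norm_sub_rev]

/-- the choice of the window -/
lemma classify {S : Finset (ℝ × ℝ)} {N : Finset ((ℝ × ℝ) × ℝ)} (hNS : ∀ q ∈ N, q.1 ∈ S)
    (hN : ∀ p ∈ S, ∀ s ∈ S, p ≠ s →
      ∃ q ∈ N, e2 q.1 p ≤ e2 s p / 8 ∧ |q.2 - Real.log (e2 s p)| ≤ Real.log 8)
    {η : ℝ} (hη : 0 < η) (hη1 : η ≤ 1) {p : ℝ × ℝ} (hp : p ∈ S) {r R : ℝ} (hr : 0 < r)
    (hrR : r ≤ R) (hbad : ∃ s ∈ S, (η / 32 * r) ^ 2 ≤ H709R2.sq (s - p) ∧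
      H709R2.sq (s - p) ≤ (2 * R) ^ 2) :
    ∃ q ∈ N, H709R2.sq (q.1 - p) < r ^ 2 ∧ ∃ d, r ≤ d ∧ d ≤ R ∧ ∀ z, H709R2.sq (z - p) = d ^ 2 →
      |lg q.1 z - q.2| ≤ Real.log (512 / η) := by
  classical
  have hR : 0 < R := hr.trans_le hrR
  obtain ⟨s₀, hs₀, hs₀'⟩ := hbad
  obtain ⟨s, hs, hsmin⟩ := (S.filter fun s => (η / 32 * r) ^ 2 ≤ H709R2.sq (s - p) ∧
      H709R2.sq (s - p) ≤ (2 * R) ^ 2).exists_min_image (fun s => H709R2.sq (s - p))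
    ⟨s₀, Finset.mem_filter.2 ⟨hs₀, hs₀'⟩⟩
  rw [Finset.mem_filter] at hs
  obtain ⟨hsS, hs1, hs2⟩ := hs
  have hη32 : 0 < η / 32 * r := by positivity
  have hsq : 0 < H709R2.sq (s - p) := lt_of_lt_of_le (by positivity) hs1
  have hne : p ≠ s := by
    rintro rfl
    rw [sub_self] at hsq
    unfold H709R2.sq at hsq
    simp at hsq
  obtain ⟨q, hq, hq1, hq2⟩ := hN p hp s hsS hne
  obtain ⟨D, hD⟩ : ∃ D : ℝ, D = e2 s p := ⟨_, rfl⟩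
  have hDs : D = √(H709R2.sq (s - p)) := by rw [hD]; exact N224.Hil.e2_sq s p
  have hDD : D ^ 2 = H709R2.sq (s - p) := by rw [hDs]; exact Real.sq_sqrt hsq.le
  have hD0 : 0 < D := by rw [hDs]; exact Real.sqrt_pos.2 hsq
  have hDr : η / 32 * r ≤ D := by
    rw [hDs]
    exact Real.le_sqrt_of_sq_le hs1
  have hDR : D ≤ 2 * R := by
    rw [hDs]
    exact Real.sqrt_le_left (by positivity) |>.2 hs2
  rw [← hD] at hq1 hq2
  obtain ⟨A, hA⟩ : ∃ A : ℝ, A = e2 q.1 p := ⟨_, rfl⟩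
  rw [← hA] at hq1
  have hAA : A ^ 2 = H709R2.sq (q.1 - p) := by
    rw [hA, N224.Hil.e2_sq]
    exact Real.sq_sqrt (sq_nn _)
  have hA0 : 0 ≤ A := by rw [hA, N224.Hil.e2_sq]; exact Real.sqrt_nonneg _
  have hsmall : H709R2.sq (q.1 - p) < (η / 32 * r) ^ 2 := by
    by_contra hcon
    push Not at hcon
    have h1 : H709R2.sq (q.1 - p) ≤ (2 * R) ^ 2 := by
      rw [← hAA]
      exact pow_le_pow_left₀ hA0 (by linarith) 2
    have h2 := hsmin q.1 (Finset.mem_filter.2 ⟨hNS q hq, hcon, h1⟩)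
    rw [← hAA, ← hDD] at h2
    nlinarith
  refine ⟨q, hq, hsmall.trans_le ?_, ?_⟩
  · refine pow_le_pow_left₀ hη32.le ?_ 2
    nlinarith
  -- the radius `d`
  obtain ⟨d, hd1, hd2, hd3, hd4⟩ : ∃ d, r ≤ d ∧ d ≤ R ∧ D / 2 ≤ d ∧ d ≤ 32 / η * D := by
    have h32 : 1 ≤ 32 / η := by
      rw [le_div_iff₀ hη]
      linarith
    have h1 : r ≤ 32 / η * D := by
      rw [div_mul_eq_mul_div, le_div_iff₀ hη]
      linarith
    have h2 : D ≤ 32 / η * D := by nlinarith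
    rcases lt_or_ge D r with h | h
    · exact ⟨r, le_rfl, hrR, by linarith, h1⟩
    · rcases le_or_gt D R with h' | h'
      · exact ⟨D, h, h', by linarith, h2⟩
      · exact ⟨R, hrR, le_rfl, by linarith, by linarith⟩
  refine ⟨d, hd1, hd2, fun z hz => ?_⟩
  have hd0 : 0 < d := hr.trans_le hd1
  have hzp : e2 z p = d := by
    rw [N224.Hil.e2_sq, hz]
    exact Real.sqrt_sq hd0.le
  have h1 := e2_tri z q.1 p
  have h2 := e2_tri z p q.1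
  rw [hzp, ← hA] at h1
  rw [hzp, e2_comm p q.1, ← hA] at h2
  obtain ⟨x, hx⟩ : ∃ x : ℝ, x = e2 z q.1 := ⟨_, rfl⟩
  rw [← hx] at h1 h2
  have hx1 : 3 / 8 * D ≤ x := by linarith
  have hx0 : 0 < x := by linarith
  have hx2 : x ≤ 64 / η * D := by
    have h3 : D / 8 ≤ 32 / η * D := by
      have h32 : 1 ≤ 32 / η := by
        rw [le_div_iff₀ hη]
        linarith
      nlinarith
    have h4 : 64 / η * D = 32 / η * D + 32 / η * D := by ring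
    linarith
  have hlg : lg q.1 z = Real.log x := by
    unfold H709U.lg
    rw [hx, N224.Hil.e2_sq, Real.log_sqrt (sq_nn _)]
  have hup : Real.log x ≤ Real.log (64 / η) + Real.log D := by
    rw [← Real.log_mul (by positivity) hD0.ne']
    exact Real.log_le_log hx0 hx2
  have hlo : Real.log D - Real.log (64 / η) ≤ Real.log x := by
    have h3 : Real.log D ≤ Real.log (64 / η) + Real.log x := by
      rw [← Real.log_mul (by positivity) hx0.ne']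
      apply Real.log_le_log hD0
      have h4 : 64 ≤ 64 / η := by
        rw [le_div_iff₀ hη]
        linarith
      nlinarith
    linarith
  have h512 : Real.log (512 / η) = Real.log (64 / η) + Real.log 8 := by
    rw [← Real.log_mul (by positivity) (by norm_num)]
    congr 1
    ring
  rw [hlg, h512]
  have h5 := abs_le.1 hq2
  rw [abs_le]
  constructor <;> linarith [h5.1, h5.2]

end Pool.Agent.K9h44.HS
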