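import Pool.Agent.K9h44.HS.Stm
import Pool.Agent.K9h63.HS.ArcA

/-! Leaf ARC of project HS (helper63). -/

namespace Pool.Agent.K9h44.HS

/-- ARC -/
theorem arc : S_ARC := fun G L hG hL hLG K hK z hz hLz e he =>
  K9h63.HS.arc0 G L hG hL hLG K hK z hz hLz e he

end Pool.Agent.K9h44.HS
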