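import Pool.Agent.K9h44.HS.Stm

/-! Project HS (helper44): a curve which always crosses a simple closed curve from the inside to the
outside stays outside after the first crossing. -/

open Real Set MeasureTheory Topology Filter

namespace Pool.Agent.K9h44.HS

open Pool.Agent.H709R2 (wedge sq)
open Pool.Agent.N224.Hil (Loop wn ins fill w1 w2 w3 w4 allT0)

lemma sqrt_sq_le (w : ℝ × ℝ) : √(sq w) ≤ 2 * ‖w‖ := by
  rw [Real.sqrt_le_left (by positivity)]
  have h1 : |w.1| ≤ ‖w‖ := norm_fst_le w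
  have h2 : |w.2| ≤ ‖w‖ := norm_snd_le w
  have h3 := sq_abs w.1
  have h4 := sq_abs w.2
  have h5 := norm_nonneg w
  unfold Pool.Agent.H709R2.sq
  nlinarith [abs_nonneg w.1, abs_nonneg w.2]

/-- the position of a curve next to a transversal crossing -/
lemma cross_local {v : ℝ × ℝ} {l : ℝ → ℝ × ℝ} {l' : ℝ × ℝ} {s₀ : ℝ} (hl : HasDerivAt l l' s₀)
    (hw : wedge v l' ≠ 0) : ∃ κ : ℝ, 0 < κ ∧ ∀ δ : ℝ, 0 < δ → ∀ᶠ s in 𝓝 s₀, s ≠ s₀ →
      (l s - l s₀ ≠ 0 ∧ √(sq (l s - l s₀)) < δ ∧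
        κ * √(sq (l s - l s₀)) ≤ wedge v (l s - l s₀) * (SignType.sign ((s - s₀) * wedge v l') : ℝ)) := by
  set m := |wedge v l'| with hm
  have hm0 : 0 < m := abs_pos.2 hw
  have hn := norm_nonneg l'
  refine ⟨m / (4 * (‖l'‖ + 1)), by positivity, ?_⟩
  intro δ hδ
  have hd : HasDerivAt (fun s => wedge v (l s - l s₀)) (wedge v l') s₀ := by
    have h2 := (ContinuousLinearMap.fst ℝ ℝ ℝ).hasFDerivAt.comp_hasDerivAt s₀ hl
    have h3 := (ContinuousLinearMap.snd ℝ ℝ ℝ).hasFDerivAt.comp_hasDerivAt s₀ hl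
    have h4 := ((h3.sub_const (l s₀).2).const_mul v.1).sub ((h2.sub_const (l s₀).1).const_mul v.2)
    exact h4
  have e1 := (hasDerivAt_iff_isLittleO.1 hd).def (c := m / 2) (by positivity)
  have e2 := (hasDerivAt_iff_isLittleO.1 hl).def (c := 1) one_pos
  have e3 : ∀ᶠ s in 𝓝 s₀, √(sq (l s - l s₀)) < δ := by
    have hc : ContinuousAt (fun s => √(sq (l s - l s₀))) s₀ := by
      have h1 := hl.continuousAt
      have h2 : Continuous fun w : ℝ × ℝ => √(sq (w - l s₀)) := by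
        unfold Pool.Agent.H709R2.sq
        fun_prop
      exact ContinuousAt.comp (g := fun w : ℝ × ℝ => √(sq (w - l s₀))) h2.continuousAt h1
    have h0 : √(sq (l s₀ - l s₀)) < δ := by
      rw [sub_self]
      unfold Pool.Agent.H709R2.sq
      simpa using hδ
    exact hc.eventually (gt_mem_nhds h0)
  filter_upwards [e1, e2, e3] with s h1 h2 h3 hs
  have hs0 : 0 < |s - s₀| := abs_pos.2 (sub_ne_zero.2 hs)
  have hself : wedge v (l s₀ - l s₀) = 0 := by rw [sub_self]; unfold wedge; simp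
  rw [hself, sub_zero, smul_eq_mul, Real.norm_eq_abs, Real.norm_eq_abs] at h1
  -- lower bound for the wedge
  have hsgn : m * |s - s₀| / 2 ≤
      wedge v (l s - l s₀) * (SignType.sign ((s - s₀) * wedge v l') : ℝ) := by
    have h4 := abs_le.1 h1
    rcases lt_or_gt_of_ne (mul_ne_zero (sub_ne_zero.2 hs) hw) with h5 | h5
    · rw [sign_neg h5]
      have h6 : m * |s - s₀| = -((s - s₀) * wedge v l') := by
        rw [hm, mul_comm, ← abs_mul, abs_of_neg h5]
      simp only [SignType.neg_eq_neg_one, SignType.coe_neg, SignType.coe_one]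
      nlinarith [h4.1, h4.2]
    · rw [sign_pos h5]
      have h6 : m * |s - s₀| = (s - s₀) * wedge v l' := by
        rw [hm, mul_comm, ← abs_mul, abs_of_pos h5]
      simp only [SignType.pos_eq_one, SignType.coe_one]
      nlinarith [h4.1, h4.2]
  have hup : √(sq (l s - l s₀)) ≤ 2 * (‖l'‖ + 1) * |s - s₀| := by
    refine (sqrt_sq_le _).trans ?_
    have h4 : ‖l s - l s₀‖ ≤ (‖l'‖ + 1) * |s - s₀| := by
      calc ‖l s - l s₀‖ = ‖(l s - l s₀ - (s - s₀) • l') + (s - s₀) • l'‖ := by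
            congr 1; abel
        _ ≤ ‖l s - l s₀ - (s - s₀) • l'‖ + ‖(s - s₀) • l'‖ := norm_add_le _ _
        _ ≤ 1 * ‖s - s₀‖ + |s - s₀| * ‖l'‖ := by
            refine add_le_add h2 (le_of_eq ?_)
            rw [norm_smul, Real.norm_eq_abs]
        _ = (‖l'‖ + 1) * |s - s₀| := by rw [Real.norm_eq_abs]; ring
    linarith
  refine ⟨?_, h3, ?_⟩
  · intro h
    rw [h] at hsgn
    have h0 : wedge v (0 : ℝ × ℝ) = 0 := by unfold wedge; simp
    rw [h0, zero_mul] at hsgn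
    have := mul_pos hm0 hs0
    linarith
  · refine le_trans ?_ hsgn
    calc m / (4 * (‖l'‖ + 1)) * √(sq (l s - l s₀))
        ≤ m / (4 * (‖l'‖ + 1)) * (2 * (‖l'‖ + 1) * |s - s₀|) :=
          mul_le_mul_of_nonneg_left hup (by positivity)
      _ = m * |s - s₀| / 2 := by field_simp; ring

/-- at an outward crossing the curve is inside before and outside afterwards -/
lemma cross_sides (hS : S_SIDE) {γ V : ℝ → ℝ × ℝ} {T : ℝ} (hL : Loop γ V T) (hV : ∀ t, V t ≠ 0)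
    (hinj : ∀ s t, γ s = γ t → ∃ k : ℤ, s = t + k * T) {ε : ℝ} (hε : ε = 1 ∨ ε = -1)
    (hz : ∃ z ∉ range γ, wn γ V T z = ε) {l : ℝ → ℝ × ℝ} {l' : ℝ × ℝ} {s₀ t₀ : ℝ}
    (hl : HasDerivAt l l' s₀) (he : l s₀ = γ t₀) (hw : ε * wedge (V t₀) l' < 0) :
    (∀ᶠ s in 𝓝[>] s₀, l s ∉ fill γ V T) ∧ (∀ᶠ s in 𝓝[<] s₀, l s ∈ ins γ V T) := by
  obtain ⟨kp, km, hj, ho, hval, hside⟩ := hS γ V T hL hV hinj
  have hw0 : wedge (V t₀) l' ≠ 0 := by
    intro h; rw [h, mul_zero] at hw; exact lt_irrefl _ hw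
  obtain ⟨κ, hκ, hloc⟩ := cross_local hl hw0
  obtain ⟨δ, hδ, hcone⟩ := hside t₀ κ hκ
  have hev := hloc δ hδ
  obtain ⟨z, hz1, hz2⟩ := hz
  have hv := hval z hz1
  rw [hz2] at hv
  have hcase : (ε = 1 ∧ kp = 1 ∧ km = 0) ∨ (ε = -1 ∧ kp = 0 ∧ km = -1) := by
    rcases ho with h0 | h0
    · have hkm : km = -1 := by linarith
      right
      refine ⟨?_, h0, hkm⟩
      rcases hε with h1 | h1
      · rcases hv with h2 | h2
        · rw [h1, h0] at h2; norm_num at h2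
        · rw [h1, hkm] at h2; norm_num at h2
      · exact h1
    · have hkp : kp = 1 := by linarith
      left
      refine ⟨?_, hkp, h0⟩
      rcases hε with h1 | h1
      · exact h1
      · rcases hv with h2 | h2
        · rw [h1, hkp] at h2; norm_num at h2
        · rw [h1, h0] at h2; norm_num at h2
  have hγ : ∀ s, γ t₀ + (l s - l s₀) = l s := fun s => by rw [he]; abel
  have hfill : ∀ s, l s ∉ range γ → wn γ V T (l s) = 0 → l s ∉ fill γ V T := by
    rintro s h1 h2 (h3 | h3)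
    · exact h1 h3
    · exact h3.2 h2
  constructor
  · filter_upwards [hev.filter_mono nhdsWithin_le_nhds, self_mem_nhdsWithin] with s hs hs'
    have hs1 : 0 < s - s₀ := sub_pos.2 hs'
    obtain ⟨h1, h2, h3⟩ := hs (ne_of_gt hs')
    have h4 := hcone _ h1 h2
    rw [hγ] at h4
    rcases hcase with ⟨c1, c2, c3⟩ | ⟨c1, c2, c3⟩
    · rw [c1, one_mul] at hw
      rw [sign_neg (mul_neg_of_pos_of_neg hs1 hw)] at h3
      simp only [SignType.neg_eq_neg_one, SignType.coe_neg, SignType.coe_one] at h3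
      have h5 := h4.2 (by linarith)
      exact hfill s h5.1 (by rw [h5.2, c3])
    · have hw' : 0 < wedge (V t₀) l' := by rw [c1] at hw; linarith
      rw [sign_pos (mul_pos hs1 hw')] at h3
      simp only [SignType.pos_eq_one, SignType.coe_one] at h3
      have h5 := h4.1 (by linarith)
      exact hfill s h5.1 (by rw [h5.2, c2])
  · filter_upwards [hev.filter_mono nhdsWithin_le_nhds, self_mem_nhdsWithin] with s hs hs'
    have hs1 : s - s₀ < 0 := sub_neg.2 hs'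
    obtain ⟨h1, h2, h3⟩ := hs (ne_of_lt hs')
    have h4 := hcone _ h1 h2
    rw [hγ] at h4
    rcases hcase with ⟨c1, c2, c3⟩ | ⟨c1, c2, c3⟩
    · rw [c1, one_mul] at hw
      rw [sign_pos (mul_pos_of_neg_of_neg hs1 hw)] at h3
      simp only [SignType.pos_eq_one, SignType.coe_one] at h3
      have h5 := h4.1 (by linarith)
      exact ⟨h5.1, by rw [h5.2, c2]; norm_num⟩
    · have hw' : 0 < wedge (V t₀) l' := by rw [c1] at hw; linarith
      rw [sign_neg (mul_neg_of_neg_of_pos hs1 hw')] at h3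
      simp only [SignType.neg_eq_neg_one, SignType.coe_neg, SignType.coe_one] at h3
      have h5 := h4.2 (by linarith)
      exact ⟨h5.1, by rw [h5.2, c3]; norm_num⟩

theorem cr (hS : S_SIDE) : S_CR := by
  intro γ V T hL hV hinj ε hε hz l l' α β hl hcr s s' hαs hss hsβ hs hfs
  have hfc : IsClosed (fill γ V T) := (allT0 γ V T hL).2.isClosed
  have hio : IsOpen (ins γ V T) := (allT0 γ V T hL).1
  have hsI : s ∈ Icc α β := ⟨hαs, hss.le.trans hsβ⟩
  -- outside just after `s`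
  have hafter : ∀ᶠ x in 𝓝[>] s, l x ∉ fill γ V T := by
    by_cases h1 : l s ∈ fill γ V T
    · rcases h1 with ⟨t, ht⟩ | h1
      · exact (cross_sides hS hL hV hinj hε hz (hl s hsI) ht.symm (hcr s hsI t ht.symm)).1
      · exact absurd h1 hs
    · have h2 : ∀ᶠ x in 𝓝 s, l x ∈ (fill γ V T)ᶜ :=
        (hl s hsI).continuousAt.eventually (hfc.isOpen_compl.mem_nhds h1)
      exact h2.filter_mono nhdsWithin_le_nhds
  obtain ⟨s₁, hs₁, hout⟩ : ∃ s₁, s < s₁ ∧ ∀ x, s < x → x ≤ s₁ → l x ∉ fill γ V T := by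
    obtain ⟨u, hu, hu'⟩ := (mem_nhdsGT_iff_exists_Ioo_subset.1 hafter)
    have hu0 : s < u := hu
    refine ⟨(s + u) / 2, by linarith, fun x h1 h2 => hu' ⟨h1, by linarith⟩⟩
  have hs₁' : s₁ < s' := by
    by_contra h
    exact hout s' hss (not_lt.1 h) hfs
  set E : Set ℝ := {x | x ∈ Icc s₁ s' ∧ l x ∈ fill γ V T} with hE
  have hcont : ContinuousOn l (Icc s₁ s') := fun x hx =>
    (hl x ⟨by linarith [hx.1], hx.2.trans hsβ⟩).continuousAt.continuousWithinAt
  have hEc : IsClosed E := by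
    have h1 : E = Icc s₁ s' ∩ l ⁻¹' (fill γ V T) := rfl
    rw [h1]
    exact hcont.preimage_isClosed_of_isClosed isClosed_Icc hfc
  have hEne : E.Nonempty := ⟨s', ⟨hs₁'.le, le_rfl⟩, hfs⟩
  have hEb : BddBelow E := ⟨s₁, fun x hx => hx.1.1⟩
  have hx₀ := hEc.csInf_mem hEne hEb
  set x₀ := sInf E with hx₀d
  have hlt : s₁ < x₀ := by
    rcases eq_or_lt_of_le hx₀.1.1 with h | h
    · exfalso
      rw [← h] at hx₀
      exact hout s₁ hs₁ le_rfl hx₀.2
    · exact h
  have hbefore : ∀ x ∈ Ioo s₁ x₀, l x ∉ fill γ V T := by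
    intro x hx h
    have h1 : x ∈ E := ⟨⟨hx.1.le, hx.2.le.trans hx₀.1.2⟩, h⟩
    exact absurd (csInf_le hEb h1) (not_le.2 hx.2)
  have hxI : x₀ ∈ Icc α β := ⟨by linarith, hx₀.1.2.trans hsβ⟩
  have hins : ∀ᶠ x in 𝓝[<] x₀, l x ∈ ins γ V T := by
    rcases hx₀.2 with ⟨t, ht⟩ | h1
    · exact (cross_sides hS hL hV hinj hε hz (hl x₀ hxI) ht.symm (hcr x₀ hxI t ht.symm)).2
    · have h2 : ∀ᶠ x in 𝓝 x₀, l x ∈ ins γ V T :=
        (hl x₀ hxI).continuousAt.eventually (hio.mem_nhds h1)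
      exact h2.filter_mono nhdsWithin_le_nhds
  have hIoo : ∀ᶠ x in 𝓝[<] x₀, x ∈ Ioo s₁ x₀ := Ioo_mem_nhdsLT hlt
  obtain ⟨x, hx1, hx2⟩ := (hins.and hIoo).exists
  exact hbefore x hx2 (Or.inr hx1)

end Pool.Agent.K9h44.HS
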