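import Pool.Agent.K9h44.HS.TH

/-! Project HS (helper44): a closed orbit which is star-shaped at the level points is star-shaped. -/

open Real Set MeasureTheory Topology Filter

namespace Pool.Agent.K9h44.HS

open Pool.Agent.H709R2 (wedge rot field)
open Pool.Agent.H709U (rf Orb V W dot)

/-- two vectors on the same side of all lines of a `δ`-dense family make a small angle -/
lemma same_side {u v : ℝ × ℝ} (hu : u ≠ 0) (hv : v ≠ 0) {δ : ℝ} (hδ : 0 < δ) (hδ1 : δ ≤ 1 / 2)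
    {M : ℕ} {φ : Fin M → ℝ} (hφ : ∀ θ : ℝ, ∃ i, ∃ k : ℤ, θ < φ i + k * π ∧ φ i + k * π < θ + δ)
    (h : ∀ i, 0 < wedge u (cos (φ i), sin (φ i)) * wedge v (cos (φ i), sin (φ i))) :
    |wedge u v| ≤ 2 * δ * dot u v := by
  have hπ := Real.pi_gt_three
  -- polar coordinates
  obtain ⟨ρ, θ, hρ, hu1, hu2⟩ : ∃ ρ θ : ℝ, 0 < ρ ∧ u.1 = ρ * cos θ ∧ u.2 = ρ * sin θ := by
    set z : ℂ := ⟨u.1, u.2⟩ with hz
    have hz0 : z ≠ 0 := by
      intro h0
      rw [Complex.ext_iff] at h0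
      exact hu (Prod.ext h0.1 h0.2)
    refine ⟨‖z‖, Complex.arg z, norm_pos_iff.2 hz0, ?_, ?_⟩
    · rw [Complex.norm_mul_cos_arg]
    · rw [Complex.norm_mul_sin_arg]
  obtain ⟨r, β, hr, hβ1, hβ2, hv1, hv2⟩ : ∃ r β : ℝ, 0 < r ∧ -π < β ∧ β ≤ π ∧
      v.1 = r * cos (θ + β) ∧ v.2 = r * sin (θ + β) := by
    set z : ℂ := ⟨v.1 * cos θ + v.2 * sin θ, v.2 * cos θ - v.1 * sin θ⟩ with hz
    have hcs := Real.sin_sq_add_cos_sq θ
    have hz0 : z ≠ 0 := by
      intro h0
      rw [Complex.ext_iff] at h0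
      simp only [hz, Complex.zero_re, Complex.zero_im] at h0
      refine hv (Prod.ext ?_ ?_)
      · simp only [Prod.fst_zero]
        linear_combination cos θ * h0.1 - sin θ * h0.2 - v.1 * hcs
      · simp only [Prod.snd_zero]
        linear_combination sin θ * h0.1 + cos θ * h0.2 - v.2 * hcs
    have e1 : ‖z‖ * cos (Complex.arg z) = v.1 * cos θ + v.2 * sin θ := Complex.norm_mul_cos_arg z
    have e2 : ‖z‖ * sin (Complex.arg z) = v.2 * cos θ - v.1 * sin θ := Complex.norm_mul_sin_arg z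
    refine ⟨‖z‖, Complex.arg z, norm_pos_iff.2 hz0, Complex.neg_pi_lt_arg z, Complex.arg_le_pi z,
      ?_, ?_⟩
    · rw [Real.cos_add]
      linear_combination -cos θ * e1 + sin θ * e2 - v.1 * hcs
    · rw [Real.sin_add]
      linear_combination -sin θ * e1 - cos θ * e2 - v.2 * hcs
  have hwd : ∀ i, wedge u (cos (φ i), sin (φ i)) * wedge v (cos (φ i), sin (φ i)) =
      ρ * r * (sin (φ i - θ) * sin (φ i - θ - β)) := by
    intro i
    unfold wedge
    simp only
    rw [hu1, hu2, hv1, hv2, Real.sin_sub (φ i) θ, show φ i - θ - β = φ i - (θ + β) by ring,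
      Real.sin_sub (φ i) (θ + β)]
    ring
  have hpos : ∀ i, 0 < sin (φ i - θ) * sin (φ i - θ - β) := by
    intro i
    have h1 := h i
    rw [hwd i] at h1
    exact (mul_pos_iff_of_pos_left (by positivity)).1 h1
  have hshift : ∀ i (k : ℤ), sin (φ i + k * π - θ) * sin (φ i + k * π - θ - β) =
      sin (φ i - θ) * sin (φ i - θ - β) := by
    intro i k
    have e1 : φ i + k * π - θ = (φ i - θ) + k * π := by ring
    have e2 : φ i + k * π - θ - β = (φ i - θ - β) + k * π := by ring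
    rw [e2, e1, Real.sin_add_int_mul_pi, Real.sin_add_int_mul_pi]
    have e3 : ((-1:ℝ) ^ k) * (-1) ^ k = 1 := by
      rw [← mul_zpow]
      simp
    calc (-1:ℝ) ^ k * sin (φ i - θ) * ((-1) ^ k * sin (φ i - θ - β))
        = ((-1:ℝ) ^ k * (-1) ^ k) * (sin (φ i - θ) * sin (φ i - θ - β)) := by ring
      _ = _ := by rw [e3, one_mul]
  have hβ : |β| < δ := by
    by_contra hcon
    push Not at hcon
    rcases le_abs.1 hcon with h1 | h1
    · -- `β ≥ δ`: a line between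
      obtain ⟨i, k, hk1, hk2⟩ := hφ θ
      have h2 := hpos i
      rw [← hshift i k] at h2
      have h3 : 0 < sin (φ i + k * π - θ) := Real.sin_pos_of_pos_of_lt_pi (by linarith)
        (by linarith)
      have h4 : sin (φ i + k * π - θ - β) < 0 := Real.sin_neg_of_neg_of_neg_pi_lt (by linarith)
        (by linarith)
      nlinarith
    · obtain ⟨i, k, hk1, hk2⟩ := hφ (θ - δ)
      have h2 := hpos i
      rw [← hshift i k] at h2
      have h3 : sin (φ i + k * π - θ) < 0 := Real.sin_neg_of_neg_of_neg_pi_lt (by linarith)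
        (by linarith)
      have h4 : 0 < sin (φ i + k * π - θ - β) := Real.sin_pos_of_pos_of_lt_pi (by linarith)
        (by linarith)
      nlinarith
  have hw : wedge u v = ρ * r * sin β := by
    unfold wedge
    rw [hu1, hu2, hv1, hv2, Real.sin_add, Real.cos_add]
    linear_combination (ρ * r * sin β) * Real.sin_sq_add_cos_sq θ
  have hd : dot u v = ρ * r * cos β := by
    unfold dot
    rw [hu1, hu2, hv1, hv2, Real.sin_add, Real.cos_add]
    linear_combination (ρ * r * cos β) * Real.sin_sq_add_cos_sq θ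
  rw [hw, hd, abs_mul, abs_of_pos (by positivity : 0 < ρ * r)]
  have h1 : |sin β| ≤ |β| := Real.abs_sin_le_abs
  have h2 := Real.one_sub_sq_div_two_le_cos (x := β)
  have h3 : β ^ 2 ≤ δ ^ 2 := by rw [← sq_abs β]; nlinarith [abs_nonneg β]
  have h4 : 1 / 2 ≤ cos β := by nlinarith
  have h5 : |sin β| ≤ 2 * δ * cos β := by nlinarith [abs_nonneg β]
  calc ρ * r * |sin β| ≤ ρ * r * (2 * δ * cos β) :=
        mul_le_mul_of_nonneg_left h5 (by positivity)
    _ = _ := by ring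

/-- the velocities stay in a cone until the first level time -/
lemma cone_free {y : ℝ → ℝ × ℝ} {t₀ t₁ : ℝ} (h01 : t₀ ≤ t₁) (hy : ContinuousOn y (Icc t₀ t₁))
    (hne : ∀ t ∈ Icc t₀ t₁, y t ≠ 0) {δ : ℝ} (hδ : 0 < δ) (hδ1 : δ ≤ 1 / 2)
    {M : ℕ} {φ : Fin M → ℝ} (hφ : ∀ θ : ℝ, ∃ i, ∃ k : ℤ, θ < φ i + k * π ∧ φ i + k * π < θ + δ)
    (hfree : ∀ t ∈ Ico t₀ t₁, ∀ i, wedge (y t) (cos (φ i), sin (φ i)) ≠ 0) :
    ∀ t ∈ Icc t₀ t₁, |wedge (y t₀) (y t)| ≤ 2 * δ * dot (y t₀) (y t) := by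
  have hm0 : t₀ ∈ Icc t₀ t₁ := ⟨le_rfl, h01⟩
  rcases h01.eq_or_lt with h | hlt
  · intro t ht
    have h1 : t = t₀ := le_antisymm (by linarith [ht.2]) ht.1
    rw [h1]
    have h2 : wedge (y t₀) (y t₀) = 0 := by unfold wedge; ring
    have h3 : 0 ≤ dot (y t₀) (y t₀) := by
      unfold dot
      exact add_nonneg (mul_self_nonneg _) (mul_self_nonneg _)
    rw [h2, abs_zero]
    positivity
  have hIco : ∀ t ∈ Ico t₀ t₁, |wedge (y t₀) (y t)| ≤ 2 * δ * dot (y t₀) (y t) := by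
    intro t ht
    refine same_side (hne _ hm0) (hne t ⟨ht.1, ht.2.le⟩) hδ hδ1 hφ fun i => ?_
    have hc : ContinuousOn (fun t => wedge (y t) (cos (φ i), sin (φ i))) (Icc t₀ t) := by
      have h1 : Continuous fun w : ℝ × ℝ => wedge w (cos (φ i), sin (φ i)) := by
        unfold wedge; fun_prop
      exact h1.comp_continuousOn (hy.mono (Icc_subset_Icc_right ht.2.le))
    rcases sign_const hc (fun s hs => hfree s ⟨hs.1, hs.2.trans_lt ht.2⟩ i) with h1 | h1
    · exact mul_pos (h1 t₀ ⟨le_rfl, ht.1⟩) (h1 t ⟨ht.1, le_rfl⟩)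
    · exact mul_pos_of_neg_of_neg (h1 t₀ ⟨le_rfl, ht.1⟩) (h1 t ⟨ht.1, le_rfl⟩)
  -- pass to the closure
  intro t ht
  rcases ht.2.lt_or_eq with h | h
  · exact hIco t ⟨ht.1, h⟩
  · rw [h]
    have hc1 : ContinuousWithinAt y (Ico t₀ t₁) t₁ :=
      (hy t₁ ⟨h01, le_rfl⟩).mono Ico_subset_Icc_self
    have hc2 : Continuous fun w : ℝ × ℝ => 2 * δ * dot (y t₀) w - |wedge (y t₀) w| := by
      unfold dot wedge; fun_prop
    have hc3 : ContinuousWithinAt (fun t => 2 * δ * dot (y t₀) (y t) - |wedge (y t₀) (y t)|)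
        (Ico t₀ t₁) t₁ := hc2.continuousAt.comp_continuousWithinAt hc1
    have h3 : (𝓝[Ico t₀ t₁] t₁).NeBot := by
      rw [← mem_closure_iff_nhdsWithin_neBot, closure_Ico hlt.ne]
      exact ⟨h01, le_rfl⟩
    have h4 : 0 ≤ 2 * δ * dot (y t₀) (y t₁) - |wedge (y t₀) (y t₁)| := by
      refine ge_of_tendsto hc3 ?_
      filter_upwards [self_mem_nhdsWithin] with x hx
      linarith [hIco x hx]
    linarith

lemma lagr (a b : ℝ × ℝ) : dot a b ^ 2 + wedge a b ^ 2 = H709R2.sq a * H709R2.sq b := by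
  unfold dot wedge H709R2.sq
  ring

lemma dot_le (a b : ℝ × ℝ) : |dot a b| ≤ √(H709R2.sq a) * √(H709R2.sq b) := by
  rw [← Real.sqrt_sq_eq_abs, ← Real.sqrt_mul (sq_nn a)]
  apply Real.sqrt_le_sqrt
  nlinarith [lagr a b, sq_nonneg (wedge a b)]

/-- the estimate at a time from the estimate at the next level time -/
lemma half {g y : ℝ → ℝ × ℝ} {t₀ t₁ s ε : ℝ} {p : ℝ × ℝ} (h01 : t₀ ≤ t₁)
    (hd : ∀ t ∈ Icc t₀ t₁, HasDerivAt g (y t) t) (hs : 0 < s) (hε : ε = 1 ∨ ε = -1)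
    (hcone : ∀ t ∈ Icc t₀ t₁, |wedge (y t₀) (y t)| ≤ s / 4 * dot (y t₀) (y t))
    (hy0 : y t₀ ≠ 0) (hy1 : y t₁ ≠ 0) (hp : g t₁ ≠ p)
    (hlev : s * (√(H709R2.sq (g t₁ - p)) * √(H709R2.sq (y t₁))) ≤ ε * wedge (g t₁ - p) (y t₁))
    (hD : 0 ≤ dot (g t₀ - p) (y t₀)) :
    s / 2 * dot (g t₀ - p) (y t₀) ≤ ε * wedge (g t₀ - p) (y t₀) ∧
      0 < ε * wedge (g t₀ - p) (y t₀) := by
  have hm0 : t₀ ∈ Icc t₀ t₁ := ⟨le_rfl, h01⟩
  have hm1 : t₁ ∈ Icc t₀ t₁ := ⟨h01, le_rfl⟩
  -- monotone functions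
  have hmono : ∀ e : ℝ, (e = 1 ∨ e = -1) →
      0 ≤ s / 4 * dot (y t₀) (g t₁ - g t₀) + e * wedge (y t₀) (g t₁ - g t₀) := by
    intro e he
    have hder : ∀ t ∈ Icc t₀ t₁, HasDerivAt
        (fun t => s / 4 * dot (y t₀) (g t - g t₀) + e * wedge (y t₀) (g t - g t₀))
        (s / 4 * dot (y t₀) (y t) + e * wedge (y t₀) (y t)) t := by
      intro t ht
      have h2 := (ContinuousLinearMap.fst ℝ ℝ ℝ).hasFDerivAt.comp_hasDerivAt t (hd t ht)
      have h3 := (ContinuousLinearMap.snd ℝ ℝ ℝ).hasFDerivAt.comp_hasDerivAt t (hd t ht)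
      have h4 := h2.sub_const (g t₀).1
      have h5 := h3.sub_const (g t₀).2
      have h6 := (((h4.const_mul (y t₀).1).add (h5.const_mul (y t₀).2)).const_mul (s / 4)).add
        (((h5.const_mul (y t₀).1).sub (h4.const_mul (y t₀).2)).const_mul e)
      exact h6
    have hm : MonotoneOn
        (fun t => s / 4 * dot (y t₀) (g t - g t₀) + e * wedge (y t₀) (g t - g t₀))
        (Icc t₀ t₁) := by
      refine monotoneOn_of_deriv_nonneg (convex_Icc _ _)
        (fun t ht => (hder t ht).continuousAt.continuousWithinAt) ?_ ?_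
      · intro t ht
        rw [interior_Icc] at ht
        exact (hder t (Ioo_subset_Icc_self ht)).differentiableAt.differentiableWithinAt
      · intro t ht
        rw [interior_Icc] at ht
        have ht' := Ioo_subset_Icc_self ht
        rw [(hder t ht').deriv]
        have h1 := hcone t ht'
        have h2 := abs_le.1 h1
        rcases he with h | h <;> rw [h] <;> linarith [h2.1, h2.2]
    have h1 := hm hm0 hm1 h01
    have h2 : s / 4 * dot (y t₀) (g t₀ - g t₀) + e * wedge (y t₀) (g t₀ - g t₀) = 0 := by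
      rw [sub_self]; unfold dot wedge; simp
    simp only at h1
    rw [h2] at h1
    exact h1
  have hA1 := hmono 1 (Or.inl rfl)
  have hA2 := hmono (-1) (Or.inr rfl)
  obtain ⟨A, hA⟩ : ∃ A : ℝ, A = dot (y t₀) (g t₁ - g t₀) := ⟨_, rfl⟩
  obtain ⟨B, hB⟩ : ∃ B : ℝ, B = wedge (y t₀) (g t₁ - g t₀) := ⟨_, rfl⟩
  rw [← hA, ← hB] at hA1 hA2
  have hA0 : 0 ≤ A := by
    have : 0 ≤ s / 4 * A := by linarith
    exact nonneg_of_mul_nonneg_right this (by positivity)
  -- the level point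
  have hn0 : 0 < H709R2.sq (y t₀) := sq_pos_of_ne hy0
  have hn1 : 0 < H709R2.sq (y t₁) := sq_pos_of_ne hy1
  have hq1 : 0 < H709R2.sq (g t₁ - p) := sq_pos_of_ne (sub_ne_zero.2 hp)
  obtain ⟨a, ha⟩ : ∃ a : ℝ, a = √(H709R2.sq (y t₀)) := ⟨_, rfl⟩
  obtain ⟨b, hb⟩ : ∃ b : ℝ, b = √(H709R2.sq (y t₁)) := ⟨_, rfl⟩
  obtain ⟨q, hq⟩ : ∃ q : ℝ, q = √(H709R2.sq (g t₁ - p)) := ⟨_, rfl⟩
  have ha0 : 0 < a := by rw [ha]; exact Real.sqrt_pos.2 hn0
  have hb0 : 0 < b := by rw [hb]; exact Real.sqrt_pos.2 hn1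
  have hq0 : 0 < q := by rw [hq]; exact Real.sqrt_pos.2 hq1
  have haa : a ^ 2 = H709R2.sq (y t₀) := by rw [ha]; exact Real.sq_sqrt hn0.le
  obtain ⟨d, hdd⟩ : ∃ d : ℝ, d = dot (y t₀) (y t₁) := ⟨_, rfl⟩
  obtain ⟨w, hw⟩ : ∃ w : ℝ, w = wedge (y t₀) (y t₁) := ⟨_, rfl⟩
  have hc1 := hcone t₁ hm1
  rw [← hdd, ← hw] at hc1
  have hlag := lagr (y t₀) (y t₁)
  rw [← hdd, ← hw] at hlag
  have hd0 : 0 < d := by
    have h1 : 0 ≤ d := by
      have := (abs_nonneg w).trans hc1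
      exact nonneg_of_mul_nonneg_right this (by positivity)
    rcases h1.lt_or_eq with h2 | h2
    · exact h2
    · exfalso
      rw [← h2, mul_zero] at hc1
      have h3 : w = 0 := abs_nonpos_iff.1 hc1
      rw [← h2, h3] at hlag
      have := mul_pos hn0 hn1
      rw [← hlag] at this
      norm_num at this
  have hdab : d ≤ a * b := by
    have := (le_abs_self _).trans (dot_le (y t₀) (y t₁))
    rw [hdd, ha, hb]
    exact this
  -- the decomposition
  have hdec : wedge (g t₁ - p) (y t₁) * H709R2.sq (y t₀) =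
      d * wedge (g t₁ - p) (y t₀) + w * dot (g t₁ - p) (y t₀) := by
    rw [hdd, hw]
    unfold wedge dot H709R2.sq
    ring
  have hqd : |dot (g t₁ - p) (y t₀)| ≤ q * a := by
    rw [hq, ha]; exact dot_le _ _
  rw [← hq, ← hb] at hlev
  have hεa : |ε| = 1 := by rcases hε with h | h <;> rw [h] <;> norm_num
  have hkey : (s - s / 4) * (q * a) ≤ ε * wedge (g t₁ - p) (y t₀) := by
    have h1 : s * (q * b) * a ^ 2 ≤ ε * wedge (g t₁ - p) (y t₁) * a ^ 2 :=
      mul_le_mul_of_nonneg_right hlev (by positivity)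
    have h2 : ε * wedge (g t₁ - p) (y t₁) * a ^ 2 =
        d * (ε * wedge (g t₁ - p) (y t₀)) + ε * (w * dot (g t₁ - p) (y t₀)) := by
      rw [haa, mul_assoc, hdec]
      ring
    have h3 : ε * (w * dot (g t₁ - p) (y t₀)) ≤ s / 4 * d * (q * a) := by
      refine (le_abs_self _).trans ?_
      rw [abs_mul, hεa, one_mul, abs_mul]
      exact mul_le_mul hc1 hqd (abs_nonneg _) (by positivity)
    have h4 : s * (q * a) * d ≤ s * (q * b) * a ^ 2 := by
      have h5 : s * (q * a) * d ≤ s * (q * a) * (a * b) :=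
        mul_le_mul_of_nonneg_left hdab (by positivity)
      calc s * (q * a) * d ≤ s * (q * a) * (a * b) := h5
        _ = s * (q * b) * a ^ 2 := by ring
    have h5 : d * ((s - s / 4) * (q * a)) ≤ d * (ε * wedge (g t₁ - p) (y t₀)) := by
      nlinarith
    exact le_of_mul_le_mul_left h5 hd0
  -- back to `t₀`
  have e1 : dot (g t₁ - p) (y t₀) = dot (g t₀ - p) (y t₀) + A := by
    rw [hA]
    unfold dot
    simp only [Prod.fst_sub, Prod.snd_sub]
    ring
  have e2 : wedge (g t₁ - p) (y t₀) = wedge (g t₀ - p) (y t₀) - B := by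
    rw [hB]
    unfold wedge
    simp only [Prod.fst_sub, Prod.snd_sub]
    ring
  have h1 : dot (g t₀ - p) (y t₀) + A ≤ q * a := by
    rw [← e1]
    exact (le_abs_self _).trans hqd
  rw [e2] at hkey
  have h2 : ε * B ≤ s / 4 * A ∧ -(ε * B) ≤ s / 4 * A := by
    rcases hε with h | h <;> rw [h] <;> constructor <;> linarith
  have h3 : (s - s / 4) * (q * a) - s / 4 * A ≤ ε * wedge (g t₀ - p) (y t₀) := by
    have : ε * (wedge (g t₀ - p) (y t₀) - B) = ε * wedge (g t₀ - p) (y t₀) - ε * B := by ring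
    rw [this] at hkey
    linarith [h2.2]
  have hqa : 0 < q * a := by positivity
  constructor
  · nlinarith
  · nlinarith

lemma wedge_rf_level (P Q : MvPolynomial (Fin 2) ℝ) (α c : ℝ) (z : ℝ × ℝ) :
    wedge (rf (field P Q) α z) (cos (α - c), sin (α - c)) = -ev (Lv P Q c) z := by
  have h3 : field P Q z = (ev P z, ev Q z) := rfl
  have h4 : ev (Lv P Q c) z = sin c * ev P z + cos c * ev Q z := by
    unfold Lv ev
    simp
  rw [h4]
  unfold rf rot wedge
  rw [h3, Real.cos_sub, Real.sin_sub]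
  simp only
  linear_combination (-(sin c * ev P z + cos c * ev Q z)) * Real.sin_sq_add_cos_sq α

theorem cvx : S_CVX := by
  intro P Q p α ε s δ M c γ T hε hs hs1 hδ hδs hc hO hp hlev t₀
  have hF : ContDiff ℝ 2 (field P Q) := H709R2.contDiff_field P Q
  have hY : Continuous (rf (field P Q) α) := (W960.HP.rf_smooth hF α).continuous
  have hγc : Continuous γ := continuous_iff_continuousAt.2 fun t => (hO.ode t).continuousAt
  obtain ⟨y, hy⟩ : ∃ y : ℝ → ℝ × ℝ, y = fun t => rf (field P Q) α (γ t) := ⟨_, rfl⟩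
  have hyc : Continuous y := by rw [hy]; exact hY.comp hγc
  have hyne : ∀ t, y t ≠ 0 := by rw [hy]; exact hO.ne
  have hyd : ∀ t, HasDerivAt γ (y t) t := by rw [hy]; exact hO.ode
  have hyt : ∀ t, rf (field P Q) α (γ t) = y t := fun t => by rw [hy]
  have hysq : ∀ t, H709R2.sq (field P Q (γ t)) = H709R2.sq (y t) := by
    intro t
    rw [← hyt]
    exact (H709R2.sq_rot _ _).symm
  obtain ⟨φ, hφd⟩ : ∃ φ : Fin M → ℝ, φ = fun i => α - c i := ⟨_, rfl⟩
  have hφ : ∀ θ : ℝ, ∃ i, ∃ k : ℤ, θ < φ i + k * π ∧ φ i + k * π < θ + δ := by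
    intro θ
    obtain ⟨i, k, h1, h2⟩ := hc (α - θ - δ)
    refine ⟨i, -k, ?_, ?_⟩
    · rw [hφd]; push_cast; linarith
    · rw [hφd]; push_cast; linarith
  have hwl : ∀ t i, wedge (y t) (cos (φ i), sin (φ i)) = -ev (Lv P Q (c i)) (γ t) := by
    intro t i
    rw [← hyt, hφd]
    exact wedge_rf_level P Q α (c i) (γ t)
  -- the set of level times
  obtain ⟨E, hE⟩ : ∃ E : Set ℝ, E = ⋃ i, {t | ev (Lv P Q (c i)) (γ t) = 0} := ⟨_, rfl⟩
  have hEc : IsClosed E := by
    rw [hE]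
    exact isClosed_iUnion_of_finite fun i =>
      isClosed_eq ((ev_cont (Lv P Q (c i))).comp hγc) continuous_const
  obtain ⟨i₀, -⟩ := hc 0
  have hrolle : ∀ x : ℝ, ∃ t ∈ Ioo x (x + T), t ∈ E := by
    intro x
    have hder : ∀ t, HasDerivAt (fun t => wedge (γ t) (cos (φ i₀), sin (φ i₀)))
        (wedge (y t) (cos (φ i₀), sin (φ i₀))) t := by
      intro t
      have h2 := (ContinuousLinearMap.fst ℝ ℝ ℝ).hasFDerivAt.comp_hasDerivAt t (hyd t)
      have h3 := (ContinuousLinearMap.snd ℝ ℝ ℝ).hasFDerivAt.comp_hasDerivAt t (hyd t)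
      exact (h2.mul_const _).sub (h3.mul_const _)
    obtain ⟨t, ht, ht0⟩ := exists_hasDerivAt_eq_zero (f := fun t => wedge (γ t)
      (cos (φ i₀), sin (φ i₀))) (f' := fun t => wedge (y t) (cos (φ i₀), sin (φ i₀)))
      (a := x) (b := x + T) (by linarith [hO.pos])
      (fun t _ => (hder t).continuousAt.continuousWithinAt) (by rw [hO.per x])
      (fun t _ => hder t)
    refine ⟨t, ht, ?_⟩
    rw [hE, mem_iUnion]
    refine ⟨i₀, ?_⟩
    rw [hwl] at ht0
    exact neg_eq_zero.1 ht0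
  have hlevE : ∀ t ∈ E, s * (√(H709R2.sq (γ t - p)) * √(H709R2.sq (y t))) ≤
      ε * wedge (γ t - p) (y t) := by
    intro t ht
    rw [hE, mem_iUnion] at ht
    obtain ⟨i, hi⟩ := ht
    have h1 := hlev t i hi
    rw [hysq] at h1
    unfold V at h1
    rw [← hyt]
    have h2 : rot α (field P Q (γ t)) = rf (field P Q) α (γ t) := rfl
    rw [h2] at h1
    rw [← hyt] at h1
    exact h1
  have hfree : ∀ t, t ∉ E → ∀ i, wedge (y t) (cos (φ i), sin (φ i)) ≠ 0 := by
    intro t ht i h0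
    rw [hwl] at h0
    exact ht (by rw [hE, mem_iUnion]; exact ⟨i, neg_eq_zero.1 h0⟩)
  have hδ1 : δ ≤ 1 / 2 := by linarith
  -- the next level time
  obtain ⟨t₁, h01, ht₁, hE₁⟩ : ∃ t₁, t₀ ≤ t₁ ∧ t₁ ∈ E ∧ ∀ t ∈ Ico t₀ t₁, t ∉ E := by
    have hne : (E ∩ Ici t₀).Nonempty := by
      obtain ⟨t, ht, htE⟩ := hrolle t₀
      exact ⟨t, htE, ht.1.le⟩
    have hb : BddBelow (E ∩ Ici t₀) := ⟨t₀, fun x hx => hx.2⟩
    have hm := (hEc.inter isClosed_Ici).csInf_mem hne hb
    refine ⟨_, hm.2, hm.1, fun t ht htE => ?_⟩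
    exact absurd (csInf_le hb ⟨htE, ht.1⟩) (not_le.2 ht.2)
  obtain ⟨t₂, h20, ht₂, hE₂⟩ : ∃ t₂, t₂ ≤ t₀ ∧ t₂ ∈ E ∧ ∀ t ∈ Ioc t₂ t₀, t ∉ E := by
    have hne : (E ∩ Iic t₀).Nonempty := by
      obtain ⟨t, ht, htE⟩ := hrolle (t₀ - T)
      exact ⟨t, htE, by have := ht.2.le; simpa using this⟩
    have hb : BddAbove (E ∩ Iic t₀) := ⟨t₀, fun x hx => hx.2⟩
    have hm := (hEc.inter isClosed_Iic).csSup_mem hne hb
    refine ⟨_, hm.2, hm.1, fun t ht htE => ?_⟩
    exact absurd (le_csSup hb ⟨htE, ht.2⟩) (not_le.2 ht.1)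
  have hmain : (0 ≤ dot (γ t₀ - p) (y t₀) → s / 2 * dot (γ t₀ - p) (y t₀) ≤
      ε * wedge (γ t₀ - p) (y t₀) ∧ 0 < ε * wedge (γ t₀ - p) (y t₀)) ∧
      (dot (γ t₀ - p) (y t₀) ≤ 0 → s / 2 * -dot (γ t₀ - p) (y t₀) ≤
      ε * wedge (γ t₀ - p) (y t₀) ∧ 0 < ε * wedge (γ t₀ - p) (y t₀)) := by
    constructor
    · intro hD
      have hcone := cone_free h01 hyc.continuousOn (fun t _ => hyne t) hδ hδ1 hφ
        (fun t ht i => hfree t (hE₁ t ht) i)
      refine half h01 (fun t _ => hyd t) hs hε (fun t ht => ?_) (hyne _) (hyne _) (hp _)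
        (hlevE _ ht₁) hD
      have h1 := hcone t ht
      have h2 : 0 ≤ dot (y t₀) (y t) := by
        have := (abs_nonneg _).trans h1
        exact nonneg_of_mul_nonneg_right this (by positivity)
      exact h1.trans (mul_le_mul_of_nonneg_right (by linarith) h2)
    · intro hD
      -- the reversed orbit
      have hnw : ∀ a b : ℝ × ℝ, wedge a (-b) = -wedge a b := by
        intro a b; unfold wedge; simp only [Prod.fst_neg, Prod.snd_neg]; ring
      have hnw' : ∀ a b : ℝ × ℝ, wedge (-a) b = -wedge a b := by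
        intro a b; unfold wedge; simp only [Prod.fst_neg, Prod.snd_neg]; ring
      have hnd : ∀ a b : ℝ × ℝ, dot a (-b) = -dot a b := by
        intro a b; unfold dot; simp only [Prod.fst_neg, Prod.snd_neg]; ring
      have hns : ∀ a : ℝ × ℝ, H709R2.sq (-a) = H709R2.sq a := by
        intro a; unfold H709R2.sq; simp only [Prod.fst_neg, Prod.snd_neg]; ring
      have hyd' : ∀ t, HasDerivAt (fun t => γ (-t)) (-y (-t)) t := by
        intro t
        have h3 := (hyd (-t)).scomp t (hasDerivAt_neg t)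
        rw [neg_one_smul] at h3
        exact h3
      have hyc' : Continuous fun t => -y (-t) := by fun_prop
      have hcone := cone_free (y := fun t => -y (-t)) (t₀ := -t₀) (t₁ := -t₂) (by linarith)
        hyc'.continuousOn (fun t _ => neg_ne_zero.2 (hyne (-t))) hδ hδ1 hφ
        (fun t ht i => by
          rw [hnw']
          exact neg_ne_zero.2 (hfree (-t) (hE₂ (-t) ⟨by linarith [ht.2], by linarith [ht.1]⟩) i))
      have h1 := half (g := fun t => γ (-t)) (y := fun t => -y (-t)) (t₀ := -t₀) (t₁ := -t₂)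
        (s := s) (ε := -ε) (p := p) (by linarith) (fun t _ => hyd' t) hs
        (by rcases hε with h | h <;> rw [h] <;> norm_num) (fun t ht => ?_)
        (neg_ne_zero.2 (hyne _)) (neg_ne_zero.2 (hyne _)) (hp _) ?_ ?_
      · simp only [neg_neg, hnw, hnd] at h1
        constructor
        · have := h1.1; linarith
        · have := h1.2; linarith
      · have h1 := hcone t ht
        have h2 : 0 ≤ dot (-y (- -t₀)) (-y (-t)) := by
          have := (abs_nonneg _).trans h1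
          exact nonneg_of_mul_nonneg_right this (by positivity)
        exact h1.trans (mul_le_mul_of_nonneg_right (by linarith) h2)
      · simp only [neg_neg, hnw, hns]
        have := hlevE _ ht₂
        linarith
      · simp only [neg_neg, hnd]
        linarith
  have hV : V (field P Q) p α (γ t₀) = wedge (γ t₀ - p) (y t₀) := by rw [hy]; rfl
  have hW : W (field P Q) p α (γ t₀) = dot (γ t₀ - p) (y t₀) := by rw [hy]; rfl
  rw [hV, hW]
  rcases le_total 0 (dot (γ t₀ - p) (y t₀)) with h | h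
  · rw [abs_of_nonneg h]
    exact hmain.1 h
  · rw [abs_of_nonpos h]
    exact hmain.2 h

end Pool.Agent.K9h44.HS
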