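import Pool.Agent.H709U.B3

/-! Leaf GL (helper72): generic levels and angles, algebra. -/

set_option autoImplicit false

open MvPolynomial Set

namespace Pool.Agent.K9h44.HS.GLA

noncomputable section

abbrev R := MvPolynomial (Fin 2) ℝ

theorem totalDegree_pderiv_lt (P : R) (i : Fin 2) (h : pderiv i P ≠ 0) :
    (pderiv i P).totalDegree < P.totalDegree := by
  have key : ∀ m ∈ (pderiv i P).support, (m.sum fun _ e => e) + 1 ≤ P.totalDegree := by
    intro m hm
    rw [mem_support_iff, coeff_pderiv] at hm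
    have h1 : m + Finsupp.single i 1 ∈ P.support := by
      rw [mem_support_iff]
      intro h0
      rw [h0, zero_mul] at hm
      exact hm rfl
    have h2 := le_totalDegree h1
    rw [Finsupp.sum_add_index' (by simp) (by simp)] at h2
    simpa using h2
  obtain ⟨m, hm, hm2⟩ := (totalDegree_eq (pderiv i P)).symm ▸
    Finset.exists_mem_eq_sup (pderiv i P).support (by
      rwa [Finset.nonempty_iff_ne_empty, Ne, support_eq_empty]) (fun m => m.toMultiset.card)
  have := key m hm
  rw [hm2, Finsupp.card_toMultiset]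
  exact this

theorem totalDegree_pderiv_le (P : R) (i : Fin 2) :
    (pderiv i P).totalDegree ≤ P.totalDegree := by
  by_cases h : pderiv i P = 0
  · rw [h]; simp
  · exact (totalDegree_pderiv_lt P i h).le

/-- a divisor of its own derivative has derivative zero -/
lemma pderiv_eq_zero {P : R} {i : Fin 2} (h : P ∣ pderiv i P) : pderiv i P = 0 := by
  by_contra hne
  obtain ⟨A, hA⟩ := h
  have hP : P ≠ 0 := by
    intro h0; apply hne; rw [h0]; simp
  have hA0 : A ≠ 0 := by
    intro h0; apply hne; rw [hA, h0, mul_zero]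
  have h1 := totalDegree_mul_of_isDomain hP hA0
  rw [← hA] at h1
  have h2 := totalDegree_pderiv_lt P i hne
  omega

theorem eq_C_of_pderiv (P : R) (h : ∀ i, pderiv i P = 0) : P = C (coeff 0 P) := by
  ext m
  rw [coeff_C]
  split_ifs with hm
  · rw [← hm]
  · by_contra hne
    obtain ⟨i, hi⟩ : ∃ i, m i ≠ 0 := by
      by_contra hcon
      push Not at hcon
      exact hm (by ext i; simp [hcon i])
    have h1 : coeff (m - Finsupp.single i 1) (pderiv i P) = 0 := by rw [h i]; simp
    have h3 : m - (Finsupp.single i 1 : Fin 2 →₀ ℕ) + Finsupp.single i 1 = m :=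
      tsub_add_cancel_of_le (by
        rw [Finsupp.single_le_iff]; omega)
    rw [coeff_pderiv, h3] at h1
    rcases mul_eq_zero.1 h1 with h4 | h4
    · exact hne h4
    · have : ((m i : ℕ) : ℝ) ≠ 0 := by exact_mod_cast hi
      apply this
      have h5 : (m - (Finsupp.single i 1 : Fin 2 →₀ ℕ)) i + 1 = m i := by
        simp; omega
      rw [← h5]; push_cast; exact h4

lemma two_levels {A B f : R} {u u' : ℝ} (h : f ∣ C (Real.sin u) * A + C (Real.cos u) * B)
    (h' : f ∣ C (Real.sin u') * A + C (Real.cos u') * B) (hs : Real.sin (u - u') ≠ 0) :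
    f ∣ A ∧ f ∣ B := by
  have hunit : IsUnit (C (Real.sin (u - u')) : R) :=
    (IsUnit.mk0 _ hs).map (C : ℝ →+* R)
  constructor
  · have e : C (Real.sin (u - u')) * A =
        C (Real.cos u') * (C (Real.sin u) * A + C (Real.cos u) * B) -
          C (Real.cos u) * (C (Real.sin u') * A + C (Real.cos u') * B) := by
      rw [Real.sin_sub, C_sub, C_mul, C_mul]; ring
    rw [← hunit.dvd_mul_left, e]
    exact dvd_sub (h.mul_left _) (h'.mul_left _)
  · have e : C (Real.sin (u - u')) * B =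
        C (Real.sin u) * (C (Real.sin u') * A + C (Real.cos u') * B) -
          C (Real.sin u') * (C (Real.sin u) * A + C (Real.cos u) * B) := by
      rw [Real.sin_sub, C_sub, C_mul, C_mul]; ring
    rw [← hunit.dvd_mul_left, e]
    exact dvd_sub (h'.mul_left _) (h.mul_left _)

lemma countable_levels {A B f : R} (hf : ¬ (f ∣ A ∧ f ∣ B)) :
    {u : ℝ | f ∣ C (Real.sin u) * A + C (Real.cos u) * B}.Countable := by
  rcases Set.eq_empty_or_nonempty {u : ℝ | f ∣ C (Real.sin u) * A + C (Real.cos u) * B} with h | h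
  · rw [h]; exact countable_empty
  · obtain ⟨u₀, hu₀⟩ := h
    refine (countable_range fun k : ℤ => k * Real.pi + u₀).mono ?_
    intro u hu
    by_contra hne
    apply hf
    refine two_levels hu hu₀ ?_
    intro h0
    rw [Real.sin_eq_zero_iff] at h0
    obtain ⟨k, hk⟩ := h0
    exact hne ⟨k, by simp only; linarith⟩

/-- levels at which a given nonzero polynomial has a common factor with the level polynomial -/
lemma countable_common {A B W : R} (hW : W ≠ 0)
    (hf : ∀ f, Irreducible f → f ∣ W → ¬ (f ∣ A ∧ f ∣ B)) :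
    {u : ℝ | ∃ f, Irreducible f ∧ f ∣ W ∧ f ∣ C (Real.sin u) * A + C (Real.cos u) * B}.Countable := by
  have h1 : (⋃ q ∈ (UniqueFactorizationMonoid.factors W).toFinset,
      {u : ℝ | q ∣ C (Real.sin u) * A + C (Real.cos u) * B}).Countable := by
    apply Set.Countable.biUnion (Finset.countable_toSet _)
    intro q hq
    apply countable_levels
    have hq' : q ∈ UniqueFactorizationMonoid.factors W := by simpa using hq
    exact hf q (UniqueFactorizationMonoid.irreducible_of_factor q hq')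
      (UniqueFactorizationMonoid.dvd_of_mem_factors hq')
  refine h1.mono ?_
  rintro u ⟨f, hfi, hfW, hfu⟩
  obtain ⟨q, hq, hass⟩ := UniqueFactorizationMonoid.exists_mem_factors_of_dvd hW hfi hfW
  rw [Set.mem_iUnion₂]
  exact ⟨q, by simpa using hq, hass.symm.dvd.trans hfu⟩

/-- the level polynomial -/
def L (P Q : R) (c : ℝ) : R := C (Real.sin c) * P + C (Real.cos c) * Q

lemma pderiv_L (P Q : R) (c : ℝ) (i : Fin 2) : pderiv i (L P Q c) = L (pderiv i P) (pderiv i Q) c := by
  unfold L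
  simp

lemma dvd_wr {P Q f : R} {c : ℝ} {i : Fin 2} (h : f ∣ L P Q c) (h' : f ∣ pderiv i (L P Q c)) :
    f ∣ P * pderiv i Q - Q * pderiv i P := by
  rw [pderiv_L] at h'
  have e : P * pderiv i Q - Q * pderiv i P =
      C (Real.cos c) * (P * L (pderiv i P) (pderiv i Q) c - pderiv i P * L P Q c) -
      C (Real.sin c) * (Q * L (pderiv i P) (pderiv i Q) c - pderiv i Q * L P Q c) := by
    have h1 : (C (Real.sin c) : R) ^ 2 + C (Real.cos c) ^ 2 = 1 := by
      rw [← C_pow, ← C_pow, ← C_add, Real.sin_sq_add_cos_sq, C_1]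
    unfold L
    linear_combination (-(P * pderiv i Q - Q * pderiv i P)) * h1
  rw [e]
  exact dvd_sub ((dvd_sub (h'.mul_left _) (h.mul_left _)).mul_left _)
    ((dvd_sub (h'.mul_left _) (h.mul_left _)).mul_left _)

/-- bad levels -/
def bad (P Q : R) : Set ℝ :=
  {c | ∃ f, Irreducible f ∧ f ∣ L P Q c ∧ f ∣ pderiv 0 (L P Q c) ∧ f ∣ pderiv 1 (L P Q c)}

lemma not_both {P Q : R} (h : IsRelPrime P Q) {f : R} (hf : Irreducible f) : ¬ (f ∣ P ∧ f ∣ Q) :=
  fun h' => hf.not_isUnit (h h'.1 h'.2)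

lemma wr_zero {P Q : R} (h : IsRelPrime P Q) {i : Fin 2}
    (hw : P * pderiv i Q - Q * pderiv i P = 0) : pderiv i P = 0 ∧ pderiv i Q = 0 := by
  have e : P * pderiv i Q = Q * pderiv i P := sub_eq_zero.mp hw
  constructor
  · apply pderiv_eq_zero
    exact h.dvd_of_dvd_mul_left (Dvd.intro _ e)
  · apply pderiv_eq_zero
    exact h.symm.dvd_of_dvd_mul_left (Dvd.intro _ e.symm)

lemma countable_bad {P Q : R} (h : IsRelPrime P Q) : (bad P Q).Countable := by
  by_cases h0 : P * pderiv 0 Q - Q * pderiv 0 P = 0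
  · by_cases h1 : P * pderiv 1 Q - Q * pderiv 1 P = 0
    · obtain ⟨a1, a2⟩ := wr_zero h h0
      obtain ⟨b1, b2⟩ := wr_zero h h1
      have hP := eq_C_of_pderiv P (fun i => by fin_cases i; exacts [a1, b1])
      have hQ := eq_C_of_pderiv Q (fun i => by fin_cases i; exacts [a2, b2])
      have hX : Irreducible (X 0 : R) := (X_prime (R := ℝ) (i := (0 : Fin 2))).irreducible
      refine (countable_levels (not_both h hX)).mono ?_
      rintro c ⟨f, hf, hfL, -⟩
      by_cases hz : L P Q c = 0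
      · show X 0 ∣ L P Q c
        rw [hz]; exact dvd_zero _
      · exfalso
        have hc : L P Q c = C (Real.sin c * coeff 0 P + Real.cos c * coeff 0 Q) := by
          unfold L
          conv_lhs => rw [hP, hQ]
          simp
        rw [hc] at hfL hz
        have hne : Real.sin c * coeff 0 P + Real.cos c * coeff 0 Q ≠ 0 := by
          intro h9; apply hz; rw [h9, C_0]
        have hu : IsUnit (C (Real.sin c * coeff 0 P + Real.cos c * coeff 0 Q) : R) :=
          (IsUnit.mk0 _ hne).map (C : ℝ →+* R)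
        exact hf.not_isUnit (isUnit_of_dvd_unit hfL hu)
    · refine (countable_common (A := P) (B := Q) h1 (fun f hf _ => not_both h hf)).mono ?_
      rintro c ⟨f, hf, hfL, _, hf1⟩
      exact ⟨f, hf, dvd_wr hfL hf1, hfL⟩
  · refine (countable_common (A := P) (B := Q) h0 (fun f hf _ => not_both h hf)).mono ?_
    rintro c ⟨f, hf, hfL, hf0, _⟩
    exact ⟨f, hf, dvd_wr hfL hf0, hfL⟩

/-- the directional derivative -/
def DL (P Q : R) (c a : ℝ) : R :=
  C (Real.cos (a - c)) * pderiv 0 (L P Q c) + C (Real.sin (a - c)) * pderiv 1 (L P Q c)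

lemma L_ne_zero {P Q : R} {c : ℝ} (hc : c ∉ bad P Q) : L P Q c ≠ 0 := by
  intro h0
  apply hc
  refine ⟨X 0, (X_prime (R := ℝ) (i := (0 : Fin 2))).irreducible, ?_, ?_, ?_⟩
  · rw [h0]; exact dvd_zero _
  · rw [h0]; simp
  · rw [h0]; simp

lemma countable_bad2 {P Q : R} {c : ℝ} (hc : c ∉ bad P Q) :
    {a : ℝ | ¬ IsRelPrime (L P Q c) (DL P Q c a)}.Countable := by
  have h1 := countable_common (A := pderiv 1 (L P Q c)) (B := pderiv 0 (L P Q c)) (L_ne_zero hc)
    (fun f hf hfL h => hc ⟨f, hf, hfL, h.2, h.1⟩)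
  have h2 := h1.image (fun u => u + c)
  refine h2.mono ?_
  intro a ha
  refine ⟨a - c, ?_, by simp⟩
  by_contra hcon
  apply ha
  apply WfDvdMonoid.isRelPrime_of_no_irreducible_factors (fun h => L_ne_zero hc h.1)
  intro f hf hfL hfD
  apply hcon
  refine ⟨f, hf, hfL, ?_⟩
  unfold DL at hfD
  rwa [add_comm] at hfD

lemma totalDegree_lin {n : ℕ} {A B : R} (hA : A.totalDegree ≤ n) (hB : B.totalDegree ≤ n)
    (x y : ℝ) : (C x * A + C y * B).totalDegree ≤ n := by
  refine (totalDegree_add _ _).trans (max_le ?_ ?_)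
  · refine (totalDegree_mul _ _).trans ?_
    simpa using hA
  · refine (totalDegree_mul _ _).trans ?_
    simpa using hB

lemma exists_notMem {s : Set ℝ} (hs : s.Countable) {a b : ℝ} (hab : a < b) :
    ∃ c ∈ Ioo a b, c ∉ s := by
  obtain ⟨c, hc, hc2⟩ := (hs.dense_compl ℝ).exists_mem_open isOpen_Ioo (nonempty_Ioo.mpr hab)
  exact ⟨c, hc2, hc⟩

theorem gl (n : ℕ) (P Q : R) (hPn : P.totalDegree ≤ n) (hQn : Q.totalDegree ≤ n)
    (hPQ : IsRelPrime P Q) (M : ℕ) (I : Fin M → ℝ × ℝ) (A : Fin 2 → ℝ × ℝ)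
    (hI : ∀ i, (I i).1 < (I i).2) (hA : ∀ j, (A j).1 < (A j).2) :
    ∃ (c : Fin M → ℝ) (a : Fin 2 → ℝ) (B : Finset (ℝ × ℝ)),
      (∀ i, c i ∈ Ioo (I i).1 (I i).2) ∧ (∀ j, a j ∈ Ioo (A j).1 (A j).2) ∧
      B.card ≤ 2 * M * n ^ 2 ∧
      ∀ i j (z : ℝ × ℝ), eval ![z.1, z.2] (L P Q (c i)) = 0 →
        eval ![z.1, z.2] (DL P Q (c i) (a j)) = 0 → z ∈ B := by
  classical
  have hc := fun i => exists_notMem (countable_bad hPQ) (hI i)
  choose c hc1 hc2 using hc
  have hcount : (⋃ i, {a : ℝ | ¬ IsRelPrime (L P Q (c i)) (DL P Q (c i) a)}).Countable :=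
    countable_iUnion fun i => countable_bad2 (hc2 i)
  have ha := fun j => exists_notMem hcount (hA j)
  choose a ha1 ha2 using ha
  have hrel : ∀ i j, IsRelPrime (L P Q (c i)) (DL P Q (c i) (a j)) := by
    intro i j
    by_contra hcon
    exact ha2 j (Set.mem_iUnion.mpr ⟨i, hcon⟩)
  have hLn : ∀ c, (L P Q c).totalDegree ≤ n := fun c => totalDegree_lin hPn hQn _ _
  have hDn : ∀ c a, (DL P Q c a).totalDegree ≤ n := fun c a =>
    totalDegree_lin ((totalDegree_pderiv_le _ _).trans (hLn c))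
      ((totalDegree_pderiv_le _ _).trans (hLn c)) _ _
  have hZ := fun i j => H709U.b3 n (L P Q (c i)) (DL P Q (c i) (a j)) (hLn _) (hDn _ _)
    (hrel i j)
  choose Z hZ1 hZ2 using hZ
  refine ⟨c, a, Finset.univ.biUnion fun i => Finset.univ.biUnion fun j => Z i j, hc1, ha1, ?_, ?_⟩
  · calc (Finset.univ.biUnion fun i => Finset.univ.biUnion fun j => Z i j).card
        ≤ ∑ i : Fin M, (Finset.univ.biUnion fun j => Z i j).card := Finset.card_biUnion_le
      _ ≤ ∑ i : Fin M, ∑ j : Fin 2, (Z i j).card :=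
          Finset.sum_le_sum fun i _ => Finset.card_biUnion_le
      _ ≤ ∑ i : Fin M, ∑ j : Fin 2, n ^ 2 :=
          Finset.sum_le_sum fun i _ => Finset.sum_le_sum fun j _ => hZ1 i j
      _ = 2 * M * n ^ 2 := by simp; ring
  · intro i j z h1 h2
    simp only [Finset.mem_biUnion, Finset.mem_univ, true_and]
    refine ⟨i, j, ?_⟩
    rw [← hZ2]
    show (eval ![z.1, z.2] (L P Q (c i)), eval ![z.1, z.2] (DL P Q (c i) (a j))) = 0
    rw [h1, h2]; rfl

end

end Pool.Agent.K9h44.HS.GLA
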