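import Pool.Agent.K9h44.HS.Stm
import Pool.Agent.K9h44.HS.GLA

/-! Leaf GL (helper72). -/

set_option autoImplicit false

open Real Set

namespace Pool.Agent.K9h44.HS

theorem gl : S_GL := by
  intro n P Q hP hQ hPQ M I A hI hA
  obtain ⟨c, a, B, h1, h2, h3, h4⟩ := GLA.gl n P Q hP hQ hPQ M I A hI hA
  exact ⟨c, a, B, h1, h2, h3, fun i j z hz hz' => h4 i j z hz hz'⟩

end Pool.Agent.K9h44.HS
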