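import Pool.Agent.K9h44.HS.Stm
import Pool.Agent.K9h63.HS.NetB

/-! Leaf NET of project HS (helper63). -/

namespace Pool.Agent.K9h44.HS

/-- NET -/
theorem net : S_NET := fun S => K9h63.HS.net0 S

end Pool.Agent.K9h44.HS
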