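import Pool.Agent.K9h44.HS.Stm
import Pool.Agent.K9h63.HS.RpA

/-! Leaf RP of project HS (helper63). -/

namespace Pool.Agent.K9h44.HS

/-- RP -/
theorem rp : S_RP := fun h P₁ Q₁ η C hC => K9h63.HS.rp0 h P₁ Q₁ η C hC

end Pool.Agent.K9h44.HS
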