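import Pool.Agent.K9h44.HS.Stm

/-! Project HS (helper44): the two sides of a simple closed curve. -/

open Real Set MeasureTheory Topology Filter

namespace Pool.Agent.K9h44.HS

open Pool.Agent.H709R2 (wedge)
open Pool.Agent.N224.Hil (Loop wn ins fill w1 w2 w3)
open Pool.Agent.N224.Hil.J (Hc)
open Complex (I)

variable {c v : ℝ → ℂ} {T : ℝ} {N : ℂ → ℝ}

/-- the oriented area -/
noncomputable def im2 (v w : ℂ) : ℝ := v.re * w.im - v.im * w.re

lemma im2_le (v w : ℂ) : |im2 v w| ≤ ‖v‖ * ‖w‖ := by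
  have h : im2 v w = ((starRingEnd ℂ) v * w).im := by
    unfold im2
    rw [Complex.mul_im, Complex.conj_re, Complex.conj_im]
    ring
  rw [h]
  refine (Complex.abs_im_le_norm _).trans ?_
  rw [norm_mul, Complex.norm_conj]

/-- points in a cone around the normal are not on the curve -/
lemma cone_off (h : Hc c v T N) (t₀ : ℝ) {κ : ℝ} (hκ : 0 < κ) : ∃ δ : ℝ, 0 < δ ∧ ∀ w : ℂ, w ≠ 0 →
    ‖w‖ < δ → κ * ‖w‖ ≤ |im2 (v t₀) w| → c t₀ + w ∉ range c := by
  have hA : 0 < ‖v t₀‖ := norm_pos_iff.2 (h.ne t₀)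
  have hT := h.pos
  set κ' := κ * ‖v t₀‖ / (2 * (κ + ‖v t₀‖)) with hκ'
  have hκ'0 : 0 < κ' := by positivity
  have hκ'1 : κ' * (κ + ‖v t₀‖) = κ * ‖v t₀‖ / 2 := by
    rw [hκ']
    field_simp
  obtain ⟨ρ, hρ, hρc⟩ := Metric.eventually_nhds_iff.1
    ((hasDerivAt_iff_isLittleO.1 (h.der t₀)).def (c := κ') hκ'0)
  set r := min (ρ / 2) (T / 4) with hr
  have hr0 : 0 < r := lt_min (by positivity) (by positivity)
  have hr1 : r ≤ ρ / 2 := min_le_left _ _
  have hr2 : r ≤ T / 4 := min_le_right _ _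
  have hcl : IsClosed (c '' Icc (t₀ + r) (t₀ + T - r)) := (isCompact_Icc.image h.cc).isClosed
  have hnot : c t₀ ∉ c '' Icc (t₀ + r) (t₀ + T - r) := by
    rintro ⟨t, ht, hct⟩
    obtain ⟨k, hk⟩ := h.inj t t₀ hct
    have h1 : 0 < (k : ℝ) * T := by linarith [ht.1]
    have h2 : (k : ℝ) * T < 1 * T := by linarith [ht.2]
    have h3 : 0 < (k : ℝ) := (mul_pos_iff_of_pos_right hT).1 h1
    have h4 : (k : ℝ) < 1 := lt_of_mul_lt_mul_right h2 hT.le
    have h5 : 0 < k := by exact_mod_cast h3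
    have h6 : k < 1 := by exact_mod_cast h4
    omega
  obtain ⟨δ, hδ, hball⟩ := Metric.isOpen_iff.1 hcl.isOpen_compl (c t₀) hnot
  refine ⟨δ, hδ, ?_⟩
  rintro w hw0 hwδ hκw ⟨t, ht⟩
  obtain ⟨y, hy, hcy⟩ := h.perc.exists_mem_Ico hT t (t₀ - r)
  rw [hcy] at ht
  rcases lt_or_ge y (t₀ + r) with h1 | h1
  · have h2 : dist y t₀ < ρ := by
      rw [Real.dist_eq, abs_lt]
      constructor <;> linarith [hy.1]
    have h3 := hρc h2
    have h4 : c y - c t₀ = w := by rw [ht]; ring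
    rw [h4, Real.norm_eq_abs, Complex.real_smul] at h3
    have hne : y ≠ t₀ := by
      rintro rfl
      rw [sub_self] at h4
      exact hw0 h4.symm
    have hpos : 0 < |y - t₀| := abs_pos.2 (sub_ne_zero.2 hne)
    -- the norm of `w`
    have h5 : (‖v t₀‖ - κ') * |y - t₀| ≤ ‖w‖ := by
      have h6 : ‖((y - t₀ : ℝ) : ℂ) * v t₀‖ ≤ ‖w‖ + ‖w - ((y - t₀ : ℝ) : ℂ) * v t₀‖ := by
        have := norm_sub_le w (w - ((y - t₀ : ℝ) : ℂ) * v t₀)
        rwa [sub_sub_cancel] at this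
      rw [norm_mul, Complex.norm_real, Real.norm_eq_abs] at h6
      nlinarith
    have h7 : |im2 (v t₀) w| ≤ ‖v t₀‖ * (κ' * |y - t₀|) := by
      have h8 : im2 (v t₀) w = im2 (v t₀) (w - ((y - t₀ : ℝ) : ℂ) * v t₀) := by
        unfold im2
        simp
        ring
      rw [h8]
      exact (im2_le _ _).trans (mul_le_mul_of_nonneg_left h3 hA.le)
    have h9 : κ * ((‖v t₀‖ - κ') * |y - t₀|) ≤ ‖v t₀‖ * (κ' * |y - t₀|) :=
      (mul_le_mul_of_nonneg_left h5 hκ.le).trans (hκw.trans h7)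
    have h10 : 0 < (κ * ‖v t₀‖ / 2) * |y - t₀| := by positivity
    nlinarith
  · have h2 : c y ∈ Metric.ball (c t₀) δ := by
      rw [ht, Metric.mem_ball, dist_eq_norm, add_sub_cancel_left]
      exact hwδ
    exact hball h2 ⟨y, ⟨h1, by linarith [hy.2]⟩, rfl⟩

/-- the winding number in the cone around a normal -/
lemma cone_side (h : Hc c v T N) {t₀ κ k ε e : ℝ} (he : e = 1 ∨ e = -1) (hκ : 0 < κ) (hε : 0 < ε)
    (hk : ∀ s : ℝ, 0 < s → s < ε → N (c t₀ + (e * s : ℝ) * (I * v t₀)) = k) :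
    ∃ δ : ℝ, 0 < δ ∧ ∀ w : ℂ, w ≠ 0 → ‖w‖ < δ → κ * ‖w‖ ≤ e * im2 (v t₀) w →
      c t₀ + w ∉ range c ∧ N (c t₀ + w) = k := by
  have hA : 0 < ‖v t₀‖ := norm_pos_iff.2 (h.ne t₀)
  have hee : |e| = 1 := by rcases he with h | h <;> rw [h] <;> norm_num
  have hee2 : e * e = 1 := by rcases he with h | h <;> rw [h] <;> norm_num
  set κ₁ := min κ ‖v t₀‖ with hκ₁
  have hκ₁0 : 0 < κ₁ := lt_min hκ hA
  obtain ⟨δ, hδ, hoff⟩ := cone_off h t₀ hκ₁0
  have habs : ∀ w, e * im2 (v t₀) w ≤ |im2 (v t₀) w| := by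
    intro w
    refine (le_abs_self _).trans ?_
    rw [abs_mul, hee, one_mul]
  refine ⟨δ, hδ, fun w hw0 hwδ hκw => ?_⟩
  have hw1 : κ₁ * ‖w‖ ≤ e * im2 (v t₀) w :=
    (mul_le_mul_of_nonneg_right (min_le_left _ _) (norm_nonneg _)).trans hκw
  have hnw : 0 < ‖w‖ := norm_pos_iff.2 hw0
  refine ⟨hoff w hw0 hwδ (hw1.trans (habs w)), ?_⟩
  -- the normal point
  obtain ⟨s, hs0, hsε, hsδ⟩ : ∃ s : ℝ, 0 < s ∧ s < ε ∧ s * ‖v t₀‖ < δ := by
    refine ⟨min (ε / 2) (δ / (2 * ‖v t₀‖)), lt_min (by positivity) (by positivity),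
      (min_le_left _ _).trans_lt (by linarith), ?_⟩
    calc min (ε / 2) (δ / (2 * ‖v t₀‖)) * ‖v t₀‖ ≤ δ / (2 * ‖v t₀‖) * ‖v t₀‖ :=
          mul_le_mul_of_nonneg_right (min_le_right _ _) hA.le
      _ = δ / 2 := by field_simp
      _ < δ := by linarith
  set u : ℂ := (e * s : ℝ) * (I * v t₀) with hu
  have hun : ‖u‖ = s * ‖v t₀‖ := by
    rw [hu, norm_mul, norm_mul, Complex.norm_I, Complex.norm_real, Real.norm_eq_abs, abs_mul, hee,
      abs_of_pos hs0]
    ring
  have hui : e * im2 (v t₀) u = s * ‖v t₀‖ ^ 2 := by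
    have h1 : ‖v t₀‖ ^ 2 = (v t₀).re ^ 2 + (v t₀).im ^ 2 := by
      rw [← Complex.normSq_eq_norm_sq, Complex.normSq_apply]
      ring
    rw [h1, hu]
    unfold im2
    simp
    linear_combination (s * ((v t₀).re ^ 2 + (v t₀).im ^ 2)) * hee2
  have hu1 : κ₁ * ‖u‖ ≤ e * im2 (v t₀) u := by
    rw [hui, hun]
    have h1 : κ₁ ≤ ‖v t₀‖ := min_le_right _ _
    have h2 : 0 ≤ s * ‖v t₀‖ := by positivity
    nlinarith
  have hconst : N (c t₀ + ((((1:ℝ) - 0 : ℝ) : ℂ) * w + ((0:ℝ) : ℂ) * u)) =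
      N (c t₀ + ((((1:ℝ) - 1 : ℝ) : ℂ) * w + ((1:ℝ) : ℂ) * u)) := by
    refine h.const_on (S := Icc (0:ℝ) 1) isPreconnected_Icc
      (f := fun x : ℝ => c t₀ + ((((1:ℝ) - x : ℝ) : ℂ) * w + (x : ℂ) * u)) ?_ ?_ (x := 0) (y := 1)
      ⟨le_rfl, zero_le_one⟩ ⟨zero_le_one, le_rfl⟩
    · fun_prop
    · intro x hx
      have hx0 := hx.1
      have hx1 : 0 ≤ 1 - x := by linarith [hx.2]
      have e1 : e * im2 (v t₀) ((((1:ℝ) - x : ℝ) : ℂ) * w + (x : ℂ) * u) =
          (1 - x) * (e * im2 (v t₀) w) + x * (e * im2 (v t₀) u) := by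
        unfold im2
        simp only [Complex.add_re, Complex.add_im, Complex.re_ofReal_mul, Complex.im_ofReal_mul]
        ring
      have e2 : ‖(((1:ℝ) - x : ℝ) : ℂ) * w + (x : ℂ) * u‖ ≤ (1 - x) * ‖w‖ + x * ‖u‖ := by
        refine (norm_add_le _ _).trans (le_of_eq ?_)
        rw [norm_mul, norm_mul, Complex.norm_real, Complex.norm_real, Real.norm_of_nonneg hx1,
          Real.norm_of_nonneg hx0]
      have hupos : 0 < e * im2 (v t₀) u := by rw [hui]; positivity
      have hwpos : 0 < e * im2 (v t₀) w := lt_of_lt_of_le (by positivity) hw1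
      have e3 : 0 < e * im2 (v t₀) ((((1:ℝ) - x : ℝ) : ℂ) * w + (x : ℂ) * u) := by
        rw [e1]
        rcases hx0.lt_or_eq with h1 | h1
        · have := mul_pos h1 hupos
          have := mul_nonneg hx1 hwpos.le
          linarith
        · rw [← h1]
          simpa using hwpos
      refine hoff _ ?_ ?_ ?_
      · intro h0
        rw [h0] at e3
        unfold im2 at e3
        simp at e3
      · rw [hun] at e2
        have h1 : (1 - x) * ‖w‖ + x * (s * ‖v t₀‖) < δ := by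
          rcases hx1.lt_or_eq with h1 | h1
          · nlinarith
          · have h2 : x = 1 := by linarith
            rw [h2]
            linarith
        exact e2.trans_lt h1
      · refine le_trans ?_ (habs _)
        rw [e1]
        have h1 := mul_le_mul_of_nonneg_left e2 hκ₁0.le
        have h2 := mul_le_mul_of_nonneg_left hw1 hx1
        have h3 := mul_le_mul_of_nonneg_left hu1 hx0
        linarith
  have h1 : N (c t₀ + w) = N (c t₀ + u) := by simpa using hconst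
  rw [h1]
  exact hk s hs0 hsε

theorem side : S_SIDE := by
  intro γ V T hL hV hinj
  set e : (ℝ × ℝ) ≃L[ℝ] ℂ := Complex.equivRealProdCLM.symm with he
  have er : ∀ p : ℝ × ℝ, (e p).re = p.1 := fun p => rfl
  have ei : ∀ p : ℝ × ℝ, (e p).im = p.2 := fun p => rfl
  have hrange : ∀ z : ℂ, z ∉ range (fun t => e (γ t)) ↔ (z.re, z.im) ∉ range γ := by
    intro z
    rw [not_iff_not]
    constructor
    · rintro ⟨t, rfl⟩
      exact ⟨t, rfl⟩
    · rintro ⟨t, ht⟩
      refine ⟨t, ?_⟩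
      show e (γ t) = z
      rw [ht]
      apply Complex.ext <;> rfl
  have hc : Hc (fun t => e (γ t)) (fun t => e (V t)) T (fun z => wn γ V T (z.re, z.im)) := by
    refine ⟨hL.pos, fun t => ?_, e.continuous.comp hL.cont, fun t => ?_, fun t => ?_,
      fun s t hst => ?_, fun z => ?_, fun z hz => ?_, ?_, fun z hz => ?_⟩
    · exact e.toContinuousLinearMap.hasFDerivAt.comp_hasDerivAt t (hL.der t)
    · show e (γ (t + T)) = e (γ t)
      rw [hL.per t]
    · show e (V t) ≠ 0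
      rw [Ne, map_eq_zero_iff e e.injective]
      exact hV t
    · exact hinj s t (e.injective hst)
    · show wn γ V T (z.re, z.im) = _
      unfold wn
      congr 1
      refine intervalIntegral.integral_congr fun t _ => ?_
      show H709R2.wedge (γ t - (z.re, z.im)) (V t) / H709R2.sq (γ t - (z.re, z.im)) =
        (e (V t) / (e (γ t) - z)).im
      rw [Complex.div_im, Complex.normSq_apply, Complex.sub_re, Complex.sub_im, er, ei, er, ei,
        ← sub_div]
      unfold H709R2.wedge H709R2.sq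
      simp only [Prod.fst_sub, Prod.snd_sub]
      congr 1
      · ring
      · ring
    · exact w1 γ V T hL _ ((hrange z).1 hz)
    · refine (w2 γ V T hL).comp (Continuous.continuousOn ?_) fun z hz => (hrange z).1 hz
      exact Complex.continuous_re.prodMk Complex.continuous_im
    · refine w3 γ V T hL _ (-1, 0) fun t => ?_
      have h4 := hz t
      simp only [er] at h4
      simp only
      linarith
  obtain ⟨kp, km, hk⟩ := hc.global
  obtain ⟨ε₀, hε₀, hk0⟩ := hk 0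
  refine ⟨kp, km, hc.jump hε₀ hk0, hc.outer hk, fun z hz => ?_, fun t₀ κ hκ => ?_⟩
  · have h1 := hc.values hk (z := e z) ((hrange (e z)).2 hz)
    exact h1
  · obtain ⟨ε, hε, hkε⟩ := hk t₀
    obtain ⟨δ₁, hδ₁, h1⟩ := cone_side hc (e := 1) (k := kp) (Or.inl rfl) hκ hε (fun s h1 h2 => by
      have := (hkε s).1 h1 h2
      simpa using this)
    obtain ⟨δ₂, hδ₂, h2⟩ := cone_side hc (e := -1) (k := km) (Or.inr rfl) hκ hε (fun s h1 h2 => by
      have := (hkε (-s)).2 (by linarith) (by linarith)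
      simpa using this)
    refine ⟨min δ₁ δ₂, lt_min hδ₁ hδ₂, fun w hw0 hwδ => ?_⟩
    have hn : ‖e w‖ = √(H709R2.sq w) := by
      rw [Complex.norm_def, Complex.normSq_apply, er, ei]
      unfold H709R2.sq
      congr 1
      ring
    have hi : im2 (e (V t₀)) (e w) = wedge (V t₀) w := by
      unfold im2 wedge
      rw [er, ei, er, ei]
    have he0 : e w ≠ 0 := by
      rw [Ne, map_eq_zero_iff e e.injective]
      exact hw0
    have hrr : ((e (γ t₀) + e w).re, (e (γ t₀) + e w).im) = γ t₀ + w := rfl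
    have hcv : ∀ k, (e (γ t₀) + e w ∉ range (fun t => e (γ t)) ∧
        wn γ V T ((e (γ t₀) + e w).re, (e (γ t₀) + e w).im) = k) →
        (γ t₀ + w ∉ range γ ∧ wn γ V T (γ t₀ + w) = k) := by
      rintro k ⟨h3, h4⟩
      rw [hrr] at h4
      refine ⟨?_, h4⟩
      have := (hrange _).1 h3
      rwa [hrr] at this
    constructor
    · intro h3
      refine hcv kp (h1 (e w) he0 ?_ ?_)
      · rw [hn]; exact hwδ.trans_le (min_le_left _ _)
      · rw [hn, hi, one_mul]; exact h3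
    · intro h3
      refine hcv km (h2 (e w) he0 ?_ ?_)
      · rw [hn]; exact hwδ.trans_le (min_le_right _ _)
      · rw [hn, hi, neg_one_mul]; exact h3

end Pool.Agent.K9h44.HS
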