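import Pool.Agent.K9h44.HS.A4
import Pool.Agent.K9h44.HS.CR
import Pool.Agent.K9h44.HS.SIDE
import Pool.Agent.K9h44.HS.CVX
import Pool.Agent.K9h44.HS.ARC
import Pool.Agent.K9h44.HS.NET
import Pool.Agent.K9h44.HS.EZ
import Pool.Agent.K9h44.HS.GL
import Pool.Agent.K9h44.HS.RP

/-! Project HS (helper44): the count for coprime components. -/

open Real Set MeasureTheory Topology Filter
open scoped ENNReal

namespace Pool.Agent.K9h44.HS

open Pool.Agent.H709R2 (wedge rot field ClosedOrbit)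
open Pool.Agent.H709U (rf Orb V W lg InBox Cl)
open Pool.Agent.N224.Hil (Loop wn ins fill e2)
open Pool.Agent.W960.HP (Path Good PersG)

theorem allCR : S_CR := cr side
theorem allTH : S_TH := th allCR arc

/-- a dense set of levels: one level in every cell of length `ω` -/
lemma dense_levels {ω : ℝ} (hω : 0 < ω) {M : ℕ} (hM : π / ω + 1 ≤ M) {c : Fin M → ℝ}
    (hc : ∀ i : Fin M, c i ∈ Ioo ((i : ℝ) * ω) (((i : ℝ) + 1) * ω)) (θ : ℝ) :
    ∃ i, ∃ k : ℤ, θ < c i + k * π ∧ c i + k * π < θ + 2 * ω := by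
  have hπ := Real.pi_pos
  obtain ⟨k, hk⟩ : ∃ k : ℤ, k = ⌊θ / π⌋ := ⟨_, rfl⟩
  have h1 : (k : ℝ) * π ≤ θ := by
    have := Int.floor_le (θ / π)
    rw [← hk, le_div_iff₀ hπ] at this
    exact this
  have h2 : θ < ((k : ℝ) + 1) * π := by
    have := Int.lt_floor_add_one (θ / π)
    rw [← hk, div_lt_iff₀ hπ] at this
    exact this
  obtain ⟨x, hx⟩ : ∃ x : ℝ, x = θ - k * π := ⟨_, rfl⟩
  have hx0 : 0 ≤ x := by rw [hx]; linarith
  have hx1 : x < π := by rw [hx]; linarith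
  obtain ⟨m, hm⟩ : ∃ m : ℕ, m = ⌈x / ω⌉₊ := ⟨_, rfl⟩
  have hm1 : x / ω ≤ m := by rw [hm]; exact Nat.le_ceil _
  have hm2 : (m : ℝ) < x / ω + 1 := by rw [hm]; exact Nat.ceil_lt_add_one (by positivity)
  have hm1' : x ≤ m * ω := by rwa [div_le_iff₀ hω] at hm1
  have hm2' : (m : ℝ) * ω < x + ω := by
    have h3 := mul_lt_mul_of_pos_right hm2 hω
    rw [add_mul, div_mul_cancel₀ _ hω.ne', one_mul] at h3
    exact h3
  have hmM : m < M := by
    have h3 : x / ω < π / ω := div_lt_div_of_pos_right hx1 hω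
    have h4 : (m : ℝ) < M := by linarith
    exact_mod_cast h4
  obtain ⟨h3, h4⟩ := hc ⟨m, hmM⟩
  simp only at h3 h4
  refine ⟨⟨m, hmM⟩, k, ?_, ?_⟩
  · linarith
  · nlinarith

/-- the constants -/
lemma arith1 {n : ℕ} {η : ℝ} (hη : 0 < η) (hη1 : η ≤ 1) {M : ℕ} (hM : (M : ℝ) ≤ 1615 / η) :
    (n : ℝ) ^ 2 + 2 * M * n ^ 2 ≤ 3231 * n ^ 2 / η := by
  have h1 : (1:ℝ) ≤ 1 / η := by
    rw [le_div_iff₀ hη]; linarith
  have hn : (0:ℝ) ≤ (n : ℝ) ^ 2 := by positivity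
  have h2 : 2 * (M : ℝ) * n ^ 2 ≤ 2 * (1615 / η) * n ^ 2 :=
    mul_le_mul_of_nonneg_right (by linarith) hn
  have h3 : (n : ℝ) ^ 2 ≤ 1 / η * n ^ 2 := le_mul_of_one_le_left hn h1
  calc (n : ℝ) ^ 2 + 2 * M * n ^ 2 ≤ 1 / η * n ^ 2 + 2 * (1615 / η) * n ^ 2 := add_le_add h3 h2
    _ = 3231 * n ^ 2 / η := by ring

lemma log_bound {η : ℝ} (hη : 0 < η) (hη1 : η ≤ 1) : 2 * Real.log (512 / η) + 1 ≤ 14 / η := by
  have h1 : Real.log (512 / η) = 9 * Real.log 2 - Real.log η := by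
    rw [Real.log_div (by norm_num) hη.ne']
    congr 1
    rw [show (512:ℝ) = 2 ^ 9 by norm_num, Real.log_pow]
    norm_num
  have h2 := Real.log_two_lt_d9
  have h3 : -Real.log η ≤ 1 / η - 1 := by
    rw [← Real.log_inv]
    have := Real.log_le_sub_one_of_pos (x := η⁻¹) (by positivity)
    rw [one_div]
    exact this
  have h4 : (1:ℝ) ≤ 1 / η := by
    rw [le_div_iff₀ hη]; linarith
  have h5 : 14 / η = 14 * (1 / η) := by ring
  rw [h1, h5]
  nlinarith

/-- **the count for a family of disjoint paths, coprime components** -/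
theorem core {n : ℕ} {P Q : MvPolynomial (Fin 2) ℝ} (hP : P.totalDegree ≤ n)
    (hQ : Q.totalDegree ≤ n) (hrel : IsRelPrime P Q) {σ η : ℝ} (hσ : σ = 1 ∨ σ = -1) (hη : 0 < η)
    (hη1 : η ≤ 1) (s : Finset (Set (ℝ × ℝ)))
    (a : Set (ℝ × ℝ) → ℝ → ℝ) (γ : Set (ℝ × ℝ) → ℝ → ℝ → ℝ × ℝ) (T : Set (ℝ × ℝ) → ℝ → ℝ)
    (hF : ∀ C ∈ s, Path (fun a => rf (field P Q) (σ * a)) η (a C) (γ C) (T C))
    (h0 : ∀ C ∈ s, C = range (γ C 0))
    (hdis : ∀ C ∈ s, ∀ C' ∈ s, C ≠ C' → ∀ τ ∈ Icc (0:ℝ) 1, ∀ τ' ∈ Icc (0:ℝ) 1,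
      Disjoint (range (γ C τ)) (range (γ C' τ'))) :
    (s.card : ℝ) ≤ 4 * 10 ^ 13 * (n ^ 2 * (n + 1)) / η ^ 3 := by
  classical
  have hF2 : ContDiff ℝ 2 (field P Q) := H709R2.contDiff_field P Q
  have hπ := Real.pi_gt_three
  have hπ' := Real.pi_lt_d2
  have hX : Good (fun a => rf (field P Q) (σ * a)) η := W960.HP.good_rf hF2 hσ (by linarith)
  have hσσ : σ * σ = 1 := by rcases hσ with h | h <;> rw [h] <;> norm_num
  -- the generic levels
  obtain ⟨ω, hω⟩ : ∃ ω : ℝ, ω = η / 512 := ⟨_, rfl⟩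
  have hω0 : 0 < ω := by rw [hω]; positivity
  obtain ⟨M, hM⟩ : ∃ M : ℕ, M = ⌈π / ω⌉₊ + 1 := ⟨_, rfl⟩
  have hM1 : π / ω + 1 ≤ M := by
    rw [hM]
    push_cast
    linarith [Nat.le_ceil (π / ω)]
  have hM2 : (M : ℝ) ≤ 1615 / η := by
    have h1 : (⌈π / ω⌉₊ : ℝ) < π / ω + 1 := Nat.ceil_lt_add_one (by positivity)
    have h2 : π / ω = 512 * π / η := by rw [hω]; field_simp
    have h3 : (M : ℝ) ≤ 512 * π / η + 2 := by
      rw [hM]
      push_cast
      rw [← h2]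
      linarith
    refine h3.trans ?_
    rw [div_add' _ _ _ hη.ne', div_le_div_iff_of_pos_right hη]
    nlinarith
  obtain ⟨c, a', B, hcI, haI, hBc, hB⟩ := gl n P Q hP hQ hrel M
    (fun i => ((i : ℝ) * ω, ((i : ℝ) + 1) * ω))
    (if σ = 1 then ![(0, η / 5), (4 * η / 5, η)] else ![(-(η / 5), 0), (-η, -(4 * η / 5))])
    (fun i => by simp only; nlinarith)
    (by
      intro j
      split_ifs
      · fin_cases j
        · simp only [Fin.zero_eta, Matrix.cons_val_zero]; positivity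
        · simp only [Fin.mk_one, Matrix.cons_val_one, Matrix.cons_val_fin_one]; linarith
      · fin_cases j
        · simp only [Fin.zero_eta, Matrix.cons_val_zero]; linarith
        · simp only [Fin.mk_one, Matrix.cons_val_one, Matrix.cons_val_fin_one]; linarith)
  obtain ⟨b, hb⟩ : ∃ b : Fin 2 → ℝ, b = fun j => σ * a' j := ⟨_, rfl⟩
  have hσb : ∀ j, σ * b j = a' j := fun j => by rw [hb]; simp only; rw [← mul_assoc, hσσ, one_mul]
  have hbI : (0 < b 0 ∧ b 0 < η / 5) ∧ (4 * η / 5 < b 1 ∧ b 1 < η) := by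
    have h1 := haI 0
    have h2 := haI 1
    rcases hσ with h | h
    · rw [if_pos h] at h1 h2
      simp only [Matrix.cons_val_zero, Matrix.cons_val_one, Matrix.cons_val_fin_one] at h1 h2
      rw [hb, h]
      simp only [one_mul]
      exact ⟨⟨h1.1, h1.2⟩, h2.1, h2.2⟩
    · rw [if_neg (by rw [h]; norm_num)] at h1 h2
      simp only [Matrix.cons_val_zero, Matrix.cons_val_one, Matrix.cons_val_fin_one] at h1 h2
      rw [hb, h]
      simp only [neg_mul, one_mul]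
      exact ⟨⟨by linarith [h1.2], by linarith [h1.1]⟩, by linarith [h2.2], by linarith [h2.1]⟩
  have hdens : ∀ θ : ℝ, ∃ i, ∃ k : ℤ, θ < c i + k * π ∧ c i + k * π < θ + η / 256 := by
    intro θ
    obtain ⟨i, k, h1, h2⟩ := dense_levels hω0 hM1 hcI θ
    refine ⟨i, k, h1, ?_⟩
    have : 2 * ω = η / 256 := by rw [hω]; ring
    rwa [this] at h2
  -- the singular points
  obtain ⟨Z, hZc, hZ⟩ := H709U.b3 n P Q hP hQ hrel
  obtain ⟨S, hS⟩ : ∃ S : Finset (ℝ × ℝ), S = Z ∪ B := ⟨_, rfl⟩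
  have hScard : (S.card : ℝ) ≤ 3231 * n ^ 2 / η := by
    refine le_trans ?_ (arith1 hη hη1 hM2)
    have h1 : S.card ≤ n ^ 2 + 2 * M * n ^ 2 := by
      rw [hS]
      exact (Finset.card_union_le _ _).trans (add_le_add hZc hBc)
    exact_mod_cast h1
  obtain ⟨N, hNc, hNS, hN⟩ := net S
  -- enclosed zeros
  have hzero : ∀ C ∈ s, ∃ p ∈ Z, wn (γ C 0) (fun t => rf (field P Q) (σ * a C 0) (γ C 0 t))
      (T C 0) p ≠ 0 := by
    intro C hC
    have m0 : (0:ℝ) ∈ Icc (0:ℝ) 1 := ⟨le_rfl, zero_le_one⟩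
    obtain ⟨δ, S', hO, hr⟩ := H709U.m0 (field P Q) hF2 (σ * a C 0) _ ((hF C hC).closed m0)
    obtain ⟨p, hp0, hp⟩ := ez P Q (σ * a C 0) δ S' hO
    refine ⟨p, (hZ p).1 hp0, ?_⟩
    have hfill := N224.Hil.NI.fill_eq (hX.smooth (a C 0)) ((hF C hC).pos 0 m0) ((hF C hC).ode 0 m0)
      ((hF C hC).per 0 m0) hO hr
    have h1 : p ∈ fill (γ C 0) (fun t => rf (field P Q) (σ * a C 0) (γ C 0 t)) (T C 0) := by
      rw [hfill]
      exact Or.inr hp
    rcases h1 with h1 | h1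
    · rw [hr] at h1
      exact absurd h1 hp.1
    · exact h1.2
  -- zeros are not on the members
  have hoffZ : ∀ C ∈ s, ∀ p ∈ Z, ∀ τ ∈ Icc (0:ℝ) 1, p ∉ range (γ C τ) := by
    rintro C hC p hp τ hτ ⟨t, ht⟩
    have h1 := W960.HP.ne_zero (hX.smooth (a C τ)) ((hF C hC).closed hτ) ⟨t, rfl⟩
    apply h1
    rw [ht]
    unfold H709U.rf
    rw [(hZ p).2 hp]
    exact H709U.Z1aux.rot_zero' _
  -- the classes
  obtain ⟨St, hSt⟩ : ∃ St : ℝ × ℝ → Set (ℝ × ℝ) → Prop, St = fun p C =>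
    ∀ α ∈ Ioo (2 * η / 5) (3 * η / 5), ∃ τ ∈ Ioo (0:ℝ) 1, a C τ = α ∧
      ∀ z ∈ range (γ C τ),
        (η / 128) ^ 2 * W (field P Q) p (σ * α) z ^ 2 < V (field P Q) p (σ * α) z ^ 2 := ⟨_, rfl⟩
  obtain ⟨Wd, hWd⟩ : ∃ Wd : (ℝ × ℝ) × ℝ → Set (ℝ × ℝ) → Prop, Wd = fun q C =>
    (∀ τ ∈ Icc (0:ℝ) 1, q.1 ∉ range (γ C τ)) ∧
    wn (γ C 0) (fun t => rf (field P Q) (σ * a C 0) (γ C 0 t)) (T C 0) q.1 ≠ 0 ∧
    ∃ τ ∈ Icc (0:ℝ) 1, ∃ t, |lg q.1 (γ C τ t) - q.2| ≤ Real.log (512 / η) := ⟨_, rfl⟩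
  have hcover : s ⊆ (Z.biUnion fun p => s.filter (St p)) ∪ (N.biUnion fun q => s.filter (Wd q)) := by
    intro C hC
    obtain ⟨p, hpZ, hpw⟩ := hzero C hC
    obtain ⟨r, R, hr, hrR, hrad, hall⟩ := swept (hF C hC) (hoffZ C hC p hpZ)
    rw [Finset.mem_union]
    by_cases hbad : ∃ x ∈ S, (η / 32 * r) ^ 2 ≤ H709R2.sq (x - p) ∧
        H709R2.sq (x - p) ≤ (2 * R) ^ 2
    · right
      obtain ⟨q, hq, hq1, d, hd1, hd2, hd⟩ := classify hNS hN hη hη1
        (by rw [hS]; exact Finset.mem_union_left _ hpZ) hr hrR hbad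
      rw [Finset.mem_biUnion]
      refine ⟨q, hq, Finset.mem_filter.2 ⟨hC, ?_⟩⟩
      rw [hWd]
      refine ⟨?_, ?_, ?_⟩
      · rintro τ hτ ⟨t, ht⟩
        have h1 := (hrad τ hτ t).1
        rw [ht] at h1
        linarith
      · exact (disc_ins (path_loop hX (hF C hC) ⟨le_rfl, zero_le_one⟩)
          (fun t => (hrad 0 ⟨le_rfl, zero_le_one⟩ t).1) hpw hq1).2
      · obtain ⟨τ, hτ, t, ht⟩ := hall d hd1 hd2
        exact ⟨τ, hτ, t, hd _ ht⟩
    · left
      push Not at hbad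
      rw [Finset.mem_biUnion]
      refine ⟨p, hpZ, Finset.mem_filter.2 ⟨hC, ?_⟩⟩
      rw [hSt]
      intro α hα
      refine star_mid allTH cvx hσ hη hη1 hr hrR hdens (b := b) hbI.1.1 hbI.2.2
        (by linarith [hα.1, hbI.1.2]) (by linarith [hα.2, hbI.2.1]) ?_ (hF C hC) hrad hpw
      intro z hz1 hz2
      have hzS : z ∉ S := fun h => absurd hz2 (not_le.2 (hbad z h hz1))
      rw [hS, Finset.mem_union, not_or] at hzS
      refine ⟨fun h => hzS.1 ((hZ z).1 h), fun i j h1 h2 => ?_⟩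
      rw [hσb] at h2
      exact hzS.2 (hB i j z h1 h2)
  -- the counts
  have hstar : ∀ p ∈ Z, ((s.filter (St p)).card : ℝ) ≤ 270000 * n / η ^ 3 := by
    intro p _
    have h1 := star_count hP hQ hσ hη hη1 (p := p) (s.filter (St p)) a γ T
      (fun C hC => hF C (Finset.mem_filter.1 hC).1)
      (fun C hC C' hC' => hdis C (Finset.mem_filter.1 hC).1 C' (Finset.mem_filter.1 hC').1)
      (fun C hC => by
        have := (Finset.mem_filter.1 hC).2
        rw [hSt] at this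
        exact this)
    have h2 : (1 + 1 / (η / 128) ^ 2) * (π * n) ≤ 16385 / η ^ 2 * (3.15 * n) := by
      have h3 : 1 + 1 / (η / 128) ^ 2 ≤ 16385 / η ^ 2 := by
        have h4 : 1 / (η / 128) ^ 2 = 16384 / η ^ 2 := by
          field_simp
          norm_num
        have h5 : (1:ℝ) ≤ 1 / η ^ 2 := by
          rw [le_div_iff₀ (by positivity)]
          nlinarith
        rw [h4]
        have h6 : 16385 / η ^ 2 = 1 / η ^ 2 + 16384 / η ^ 2 := by ring
        rw [h6]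
        linarith
      have hn : (0:ℝ) ≤ n := Nat.cast_nonneg n
      exact mul_le_mul h3 (by nlinarith) (by positivity) (by positivity)
    have h3 := h1.trans h2
    rw [le_div_iff₀ (by positivity)]
    have hn : (0:ℝ) ≤ n := Nat.cast_nonneg n
    have h4 : 16385 / η ^ 2 * (3.15 * n) * η ^ 2 = 16385 * (3.15 * n) := by
      field_simp
    have h5 := mul_le_mul_of_nonneg_right h3 (show (0:ℝ) ≤ η ^ 2 by positivity)
    rw [h4] at h5
    have h6 : ((s.filter (St p)).card : ℝ) * (η / 5) * η ^ 2 =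
      ((s.filter (St p)).card : ℝ) * η ^ 3 / 5 := by ring
    rw [h6] at h5
    nlinarith
  have hwin : ∀ q ∈ N, ((s.filter (Wd q)).card : ℝ) ≤ 112002 * (n + 1) / η ^ 2 := by
    intro q _
    have hlog : 0 ≤ Real.log (512 / η) := by
      apply Real.log_nonneg
      rw [le_div_iff₀ hη]
      linarith
    have h1 := window_count hP hQ hσ hη hη1 (q := q.1) (v := q.2) hlog (s.filter (Wd q)) a γ T
      (fun C hC => hF C (Finset.mem_filter.1 hC).1) (fun C hC => h0 C (Finset.mem_filter.1 hC).1)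
      (fun C hC C' hC' => hdis C (Finset.mem_filter.1 hC).1 C' (Finset.mem_filter.1 hC').1)
      (fun C hC => by
        have := (Finset.mem_filter.1 hC).2
        rw [hWd] at this
        exact this.1)
      (fun C hC => by
        have := (Finset.mem_filter.1 hC).2
        rw [hWd] at this
        exact this.2.1)
      (fun C hC => by
        have := (Finset.mem_filter.1 hC).2
        rw [hWd] at this
        exact this.2.2)
    have h2 := log_bound hη hη1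
    have hn : (0:ℝ) ≤ n := Nat.cast_nonneg n
    have h3 : (2 * Real.log (512 / η) + 1) * (8000 * (n + 1)) ≤ 14 / η * (8000 * (n + 1)) :=
      mul_le_mul_of_nonneg_right h2 (by positivity)
    rw [le_div_iff₀ (by positivity)]
    have h4 : 14 / η * (8000 * (n + 1)) * η = 112000 * ((n : ℝ) + 1) := by
      field_simp
      ring
    have h5 := mul_le_mul_of_nonneg_right (h1.trans (add_le_add h3 le_rfl)) hη.le
    rw [add_mul, h4] at h5
    nlinarith
  -- summation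
  have hsum : (s.card : ℝ) ≤ ∑ p ∈ Z, ((s.filter (St p)).card : ℝ) +
      ∑ q ∈ N, ((s.filter (Wd q)).card : ℝ) := by
    have h1 := (Finset.card_le_card hcover).trans (Finset.card_union_le _ _)
    have h2 : (Z.biUnion fun p => s.filter (St p)).card ≤ ∑ p ∈ Z, (s.filter (St p)).card :=
      Finset.card_biUnion_le
    have h3 : (N.biUnion fun q => s.filter (Wd q)).card ≤ ∑ q ∈ N, (s.filter (Wd q)).card :=
      Finset.card_biUnion_le
    have h4 := h1.trans (add_le_add h2 h3)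
    exact_mod_cast h4
  have hZs : ∑ p ∈ Z, ((s.filter (St p)).card : ℝ) ≤ n ^ 2 * (270000 * n / η ^ 3) := by
    refine (Finset.sum_le_sum hstar).trans ?_
    rw [Finset.sum_const, nsmul_eq_mul]
    refine mul_le_mul_of_nonneg_right ?_ (by positivity)
    exact_mod_cast hZc
  have hNs : ∑ q ∈ N, ((s.filter (Wd q)).card : ℝ) ≤
      (100000 * (3231 * n ^ 2 / η)) * (112002 * (n + 1) / η ^ 2) := by
    refine (Finset.sum_le_sum hwin).trans ?_
    rw [Finset.sum_const, nsmul_eq_mul]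
    refine mul_le_mul_of_nonneg_right ?_ (by positivity)
    have h1 : (N.card : ℝ) ≤ 100000 * S.card := by exact_mod_cast hNc
    linarith
  refine (hsum.trans (add_le_add hZs hNs)).trans ?_
  have e1 : (n:ℝ) ^ 2 * (270000 * n / η ^ 3) = 270000 * (n ^ 2 * n) / η ^ 3 := by ring
  have e2 : (100000 * (3231 * (n:ℝ) ^ 2 / η)) * (112002 * (n + 1) / η ^ 2) =
      (100000 * 3231 * 112002) * (n ^ 2 * (n + 1)) / η ^ 3 := by
    field_simp
  rw [e1, e2, ← add_div, div_le_div_iff_of_pos_right (by positivity)]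
  have hn : (0:ℝ) ≤ n := Nat.cast_nonneg n
  have h1 : (0:ℝ) ≤ n ^ 2 * n := by positivity
  have h2 : (0:ℝ) ≤ (n:ℝ) ^ 2 := by positivity
  nlinarith

end Pool.Agent.K9h44.HS
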