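import Pool.Agent.K9h44.HS.A5

/-! Project HS (helper44): the number of closed orbits which survive a rotation. -/

open Real Set MeasureTheory Topology Filter
open scoped ENNReal

namespace Pool.Agent.K9h44.HS

open Pool.Agent.H709R2 (wedge rot field ClosedOrbit)
open Pool.Agent.H709U (rf Orb V W lg InBox Cl)
open Pool.Agent.W960.HP (Path Good PersG)

/-- members of the cut paths of different surviving closed orbits are disjoint -/
lemma cut_disjoint {X : ℝ → ℝ × ℝ → ℝ × ℝ} {η : ℝ} (hX : Good X η) (hη : 0 < η)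
    {a a' : ℝ → ℝ} {γ γ' : ℝ → ℝ → ℝ × ℝ} {T T' : ℝ → ℝ} (F : Path X η a γ T)
    (F' : Path X η a' γ' T') (hne : range (γ 0) ≠ range (γ' 0)) {τ τ' : ℝ}
    (hτ : τ ∈ Ico (0:ℝ) 1) (hτ' : τ' ∈ Ico (0:ℝ) 1) :
    Disjoint (range (γ τ)) (range (γ' τ')) := by
  rw [Set.disjoint_left]
  rintro z ⟨t, rfl⟩ ⟨t', ht'⟩
  have m : τ ∈ Icc (0:ℝ) 1 := ⟨hτ.1, hτ.2.le⟩
  have m' : τ' ∈ Icc (0:ℝ) 1 := ⟨hτ'.1, hτ'.2.le⟩
  obtain ⟨h1, h2⟩ := F.meet hX hη.le F' m m' ht'.symm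
  rcases hτ.1.eq_or_lt with h | h
  · rw [← h, F.a0] at h1
    rcases hτ'.1.eq_or_lt with h' | h'
    · rw [← h, ← h'] at h2
      exact hne h2
    · linarith [(F'.am τ' ⟨h', hτ'.2⟩).1]
  · rcases hτ'.1.eq_or_lt with h' | h'
    · rw [← h', F'.a0] at h1
      linarith [(F.am τ ⟨h, hτ.2⟩).1]
    · exact hne (ag X η a a' γ γ' T T' hX hη F F' τ ⟨h, hτ.2⟩ τ' ⟨h', hτ'.2⟩ h2)

/-- the count of the survivors of one direction, coprime components -/
theorem side_coprime {n : ℕ} {P Q : MvPolynomial (Fin 2) ℝ} (hP : P.totalDegree ≤ n)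
    (hQ : Q.totalDegree ≤ n) (hrel : IsRelPrime P Q) {σ η : ℝ} (hσ : σ = 1 ∨ σ = -1) (hη : 0 < η)
    (hη1 : η ≤ 1) (s : Finset (Set (ℝ × ℝ)))
    (hs : ∀ C ∈ s, PersG (field P Q) (fun _ _ => True) (σ * η) C) :
    (s.card : ℝ) ≤ 7 * 10 ^ 14 * n ^ 3 / η ^ 3 := by
  classical
  have hF2 : ContDiff ℝ 2 (field P Q) := H709R2.contDiff_field P Q
  have hπ := Real.pi_gt_three
  have hX : Good (fun a => rf (field P Q) (σ * a)) η := W960.HP.good_rf hF2 hσ (by linarith)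
  have hch : ∀ C : Set (ℝ × ℝ), ∃ (a : ℝ → ℝ) (γ : ℝ → ℝ → ℝ × ℝ) (T : ℝ → ℝ) (c : ℝ),
      C ∈ s → Path (fun a => rf (field P Q) (σ * a)) η a γ T ∧ C = range (γ 0) ∧
        c ∈ Ioo 0 1 ∧ a c = η / 2 ∧ ∀ τ ∈ Ico 0 c, a τ < η / 2 := by
    intro C
    by_cases h : C ∈ s
    · have h1 := hs C h
      rw [W960.HP.persG_iff hσ hη] at h1
      obtain ⟨a, γ, T, F, -, h2⟩ := h1
      obtain ⟨c, hc, hac, hl⟩ := F.exists_hit (b := η / 2) ⟨by linarith, by linarith⟩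
      exact ⟨a, γ, T, c, fun _ => ⟨F, h2, hc, hac, hl⟩⟩
    · exact ⟨fun _ => 0, fun _ _ => 0, fun _ => 0, 0, fun h' => absurd h' h⟩
  choose a γ T c hγ using hch
  have hm : ∀ C ∈ s, ∀ τ ∈ Icc (0:ℝ) 1, c C * τ ∈ Ico (0:ℝ) 1 := by
    intro C hC τ hτ
    obtain ⟨-, -, hc, -, -⟩ := hγ C hC
    exact ⟨mul_nonneg hc.1.le hτ.1, by nlinarith [hτ.2, hc.1, hc.2]⟩
  have h1 := core hP hQ hrel hσ (η := η / 2) (by linarith) (by linarith) s
    (fun C τ => a C (c C * τ)) (fun C τ => γ C (c C * τ)) (fun C τ => T C (c C * τ))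
    (fun C hC => by
      obtain ⟨F, -, hc, hac, hl⟩ := hγ C hC
      exact F.cut hc hac hl)
    (fun C hC => by
      obtain ⟨-, h0, -⟩ := hγ C hC
      simp only [mul_zero]
      exact h0)
    (fun C hC C' hC' hne τ hτ τ' hτ' => by
      obtain ⟨F, h0, -⟩ := hγ C hC
      obtain ⟨F', h0', -⟩ := hγ C' hC'
      exact cut_disjoint hX hη F F' (by rw [← h0, ← h0']; exact hne) (hm C hC τ hτ)
        (hm C' hC' τ' hτ'))
  refine h1.trans ?_
  have e1 : 4 * 10 ^ 13 * ((n:ℝ) ^ 2 * (n + 1)) / (η / 2) ^ 3 =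
      32 * 10 ^ 13 * ((n:ℝ) ^ 2 * (n + 1)) / η ^ 3 := by
    field_simp
    ring
  rw [e1, div_le_div_iff_of_pos_right (by positivity)]
  rcases Nat.eq_zero_or_pos n with hn | hn
  · rw [hn]; norm_num
  · have h2 : (1:ℝ) ≤ n := by exact_mod_cast hn
    have h3 : (n:ℝ) ^ 2 * (n + 1) ≤ 2 * n ^ 3 := by
      have h4 : (0:ℝ) ≤ (n:ℝ) ^ 2 := by positivity
      nlinarith
    nlinarith

/-- the field zero has no closed orbits -/
lemma no_closed_zero {C : Set (ℝ × ℝ)} : ¬ ClosedOrbit (field 0 0) C := by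
  rintro ⟨γ, T, -, hγ, -, ⟨s, t, hst⟩, -⟩
  apply hst
  have h : ∀ x, HasDerivAt γ 0 x := by
    intro x
    have h1 := hγ x
    have h2 : field 0 0 (γ x) = 0 := by
      unfold field
      ext <;> simp
    rwa [h2] at h1
  exact is_const_of_deriv_eq_zero (fun x => (h x).differentiableAt) (fun x => (h x).deriv) s t

/-- **the count of the survivors of one direction** -/
theorem side_all {n : ℕ} {P Q : MvPolynomial (Fin 2) ℝ} (hP : P.totalDegree ≤ n)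
    (hQ : Q.totalDegree ≤ n) {σ η : ℝ} (hσ : σ = 1 ∨ σ = -1) (hη : 0 < η) (hη1 : η ≤ 1) :
    (({C | PersG (field P Q) (fun _ _ => True) (σ * η) C}.encard : ℕ∞) : ℝ≥0∞) ≤
      ENNReal.ofReal (7 * 10 ^ 14 * n ^ 3 / η ^ 3) := by
  have hfin : ∀ s : Finset (Set (ℝ × ℝ)),
      (s : Set (Set (ℝ × ℝ))) ⊆ {C | PersG (field P Q) (fun _ _ => True) (σ * η) C} →
      (s.card : ℝ) * 1 ≤ 7 * 10 ^ 14 * n ^ 3 / η ^ 3 := by
    intro s hs
    rw [mul_one]
    by_cases hne : P ≠ 0 ∨ Q ≠ 0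
    · obtain ⟨h, P₁, Q₁, hP1, hQ1, hrel, hP₁, hQ₁⟩ := H709U.b1 n P Q hP hQ hne
      refine side_coprime hP₁ hQ₁ hrel hσ hη hη1 s fun C hC => ?_
      have h1 : PersG (field P Q) (fun _ _ => True) (σ * η) C := hs hC
      rw [hP1, hQ1] at h1
      exact rp h P₁ Q₁ (σ * η) C h1
    · push Not at hne
      have hempty : s = ∅ := by
        rw [Finset.eq_empty_iff_forall_notMem]
        intro C hC
        have h1 : PersG (field P Q) (fun _ _ => True) (σ * η) C := hs hC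
        rw [hne.1, hne.2] at h1
        rw [W960.HP.persG_iff hσ hη] at h1
        obtain ⟨a, γ, T, F, -, -⟩ := h1
        have h2 := F.closed (τ := 0) ⟨le_rfl, zero_le_one⟩
        rw [F.a0, mul_zero, W960.HP.rf_zero] at h2
        exact no_closed_zero h2
      rw [hempty]
      simp only [Finset.card_empty, Nat.cast_zero]
      positivity
  have h1 := N224.Hil.encard_of_fin (A := {C | PersG (field P Q) (fun _ _ => True) (σ * η) C})
    one_pos hfin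
  rwa [div_one] at h1

end Pool.Agent.K9h44.HS
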