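import Pool.Agent.K9h44.HS.A6

/-! Project HS (helper44): weighted sums over all closed orbits. -/

open Real Set MeasureTheory Topology Filter
open scoped ENNReal

namespace Pool.Agent.K9h44.HS

open Pool.Agent.H709R2 (wedge rot field ClosedOrbit)
open Pool.Agent.W960.HP (Path Good PersG persG_mono twoG_sides)

/-- `1 - 2 ^ (-κ) ≥ κ / 2` -/
lemma half_rpow_le {κ : ℝ} (h0 : 0 < κ) (h1 : κ ≤ 1) : ((1:ℝ) / 2) ^ κ ≤ 1 - κ / 2 := by
  have h := _root_.rpow_one_add_le_one_add_mul_self (s := -(1/2 : ℝ)) (by norm_num) h0.le h1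
  have e : (1:ℝ) + -(1 / 2) = 1 / 2 := by norm_num
  rw [e] at h
  linarith

lemma half_pow_rpow' (k : ℕ) (κ : ℝ) : (((1:ℝ) / 2) ^ k) ^ κ = (((1:ℝ) / 2) ^ κ) ^ k := by
  rw [← Real.rpow_natCast, ← Real.rpow_natCast, ← Real.rpow_mul (by norm_num),
    ← Real.rpow_mul (by norm_num), mul_comm]

/-- the powers of order `3 + κ` of the lengths are summable if the number of lengths larger than
`ε` is at most `K / ε³` -/
theorem sum_rpow3 {κ K : ℝ} (hκ0 : 0 < κ) (hκ1 : κ ≤ 1) (hK : 0 ≤ K) (p : Set (ℝ × ℝ) → ℝ≥0∞)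
    (s : Finset (Set (ℝ × ℝ))) (hp1 : ∀ C ∈ s, p C ≤ 1)
    (hp : ∀ ε : ℝ, 0 < ε → ε ≤ 1 →
      ({C | C ∈ s ∧ ENNReal.ofReal ε < p C}.encard : ℝ≥0∞) ≤ ENNReal.ofReal (K / ε ^ 3)) :
    ∑ C ∈ s, p C ^ (3 + κ) ≤ ENNReal.ofReal (16 * K / κ) := by
  classical
  have hκ' : 0 ≤ 3 + κ := by linarith
  have h1 : ∀ C ∈ s, p C ^ (3 + κ) ≤ ∑' k : ℕ, (if ENNReal.ofReal ((1/2) ^ (k + 1)) < p C then
      ENNReal.ofReal ((((1:ℝ)/2) ^ k) ^ (3 + κ)) else 0) := by
    intro C hC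
    rcases eq_or_ne (p C) 0 with h0 | h0
    · rw [h0, ENNReal.zero_rpow_of_pos (by linarith)]
      exact zero_le
    · have hfin : p C ≠ ⊤ := ne_top_of_le_ne_top ENNReal.one_ne_top (hp1 C hC)
      set x := (p C).toReal with hx
      have hx0 : 0 < x := ENNReal.toReal_pos h0 hfin
      have hx1 : x ≤ 1 := by
        have := ENNReal.toReal_mono ENNReal.one_ne_top (hp1 C hC)
        simpa using this
      have hpx : p C = ENNReal.ofReal x := (ENNReal.ofReal_toReal hfin).symm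
      obtain ⟨k, hk1, hk2⟩ := exists_nat_pow_near_of_lt_one hx0 hx1 (y := 1/2) (by norm_num)
        (by norm_num)
      refine le_trans ?_ (ENNReal.le_tsum k)
      rw [if_pos, hpx, ENNReal.ofReal_rpow_of_nonneg hx0.le hκ']
      · apply ENNReal.ofReal_le_ofReal
        exact Real.rpow_le_rpow hx0.le hk2 hκ'
      · rw [hpx, ENNReal.ofReal_lt_ofReal_iff hx0]
        exact hk1
  obtain ⟨ρ, hρ⟩ : ∃ ρ : ℝ, ρ = ((1:ℝ) / 2) ^ κ := ⟨_, rfl⟩
  have hρ0 : 0 < ρ := by rw [hρ]; positivity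
  have hρ1 : ρ ≤ 1 - κ / 2 := by rw [hρ]; exact half_rpow_le hκ0 hκ1
  calc ∑ C ∈ s, p C ^ (3 + κ) ≤
        ∑ C ∈ s, ∑' k : ℕ, (if ENNReal.ofReal ((1/2) ^ (k + 1)) < p C then
        ENNReal.ofReal ((((1:ℝ)/2) ^ k) ^ (3 + κ)) else 0) := Finset.sum_le_sum h1
    _ = ∑' k : ℕ, ∑ C ∈ s, (if ENNReal.ofReal ((1/2) ^ (k + 1)) < p C then
        ENNReal.ofReal ((((1:ℝ)/2) ^ k) ^ (3 + κ)) else 0) := by
        rw [← (Summable.tsum_finsetSum fun _ _ => ENNReal.summable)]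
    _ ≤ ∑' k : ℕ, ENNReal.ofReal (8 * K * ρ ^ k) := by
        refine ENNReal.tsum_le_tsum fun k => ?_
        have hε0 : (0:ℝ) < (1/2) ^ (k + 1) := by positivity
        have hε1 : ((1:ℝ)/2) ^ (k + 1) ≤ 1 := pow_le_one₀ (by norm_num) (by norm_num)
        have h2 := hp _ hε0 hε1
        have h3 : ∑ C ∈ s, (if ENNReal.ofReal ((1/2) ^ (k + 1)) < p C then
            ENNReal.ofReal ((((1:ℝ)/2) ^ k) ^ (3 + κ)) else 0) =
            ((s.filter fun C => ENNReal.ofReal ((1/2) ^ (k + 1)) < p C).card : ℝ≥0∞) *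
              ENNReal.ofReal ((((1:ℝ)/2) ^ k) ^ (3 + κ)) := by
          rw [← Finset.sum_filter, Finset.sum_const, nsmul_eq_mul]
        rw [h3]
        have h4 : ((s.filter fun C => ENNReal.ofReal ((1/2) ^ (k + 1)) < p C).card : ℝ≥0∞) ≤
            ENNReal.ofReal (K / (((1:ℝ)/2) ^ (k + 1)) ^ 3) := by
          refine le_trans ?_ h2
          have h5 : ((s.filter fun C => ENNReal.ofReal ((1/2) ^ (k + 1)) < p C).card : ℕ∞) =
              {C | C ∈ s ∧ ENNReal.ofReal ((1/2) ^ (k + 1)) < p C}.encard := by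
            rw [← Set.encard_coe_eq_coe_finsetCard]
            congr 1
            ext C
            simp
          have h6 := congrArg (fun x : ℕ∞ => (x : ℝ≥0∞)) h5
          simpa using h6.le
        refine (mul_le_mul' h4 le_rfl).trans ?_
        rw [← ENNReal.ofReal_mul (by positivity)]
        apply ENNReal.ofReal_le_ofReal
        apply le_of_eq
        rw [Real.rpow_add (by positivity), half_pow_rpow' k κ, ← hρ]
        have h5 : ((((1:ℝ) / 2) ^ k) ^ (3:ℝ)) = (((1:ℝ) / 2) ^ k) ^ 3 := by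
          rw [show (3:ℝ) = ((3:ℕ) : ℝ) by norm_num, Real.rpow_natCast]
        have h6 : ((1:ℝ) / 2) ^ (k + 1) = (1 / 2) ^ k * (1 / 2) := pow_succ _ _
        have h7 : (0:ℝ) < (1 / 2) ^ k := by positivity
        rw [h5, h6]
        generalize ((1:ℝ) / 2) ^ k = x at h7 ⊢
        field_simp
        norm_num
    _ = ENNReal.ofReal (8 * K * (1 - ρ)⁻¹) := by
        have hs : HasSum (fun k : ℕ => 8 * K * ρ ^ k) (8 * K * (1 - ρ)⁻¹) :=
          (hasSum_geometric_of_lt_one hρ0.le (by linarith)).mul_left _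
        rw [← ENNReal.ofReal_tsum_of_nonneg (fun k => by positivity) hs.summable, hs.tsum_eq]
    _ ≤ ENNReal.ofReal (16 * K / κ) := by
        apply ENNReal.ofReal_le_ofReal
        have h2 : (1 - ρ)⁻¹ ≤ 2 / κ := by
          rw [inv_le_comm₀ (by linarith) (by positivity), inv_div]
          linarith
        calc 8 * K * (1 - ρ)⁻¹ ≤ 8 * K * (2 / κ) := mul_le_mul_of_nonneg_left h2 (by positivity)
          _ = 16 * K / κ := by ring

/-- one-sided sums -/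
theorem side_rpow3 {n : ℕ} {P Q : MvPolynomial (Fin 2) ℝ} (hP : P.totalDegree ≤ n)
    (hQ : Q.totalDegree ≤ n) {κ : ℝ} (hκ0 : 0 < κ) (hκ1 : κ ≤ 1) {σ : ℝ} (hσ : σ = 1 ∨ σ = -1)
    (s : Finset (Set (ℝ × ℝ))) :
    ∑ C ∈ s, volume {η | η ∈ Ioo 0 1 ∧ PersG (field P Q) (fun _ _ => True) (σ * η) C} ^ (3 + κ) ≤
      ENNReal.ofReal (16 * (7 * 10 ^ 14 * n ^ 3) / κ) := by
  refine sum_rpow3 hκ0 hκ1 (by positivity)
    (fun C => volume {η | η ∈ Ioo 0 1 ∧ PersG (field P Q) (fun _ _ => True) (σ * η) C}) s ?_ ?_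
  · intro C _
    refine (measure_mono (show {η | η ∈ Ioo 0 1 ∧
      PersG (field P Q) (fun _ _ => True) (σ * η) C} ⊆ Ioo 0 1 from fun η hη => hη.1)).trans ?_
    rw [Real.volume_Ioo]
    simp
  · intro ε hε hε1
    refine le_trans (ENat.toENNReal_le.2 (encard_le_encard ?_)) (side_all hP hQ hσ hε hε1)
    rintro C ⟨-, hC⟩
    -- some angle beyond `ε` is reached
    by_contra hcon
    have h1 : {η | η ∈ Ioo 0 1 ∧ PersG (field P Q) (fun _ _ => True) (σ * η) C} ⊆ Ioo 0 ε := by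
      rintro η ⟨h2, h3⟩
      refine ⟨h2.1, ?_⟩
      by_contra h4
      exact hcon (persG_mono hσ hε (not_lt.1 h4) h3)
    have h2 := measure_mono (μ := (volume : Measure ℝ)) h1
    rw [Real.volume_Ioo, sub_zero] at h2
    exact absurd hC (not_lt.2 h2)

/-- **weighted sums over all closed orbits** -/
theorem weighted {n : ℕ} {P Q : MvPolynomial (Fin 2) ℝ} (hP : P.totalDegree ≤ n)
    (hQ : Q.totalDegree ≤ n) {κ : ℝ} (hκ0 : 0 < κ) (hκ1 : κ ≤ 1) (S : Set (Set (ℝ × ℝ))) :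
    ∑' C : S, volume {η | η ∈ Ioo (-1) 1 ∧ PersG (field P Q) (fun _ _ => True) η C} ^ (3 + κ) ≤
      ENNReal.ofReal (2 * 10 ^ 17 * n ^ 3 / κ) := by
  classical
  rw [ENNReal.tsum_eq_iSup_sum]
  refine iSup_le fun s => ?_
  have hpw : ∀ x y : ℝ≥0∞, (x + y) ^ (3 + κ) ≤ 8 * (x ^ (3 + κ) + y ^ (3 + κ)) := by
    intro x y
    have h := ENNReal.rpow_add_le_mul_rpow_add_rpow x y (p := 3 + κ) (by linarith)
    refine h.trans (mul_le_mul' ?_ le_rfl)
    calc (2 : ℝ≥0∞) ^ (3 + κ - 1) ≤ 2 ^ (3:ℝ) :=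
          ENNReal.rpow_le_rpow_of_exponent_le (by norm_num) (by linarith)
      _ = 8 := by
          rw [show (3:ℝ) = ((3:ℕ) : ℝ) by norm_num, ENNReal.rpow_natCast]
          norm_num
  calc ∑ C ∈ s, volume {η | η ∈ Ioo (-1) 1 ∧ PersG (field P Q) (fun _ _ => True) η C} ^ (3 + κ)
      = ∑ C ∈ s.map (Function.Embedding.subtype _),
          volume {η | η ∈ Ioo (-1) 1 ∧ PersG (field P Q) (fun _ _ => True) η C} ^ (3 + κ) := by
        rw [Finset.sum_map]
        rfl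
    _ ≤ ∑ C ∈ s.map (Function.Embedding.subtype _),
        8 * (volume {η | η ∈ Ioo 0 1 ∧ PersG (field P Q) (fun _ _ => True) (1 * η) C} ^ (3 + κ) +
        volume {η | η ∈ Ioo 0 1 ∧ PersG (field P Q) (fun _ _ => True) (-1 * η) C} ^ (3 + κ)) :=
        Finset.sum_le_sum fun C _ =>
          (ENNReal.rpow_le_rpow (twoG_sides _ (fun _ _ => True) 1 C) (by linarith)).trans (hpw _ _)
    _ ≤ 8 * (ENNReal.ofReal (16 * (7 * 10 ^ 14 * n ^ 3) / κ) +
          ENNReal.ofReal (16 * (7 * 10 ^ 14 * n ^ 3) / κ)) := by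
        rw [← Finset.mul_sum, Finset.sum_add_distrib]
        exact mul_le_mul' le_rfl (add_le_add (side_rpow3 hP hQ hκ0 hκ1 (Or.inl rfl) _)
          (side_rpow3 hP hQ hκ0 hκ1 (Or.inr rfl) _))
    _ ≤ ENNReal.ofReal (2 * 10 ^ 17 * n ^ 3 / κ) := by
        rw [← ENNReal.ofReal_add (by positivity) (by positivity),
          show (8 : ℝ≥0∞) = ENNReal.ofReal 8 by simp, ← ENNReal.ofReal_mul (by norm_num)]
        apply ENNReal.ofReal_le_ofReal
        rw [← add_div, mul_div_assoc']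
        refine div_le_div_of_nonneg_right ?_ (by positivity)
        have : (0:ℝ) ≤ (n : ℝ) ^ 3 := by positivity
        nlinarith

end Pool.Agent.K9h44.HS
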