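import Pool.Agent.K9h44.HS.Stm

/-! Project HS (helper44): the members of a path of closed orbits which enclose a common point are
nested monotonically. -/

open Real Set MeasureTheory Topology Filter

namespace Pool.Agent.K9h44.HS

open Pool.Agent.W960.HP (Path Good)
open Pool.Agent.N224.Hil (Loop wn ins fill w1 w2 w3 w4 allTT)
open Pool.Agent.N224.Hil.P (const_of_int)

section

variable {X : ℝ → ℝ × ℝ → ℝ × ℝ} {η : ℝ} {a : ℝ → ℝ} {γ : ℝ → ℝ → ℝ × ℝ} {T : ℝ → ℝ}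

lemma path_cont (F : Path X η a γ T) {τ : ℝ} (hτ : τ ∈ Icc (0:ℝ) 1) : Continuous (γ τ) :=
  continuous_iff_continuousAt.2 fun t => (F.ode τ hτ t).continuousAt

lemma path_loop (hX : Good X η) (F : Path X η a γ T) {τ : ℝ} (hτ : τ ∈ Icc (0:ℝ) 1) :
    Loop (γ τ) (fun t => X (a τ) (γ τ t)) (T τ) :=
  ⟨F.pos τ hτ, F.ode τ hτ, (hX.smooth (a τ)).continuous.comp (path_cont F hτ), F.per τ hτ⟩

/-- different members are disjoint -/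
lemma path_off (hX : Good X η) (hη : 0 ≤ η) (F : Path X η a γ T) {τ τ' : ℝ}
    (hτ : τ ∈ Icc (0:ℝ) 1) (hτ' : τ' ∈ Icc (0:ℝ) 1) (hne : τ ≠ τ') (s : ℝ) :
    γ τ' s ∉ range (γ τ) := by
  rintro ⟨s', h⟩
  exact hne (F.inj τ hτ τ' hτ' (F.meet hX hη F hτ hτ' h).2)

/-- the winding number about a fixed point is constant along the path -/
lemma path_wn_const (hX : Good X η) (F : Path X η a γ T) {S : Set ℝ} (hS : IsPreconnected S)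
    {z : ℝ × ℝ} (hSz : ∀ τ ∈ S, τ ∈ Icc (0:ℝ) 1 ∧ z ∉ range (γ τ)) {τ τ' : ℝ} (hτ : τ ∈ S)
    (hτ' : τ' ∈ S) : wn (γ τ) (fun t => X (a τ) (γ τ t)) (T τ) z =
      wn (γ τ') (fun t => X (a τ') (γ τ' t)) (T τ') z := by
  have hVc : ContinuousOn (fun q : ℝ × ℝ => X (a q.1) (γ q.1 q.2)) (Icc 0 1 ×ˢ univ) := by
    have h3 : ContinuousOn (fun q : ℝ × ℝ => ((a q.1, γ q.1 q.2) : ℝ × (ℝ × ℝ)))
        (Icc 0 1 ×ˢ univ) :=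
      (F.conta.comp continuousOn_fst fun q hq => hq.1).prodMk F.cont
    exact hX.cont.comp_continuousOn h3
  have hW := w4 γ (fun τ t => X (a τ) (γ τ t)) T (fun τ hτ => path_loop hX F hτ) F.cont hVc F.contT
  have h5 : ContinuousOn (fun τ : ℝ => ((τ, z) : ℝ × (ℝ × ℝ))) S := by fun_prop
  have h6 : ContinuousOn (fun τ => wn (γ τ) (fun t => X (a τ) (γ τ t)) (T τ) z) S :=
    ContinuousOn.comp (f := fun τ : ℝ => ((τ, z) : ℝ × (ℝ × ℝ)))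
      (g := fun q : ℝ × (ℝ × ℝ) => wn (γ q.1) (fun t => X (a q.1) (γ q.1 t)) (T q.1) q.2) hW h5 hSz
  exact const_of_int (f := fun τ => wn (γ τ) (fun t => X (a τ) (γ τ t)) (T τ) z) hS h6
    (fun τ hτ => w1 _ _ _ (path_loop hX F (hSz τ hτ).1) _ (hSz τ hτ).2) hτ hτ'

/-- the winding number of a loop is constant on a connected set which it does not meet -/
lemma loop_wn_const {g V : ℝ → ℝ × ℝ} {S : ℝ} (hL : Loop g V S) {A : Set (ℝ × ℝ)}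
    (hA : IsPreconnected A) (hd : ∀ z ∈ A, z ∉ range g) {x y : ℝ × ℝ} (hx : x ∈ A) (hy : y ∈ A) :
    wn g V S x = wn g V S y :=
  const_of_int hA ((w2 _ _ _ hL).mono hd) (fun z hz => w1 _ _ _ hL z (hd z hz)) hx hy

/-- the winding numbers of a member about the points of the others -/
lemma path_row (hX : Good X η) (hη : 0 ≤ η) (F : Path X η a γ T) {σ : ℝ} (hσ : σ ∈ Icc (0:ℝ) 1)
    {S : Set ℝ} (hS : IsPreconnected S) (hSI : S ⊆ Icc (0:ℝ) 1) (hσS : σ ∉ S) {τ τ' : ℝ}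
    (hτ : τ ∈ S) (hτ' : τ' ∈ S) (s s' : ℝ) :
    wn (γ σ) (fun t => X (a σ) (γ σ t)) (T σ) (γ τ s) =
      wn (γ σ) (fun t => X (a σ) (γ σ t)) (T σ) (γ τ' s') := by
  have hc : ContinuousOn (fun q : ℝ × ℝ => γ q.1 q.2) (S ×ˢ (univ : Set ℝ)) :=
    F.cont.mono (prod_mono hSI le_rfl)
  have hA : IsPreconnected ((fun q : ℝ × ℝ => γ q.1 q.2) '' (S ×ˢ (univ : Set ℝ))) :=
    (hS.prod isPreconnected_univ).image _ hc
  refine loop_wn_const (path_loop hX F hσ) hA ?_ ⟨(τ, s), ⟨hτ, mem_univ _⟩, rfl⟩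
    ⟨(τ', s'), ⟨hτ', mem_univ _⟩, rfl⟩
  rintro _ ⟨⟨x, y⟩, ⟨hx, -⟩, rfl⟩
  exact path_off hX hη F hσ (hSI hx) (fun h => hσS (h ▸ hx)) y

end

theorem nest : S_NEST := by
  intro X η a γ T hX hη F p hp hp0 τ₀ hτ₀ τ hτ τ₁ hτ₁ h0 h1 z hz
  have hη0 := hη.le
  have h01 : τ₀ < τ₁ := h0.trans h1
  obtain ⟨s, rfl⟩ := hz
  have hpw : ∀ σ ∈ Icc (0:ℝ) 1, wn (γ σ) (fun t => X (a σ) (γ σ t)) (T σ) p ≠ 0 := by
    intro σ hσ
    rw [path_wn_const hX F (isPreconnected_Icc (a := (0:ℝ)) (b := 1))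
      (fun σ hσ => ⟨hσ, hp σ hσ⟩) hσ ⟨le_rfl, zero_le_one⟩]
    exact hp0
  have hpf : ∀ σ ∈ Icc (0:ℝ) 1, p ∈ fill (γ σ) (fun t => X (a σ) (γ σ t)) (T σ) := fun σ hσ =>
    Or.inr ⟨hp σ hσ, hpw σ hσ⟩
  have hdis : Disjoint (range (γ τ₀)) (range (γ τ₁)) := by
    rw [Set.disjoint_left]
    rintro _ ⟨s, rfl⟩
    exact path_off hX hη0 F hτ₁ hτ₀ h01.ne' s
  -- the constant winding numbers
  have hA1 : wn (γ τ₀) (fun t => X (a τ₀) (γ τ₀ t)) (T τ₀) (γ τ s) =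
      wn (γ τ₀) (fun t => X (a τ₀) (γ τ₀ t)) (T τ₀) (γ τ₁ 0) :=
    path_row hX hη0 F hτ₀ (S := Ioc τ₀ 1) isPreconnected_Ioc
      (fun x hx => ⟨hτ₀.1.trans hx.1.le, hx.2⟩) (fun h => lt_irrefl _ h.1) ⟨h0, hτ.2⟩
      ⟨h01, hτ₁.2⟩ s 0
  have hB1 : wn (γ τ₁) (fun t => X (a τ₁) (γ τ₁ t)) (T τ₁) (γ τ s) =
      wn (γ τ₁) (fun t => X (a τ₁) (γ τ₁ t)) (T τ₁) (γ τ₀ 0) :=
    path_row hX hη0 F hτ₁ (S := Ico 0 τ₁) isPreconnected_Ico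
      (fun x hx => ⟨hx.1, hx.2.le.trans hτ₁.2⟩) (fun h => lt_irrefl _ h.2) ⟨hτ.1, h1⟩
      ⟨hτ₀.1, h01⟩ s 0
  have n0 := path_off hX hη0 F hτ₀ hτ h0.ne s
  have n1 := path_off hX hη0 F hτ₁ hτ h1.ne' s
  rcases allTT _ _ _ _ _ _ (path_loop hX F hτ₀) (path_loop hX F hτ₁) hdis with h | h | h
  · right
    have e1 : γ τ₀ 0 ∈ ins (γ τ₁) (fun t => X (a τ₁) (γ τ₁ t)) (T τ₁) := h (Or.inl ⟨0, rfl⟩)
    refine ⟨⟨n1, by rw [hB1]; exact e1.2⟩, ?_⟩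
    rintro (h2 | h2)
    · exact n0 h2
    · have h3 := h2.2
      rw [hA1] at h3
      have h4 : γ τ₁ 0 ∈ fill (γ τ₀) (fun t => X (a τ₀) (γ τ₀ t)) (T τ₀) :=
        Or.inr ⟨path_off hX hη0 F hτ₀ hτ₁ h01.ne 0, h3⟩
      exact (h h4).1 ⟨0, rfl⟩
  · left
    have e1 : γ τ₁ 0 ∈ ins (γ τ₀) (fun t => X (a τ₀) (γ τ₀ t)) (T τ₀) := h (Or.inl ⟨0, rfl⟩)
    refine ⟨⟨n0, by rw [hA1]; exact e1.2⟩, ?_⟩
    rintro (h2 | h2)
    · exact n1 h2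
    · have h3 := h2.2
      rw [hB1] at h3
      have h4 : γ τ₀ 0 ∈ fill (γ τ₁) (fun t => X (a τ₁) (γ τ₁ t)) (T τ₁) :=
        Or.inr ⟨path_off hX hη0 F hτ₁ hτ₀ h01.ne' 0, h3⟩
      exact (h h4).1 ⟨0, rfl⟩
  · exact absurd (hpf τ₁ hτ₁) (Set.disjoint_left.1 h (hpf τ₀ hτ₀))

end Pool.Agent.K9h44.HS
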