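import Pool.Agent.N224.Hil.All

/-! Project HS (helper44): the number of closed orbits, of any size and shape, of a polynomial vector
field of degree `n` which survive a rotation of the field by `η` is at most a constant times
`n³ / η³`. Definitions and statements of the parts. -/

open Real Set MeasureTheory Topology Filter
open scoped ENNReal

namespace Pool.Agent.K9h44.HS

noncomputable section

open Pool.Agent.H709R2 (rot wedge field ClosedOrbit)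
open Pool.Agent.H709U (rf Orb V W)
open Pool.Agent.N224.Hil (Loop wn ins fill e2)
open Pool.Agent.W960.HP (Path Good PersG)

/-- evaluation of a polynomial in two variables at a point of the plane -/
def ev (A : MvPolynomial (Fin 2) ℝ) (z : ℝ × ℝ) : ℝ := MvPolynomial.eval ![z.1, z.2] A

/-- the level polynomial: it vanishes where the field `(P, Q)` is parallel to `exp (-i c)` -/
def Lv (P Q : MvPolynomial (Fin 2) ℝ) (c : ℝ) : MvPolynomial (Fin 2) ℝ :=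
  MvPolynomial.C (sin c) * P + MvPolynomial.C (cos c) * Q

/-- the derivative of the level polynomial in the direction `exp (i (a - c))` -/
def DLv (P Q : MvPolynomial (Fin 2) ℝ) (c a : ℝ) : MvPolynomial (Fin 2) ℝ :=
  MvPolynomial.C (cos (a - c)) * MvPolynomial.pderiv 0 (Lv P Q c) +
    MvPolynomial.C (sin (a - c)) * MvPolynomial.pderiv 1 (Lv P Q c)

/-! ### leaves -/

/-- GL: generic levels and angles. Levels `c i` in given intervals and two angles in given intervals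
such that every level polynomial has at most `n²` common zeros with its two derivatives -/
def S_GL : Prop := ∀ (n : ℕ) (P Q : MvPolynomial (Fin 2) ℝ), P.totalDegree ≤ n →
  Q.totalDegree ≤ n → IsRelPrime P Q → ∀ (M : ℕ) (I : Fin M → ℝ × ℝ) (A : Fin 2 → ℝ × ℝ),
  (∀ i, (I i).1 < (I i).2) → (∀ j, (A j).1 < (A j).2) →
  ∃ (c : Fin M → ℝ) (a : Fin 2 → ℝ) (B : Finset (ℝ × ℝ)),
    (∀ i, c i ∈ Ioo (I i).1 (I i).2) ∧ (∀ j, a j ∈ Ioo (A j).1 (A j).2) ∧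
    B.card ≤ 2 * M * n ^ 2 ∧
    ∀ i j z, ev (Lv P Q (c i)) z = 0 → ev (DLv P Q (c i) (a j)) z = 0 → z ∈ B

/-- NET: for every finite set `S` in the plane there are at most `10⁵ |S|` pairs of a point of `S` and
a scale which capture all distances between points of `S` -/
def S_NET : Prop := ∀ S : Finset (ℝ × ℝ), ∃ N : Finset ((ℝ × ℝ) × ℝ), N.card ≤ 100000 * S.card ∧
  (∀ q ∈ N, q.1 ∈ S) ∧ ∀ p ∈ S, ∀ s ∈ S, p ≠ s →
    ∃ q ∈ N, e2 q.1 p ≤ e2 s p / 8 ∧ |q.2 - Real.log (e2 s p)| ≤ Real.log 8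

/-- EZ: a closed orbit encloses a zero of the field -/
def S_EZ : Prop := ∀ (P Q : MvPolynomial (Fin 2) ℝ) (α : ℝ) (γ : ℝ → ℝ × ℝ) (T : ℝ),
  Orb (rf (field P Q) α) γ T →
  ∃ p, field P Q p = 0 ∧ p ∈ ins γ (fun t => rf (field P Q) α (γ t)) T

/-- RP: a common factor of the two components is a change of time -/
def S_RP : Prop := ∀ (h P₁ Q₁ : MvPolynomial (Fin 2) ℝ) (η : ℝ) (C : Set (ℝ × ℝ)),
  PersG (field (h * P₁) (h * Q₁)) (fun _ _ => True) η C →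
  PersG (field P₁ Q₁) (fun _ _ => True) η C

/-- SIDE: the two sides of a simple closed curve -/
def S_SIDE : Prop := ∀ (γ V : ℝ → ℝ × ℝ) (T : ℝ), Loop γ V T → (∀ t, V t ≠ 0) →
  (∀ s t, γ s = γ t → ∃ k : ℤ, s = t + k * T) →
  ∃ kp km : ℝ, kp = km + 1 ∧ (kp = 0 ∨ km = 0) ∧
    (∀ z ∉ range γ, wn γ V T z = kp ∨ wn γ V T z = km) ∧
    ∀ t₀ κ : ℝ, 0 < κ → ∃ δ : ℝ, 0 < δ ∧ ∀ w : ℝ × ℝ, w ≠ 0 → √(H709R2.sq w) < δ →
      (κ * √(H709R2.sq w) ≤ wedge (V t₀) w → γ t₀ + w ∉ range γ ∧ wn γ V T (γ t₀ + w) = kp) ∧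
      (κ * √(H709R2.sq w) ≤ -wedge (V t₀) w → γ t₀ + w ∉ range γ ∧ wn γ V T (γ t₀ + w) = km)

/-- CR: a curve which always crosses a simple closed curve from the inside to the outside stays
outside after the first crossing -/
def S_CR : Prop := ∀ (γ V : ℝ → ℝ × ℝ) (T : ℝ), Loop γ V T → (∀ t, V t ≠ 0) →
  (∀ s t, γ s = γ t → ∃ k : ℤ, s = t + k * T) → ∀ ε : ℝ, (ε = 1 ∨ ε = -1) →
  (∃ z ∉ range γ, wn γ V T z = ε) → ∀ (l l' : ℝ → ℝ × ℝ) (α β : ℝ),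
  (∀ s ∈ Icc α β, HasDerivAt l (l' s) s) →
  (∀ s ∈ Icc α β, ∀ t, l s = γ t → ε * wedge (V t) (l' s) < 0) →
  ∀ s s', α ≤ s → s < s' → s' ≤ β → l s ∉ ins γ V T → l s' ∉ fill γ V T

/-- ARC: an arc of a level curve in a compact set, from boundary point to boundary point -/
def S_ARC : Prop := ∀ (G : ℝ × ℝ → ℝ × ℝ) (L : ℝ × ℝ → ℝ), ContDiff ℝ 1 G → ContDiff ℝ 1 L →
  (∀ z, fderiv ℝ L z (G z) = 0) → ∀ K : Set (ℝ × ℝ), IsCompact K → ∀ z ∈ K, L z = 0 →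
  ∀ e : ℝ × ℝ, (∀ z ∈ K, L z = 0 → wedge (G z) e ≠ 0) →
  ∃ (α β : ℝ) (l : ℝ → ℝ × ℝ), α ≤ 0 ∧ 0 ≤ β ∧ l 0 = z ∧
    (∀ s ∈ Icc α β, HasDerivAt l (G (l s)) s ∧ l s ∈ K ∧ L (l s) = 0) ∧
    l α ∈ frontier K ∧ l β ∈ frontier K

/-- TH: level curves pass through the annulus -/
def S_TH : Prop := ∀ (P Q : MvPolynomial (Fin 2) ℝ) (p : ℝ × ℝ) (r₁ r₂ ρ c : ℝ) (a : Fin 2 → ℝ)
  (γ : Fin 2 → ℝ → ℝ × ℝ) (T : Fin 2 → ℝ) (ε : ℝ), 0 < r₁ → r₁ < ρ → ρ < r₂ → (ε = 1 ∨ ε = -1) →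
  (∀ j, Orb (rf (field P Q) (a j)) (γ j) (T j)) →
  (∀ j t, ρ ^ 2 ≤ H709R2.sq (γ j t - p) ∧ H709R2.sq (γ j t - p) < r₂ ^ 2) →
  (∀ j, wn (γ j) (fun t => rf (field P Q) (a j) (γ j t)) (T j) p = ε) →
  (∀ z, r₁ ^ 2 ≤ H709R2.sq (z - p) → H709R2.sq (z - p) ≤ r₂ ^ 2 → ev (Lv P Q c) z = 0 →
    field P Q z ≠ 0 ∧ ∀ j, ev (DLv P Q c (a j)) z ≠ 0) →
  ∀ z, ρ ^ 2 ≤ H709R2.sq (z - p) → ev (Lv P Q c) z = 0 →
    (∃ o i : Fin 2, z ∈ ins (γ o) (fun t => rf (field P Q) (a o) (γ o t)) (T o) ∧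
      z ∉ fill (γ i) (fun t => rf (field P Q) (a i) (γ i t)) (T i)) →
    ∀ j, -(r₁ * √(H709R2.sq (field P Q z))) ≤ ε * wedge (z - p) (rf (field P Q) (a j) z)

/-- CVX: a closed orbit which is star-shaped at the level points is star-shaped -/
def S_CVX : Prop := ∀ (P Q : MvPolynomial (Fin 2) ℝ) (p : ℝ × ℝ) (α ε s δ : ℝ) (M : ℕ)
  (c : Fin M → ℝ) (γ : ℝ → ℝ × ℝ) (T : ℝ), (ε = 1 ∨ ε = -1) → 0 < s → s ≤ 1 → 0 < δ →
  δ ≤ s / 8 → (∀ θ : ℝ, ∃ i, ∃ k : ℤ, θ < c i + k * π ∧ c i + k * π < θ + δ) →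
  Orb (rf (field P Q) α) γ T → (∀ t, γ t ≠ p) →
  (∀ t i, ev (Lv P Q (c i)) (γ t) = 0 →
    s * (√(H709R2.sq (γ t - p)) * √(H709R2.sq (field P Q (γ t)))) ≤ ε * V (field P Q) p α (γ t)) →
  ∀ t, (s / 2) * |W (field P Q) p α (γ t)| ≤ ε * V (field P Q) p α (γ t) ∧
    0 < ε * V (field P Q) p α (γ t)

/-! ### paths -/

/-- AG: two paths with a common interior member have the same first member -/
def S_AG : Prop := ∀ (X : ℝ → ℝ × ℝ → ℝ × ℝ) (η : ℝ) (a a' : ℝ → ℝ) (γ γ' : ℝ → ℝ → ℝ × ℝ)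
  (T T' : ℝ → ℝ), Good X η → 0 < η → Path X η a γ T → Path X η a' γ' T' →
  ∀ τ ∈ Ioo (0:ℝ) 1, ∀ τ' ∈ Ioo (0:ℝ) 1, range (γ τ) = range (γ' τ') →
    range (γ 0) = range (γ' 0)

/-- NEST: the members of a path are nested monotonically if they enclose a common point -/
def S_NEST : Prop := ∀ (X : ℝ → ℝ × ℝ → ℝ × ℝ) (η : ℝ) (a : ℝ → ℝ) (γ : ℝ → ℝ → ℝ × ℝ) (T : ℝ → ℝ),
  Good X η → 0 < η → Path X η a γ T → ∀ p : ℝ × ℝ, (∀ τ ∈ Icc (0:ℝ) 1, p ∉ range (γ τ)) →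
  wn (γ 0) (fun t => X (a 0) (γ 0 t)) (T 0) p ≠ 0 →
  ∀ τ₀ ∈ Icc (0:ℝ) 1, ∀ τ ∈ Icc (0:ℝ) 1, ∀ τ₁ ∈ Icc (0:ℝ) 1, τ₀ < τ → τ < τ₁ →
  ∀ z ∈ range (γ τ),
    (z ∈ ins (γ τ₀) (fun t => X (a τ₀) (γ τ₀ t)) (T τ₀) ∧
      z ∉ fill (γ τ₁) (fun t => X (a τ₁) (γ τ₁ t)) (T τ₁)) ∨
    (z ∈ ins (γ τ₁) (fun t => X (a τ₁) (γ τ₁ t)) (T τ₁) ∧
      z ∉ fill (γ τ₀) (fun t => X (a τ₀) (γ τ₀ t)) (T τ₀))

end

end Pool.Agent.K9h44.HS
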