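import Pool.Agent.K9h44.HS.NEST

/-! Project HS (helper44): level curves pass through the annulus. -/

open Real Set MeasureTheory Topology Filter

namespace Pool.Agent.K9h44.HS

open Pool.Agent.H709R2 (wedge rot field)
open Pool.Agent.H709U (rf Orb)
open Pool.Agent.N224.Hil (Loop wn ins fill w1 w2 w3 w4 allT0)

lemma sq_nn (z : ℝ × ℝ) : 0 ≤ H709R2.sq z := by unfold H709R2.sq; positivity

lemma sq_cont (p : ℝ × ℝ) : Continuous fun z : ℝ × ℝ => H709R2.sq (z - p) := by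
  unfold H709R2.sq
  fun_prop

lemma sq_pos_of_ne {z : ℝ × ℝ} (h : z ≠ 0) : 0 < H709R2.sq z := by
  rcases (sq_nn z).lt_or_eq with h1 | h1
  · exact h1
  · exfalso
    unfold H709R2.sq at h1
    have h2 : z.1 = 0 := by nlinarith [sq_nonneg z.1, sq_nonneg z.2]
    have h3 : z.2 = 0 := by nlinarith [sq_nonneg z.1, sq_nonneg z.2]
    exact h (Prod.ext h2 h3)

/-- the open disc around an enclosed point which the loop does not meet is enclosed -/
lemma disc_ins {g V : ℝ → ℝ × ℝ} {S : ℝ} (hL : Loop g V S) {p : ℝ × ℝ} {ρ : ℝ}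
    (hd : ∀ t, ρ ^ 2 ≤ H709R2.sq (g t - p)) (hp : wn g V S p ≠ 0) {w : ℝ × ℝ}
    (hw : H709R2.sq (w - p) < ρ ^ 2) : w ∈ ins g V S := by
  have hoff : ∀ z : ℝ × ℝ, H709R2.sq (z - p) < ρ ^ 2 → z ∉ range g := by
    rintro z hz ⟨t, rfl⟩
    exact absurd (hd t) (not_le.2 hz)
  have hseg : ∀ t ∈ Icc (0:ℝ) 1, H709R2.sq (p + t • (w - p) - p) < ρ ^ 2 := by
    intro t ht
    have h1 : H709R2.sq (p + t • (w - p) - p) = t ^ 2 * H709R2.sq (w - p) := by
      unfold H709R2.sq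
      simp only [Prod.fst_sub, Prod.snd_sub, Prod.fst_add, Prod.snd_add, Prod.smul_fst,
        Prod.smul_snd, smul_eq_mul]
      ring
    rw [h1]
    have h2 : t ^ 2 ≤ 1 := by nlinarith [ht.1, ht.2]
    nlinarith [sq_nn (w - p)]
  have hA : IsPreconnected ((fun t : ℝ => p + t • (w - p)) '' Icc 0 1) :=
    isPreconnected_Icc.image _ (by fun_prop)
  have h1 : wn g V S w = wn g V S p := by
    refine loop_wn_const hL hA ?_ ⟨1, ⟨zero_le_one, le_rfl⟩, by simp⟩
      ⟨0, ⟨le_rfl, zero_le_one⟩, by simp⟩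
    rintro _ ⟨t, ht, rfl⟩
    exact hoff _ (hseg t ht)
  exact ⟨hoff w hw, by rw [h1]; exact hp⟩

/-- points outside a disc which contains the loop are not enclosed -/
lemma far_fill {g V : ℝ → ℝ × ℝ} {S : ℝ} (hL : Loop g V S) {p : ℝ × ℝ} {r : ℝ}
    (hd : ∀ t, H709R2.sq (g t - p) < r ^ 2) {w : ℝ × ℝ} (hw : r ^ 2 ≤ H709R2.sq (w - p)) :
    w ∉ fill g V S := by
  rintro (⟨t, rfl⟩ | h)
  · exact absurd hw (not_le.2 (hd t))
  · refine h.2 (w3 g V S hL w (p - w) fun t => ?_)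
    have h1 := (hd t).trans_le hw
    unfold H709R2.sq at h1
    simp only [Prod.fst_sub, Prod.snd_sub] at h1 ⊢
    nlinarith [sq_nonneg ((g t).1 - p.1 + (p.1 - w.1)), sq_nonneg ((g t).2 - p.2 + (p.2 - w.2)),
      sq_nonneg ((g t).1 - w.1), sq_nonneg ((g t).2 - w.2)]

lemma frontier_annulus {p : ℝ × ℝ} {r₁ r₂ : ℝ} {z : ℝ × ℝ}
    (hz : z ∈ frontier {z : ℝ × ℝ | r₁ ^ 2 ≤ H709R2.sq (z - p) ∧ H709R2.sq (z - p) ≤ r₂ ^ 2}) :
    H709R2.sq (z - p) = r₁ ^ 2 ∨ H709R2.sq (z - p) = r₂ ^ 2 := by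
  have hc := sq_cont p
  have hcl : IsClosed {z : ℝ × ℝ | r₁ ^ 2 ≤ H709R2.sq (z - p) ∧ H709R2.sq (z - p) ≤ r₂ ^ 2} :=
    (isClosed_le continuous_const hc).inter (isClosed_le hc continuous_const)
  have hop : IsOpen {z : ℝ × ℝ | r₁ ^ 2 < H709R2.sq (z - p) ∧ H709R2.sq (z - p) < r₂ ^ 2} :=
    (isOpen_lt continuous_const hc).inter (isOpen_lt hc continuous_const)
  have hin : {z : ℝ × ℝ | r₁ ^ 2 < H709R2.sq (z - p) ∧ H709R2.sq (z - p) < r₂ ^ 2} ⊆
      interior {z : ℝ × ℝ | r₁ ^ 2 ≤ H709R2.sq (z - p) ∧ H709R2.sq (z - p) ≤ r₂ ^ 2} :=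
    interior_maximal (fun z hz => ⟨hz.1.le, hz.2.le⟩) hop
  rw [hcl.frontier_eq] at hz
  obtain ⟨⟨h1, h2⟩, h3⟩ := hz
  rcases h1.lt_or_eq with h4 | h4
  · rcases h2.lt_or_eq with h5 | h5
    · exact absurd (hin ⟨h4, h5⟩) h3
    · exact Or.inr h5
  · exact Or.inl h4.symm

lemma compact_annulus (p : ℝ × ℝ) (r₁ r₂ : ℝ) :
    IsCompact {z : ℝ × ℝ | r₁ ^ 2 ≤ H709R2.sq (z - p) ∧ H709R2.sq (z - p) ≤ r₂ ^ 2} := by
  have hc := sq_cont p
  have hcl : IsClosed {z : ℝ × ℝ | r₁ ^ 2 ≤ H709R2.sq (z - p) ∧ H709R2.sq (z - p) ≤ r₂ ^ 2} :=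
    (isClosed_le continuous_const hc).inter (isClosed_le hc continuous_const)
  refine IsCompact.of_isClosed_subset (isCompact_closedBall p |r₂|) hcl ?_
  rintro z ⟨-, h⟩
  rw [Metric.mem_closedBall, dist_eq_norm, Prod.norm_def, max_le_iff, Real.norm_eq_abs,
    Real.norm_eq_abs]
  unfold H709R2.sq at h
  simp only [Prod.fst_sub, Prod.snd_sub] at h ⊢
  exact ⟨sq_le_sq.1 (by nlinarith [sq_nonneg (z.2 - p.2)]),
    sq_le_sq.1 (by nlinarith [sq_nonneg (z.1 - p.1)])⟩

/-- `|wedge v e| ≤ |v|` for a unit vector `e` -/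
lemma wedge_unit_le (v : ℝ × ℝ) (θ : ℝ) : |wedge v (cos θ, sin θ)| ≤ √(H709R2.sq v) := by
  rw [← Real.sqrt_sq_eq_abs]
  apply Real.sqrt_le_sqrt
  unfold wedge H709R2.sq
  simp only
  have h := Real.sin_sq_add_cos_sq θ
  nlinarith [sq_nonneg (v.1 * cos θ + v.2 * sin θ)]

lemma ev_hasFDerivAt (A : MvPolynomial (Fin 2) ℝ) (z : ℝ × ℝ) :
    HasFDerivAt (ev A) (ev (MvPolynomial.pderiv 0 A) z • ContinuousLinearMap.fst ℝ ℝ ℝ +
      ev (MvPolynomial.pderiv 1 A) z • ContinuousLinearMap.snd ℝ ℝ ℝ) z :=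
  N224.Hil.ev_hasFDerivAt A z

lemma ev_contDiff (A : MvPolynomial (Fin 2) ℝ) {m : WithTop ℕ∞} : ContDiff ℝ m (ev A) :=
  N224.Hil.ev_contDiff A

lemma ev_cont (A : MvPolynomial (Fin 2) ℝ) : Continuous (ev A) :=
  N224.Hil.ev_continuous A

/-- the tangential field of the level curves -/
noncomputable def GG (P Q : MvPolynomial (Fin 2) ℝ) (c : ℝ) (z : ℝ × ℝ) : ℝ × ℝ :=
  (-ev (MvPolynomial.pderiv 1 (Lv P Q c)) z, ev (MvPolynomial.pderiv 0 (Lv P Q c)) z)

lemma GG_wedge (P Q : MvPolynomial (Fin 2) ℝ) (c a : ℝ) (z : ℝ × ℝ) :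
    wedge (GG P Q c z) (cos (a - c), sin (a - c)) = -ev (DLv P Q c a) z := by
  unfold GG DLv wedge ev
  simp
  ring

/-- the size of the field on the level curve -/
noncomputable def mu (P Q : MvPolynomial (Fin 2) ℝ) (c : ℝ) (z : ℝ × ℝ) : ℝ :=
  cos c * ev P z - sin c * ev Q z

lemma mu_cont (P Q : MvPolynomial (Fin 2) ℝ) (c : ℝ) : Continuous (mu P Q c) := by
  have h1 := ev_cont P
  have h2 := ev_cont Q
  unfold mu
  fun_prop

lemma level_field {P Q : MvPolynomial (Fin 2) ℝ} {c : ℝ} {z : ℝ × ℝ}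
    (h : ev (Lv P Q c) z = 0) (a : ℝ) :
    rf (field P Q) a z = (mu P Q c z * cos (a - c), mu P Q c z * sin (a - c)) := by
  have h1 : sin c * ev P z + cos c * ev Q z = 0 := by
    unfold Lv ev at h
    simpa [ev] using h
  have h2 := Real.sin_sq_add_cos_sq c
  have hp : ev P z = mu P Q c z * cos c := by
    unfold mu
    linear_combination (sin c) * h1 - (ev P z) * h2
  have hq : ev Q z = -(mu P Q c z * sin c) := by
    unfold mu
    linear_combination (cos c) * h1 - (ev Q z) * h2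
  have h3 : field P Q z = (ev P z, ev Q z) := rfl
  unfold rf rot
  rw [h3, hp, hq, Real.cos_sub, Real.sin_sub]
  ext
  · simp only
    ring
  · simp only
    ring

/-- the core of the passage through the annulus, for an arc along which the crossings with `C i` go
outwards -/
lemma th_core (hC : S_CR) {P Q : MvPolynomial (Fin 2) ℝ} {p : ℝ × ℝ} {r₁ r₂ ρ c : ℝ}
    {a : Fin 2 → ℝ} {γ : Fin 2 → ℝ → ℝ × ℝ} {T : Fin 2 → ℝ} {ε : ℝ} (hr₁ : 0 < r₁) (hρ : r₁ < ρ)
    (hρ' : ρ < r₂) (hε : ε = 1 ∨ ε = -1) (hO : ∀ j, Orb (rf (field P Q) (a j)) (γ j) (T j))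
    (hγ : ∀ j t, ρ ^ 2 ≤ H709R2.sq (γ j t - p) ∧ H709R2.sq (γ j t - p) < r₂ ^ 2)
    (hw : ∀ j, wn (γ j) (fun t => rf (field P Q) (a j) (γ j t)) (T j) p = ε)
    {z : ℝ × ℝ} (hz : ρ ^ 2 ≤ H709R2.sq (z - p)) {o i : Fin 2}
    (ho : z ∈ ins (γ o) (fun t => rf (field P Q) (a o) (γ o t)) (T o))
    (hi : z ∉ fill (γ i) (fun t => rf (field P Q) (a i) (γ i t)) (T i))
    {σ α β : ℝ} {l : ℝ → ℝ × ℝ} (hα : α ≤ 0) (hβ : 0 ≤ β) (hl0 : l 0 = z)
    (hl : ∀ s ∈ Icc α β, HasDerivAt l (σ • GG P Q c (l s)) s ∧ ev (Lv P Q c) (l s) = 0)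
    (hlα : H709R2.sq (l α - p) = r₁ ^ 2 ∨ H709R2.sq (l α - p) = r₂ ^ 2)
    (hlβ : H709R2.sq (l β - p) = r₁ ^ 2 ∨ H709R2.sq (l β - p) = r₂ ^ 2)
    (hμ : (∀ s ∈ Icc α β, 0 < mu P Q c (l s)) ∨ (∀ s ∈ Icc α β, mu P Q c (l s) < 0))
    (hD : ∀ j, (∀ s ∈ Icc α β, 0 < σ * ev (DLv P Q c (a j)) (l s)) ∨
      (∀ s ∈ Icc α β, σ * ev (DLv P Q c (a j)) (l s) < 0))
    (hexit : ∀ s ∈ Icc α β, ε * mu P Q c (l s) * (σ * ev (DLv P Q c (a i)) (l s)) < 0) (j : Fin 2) :
    -(r₁ * √(H709R2.sq (field P Q z))) ≤ ε * wedge (z - p) (rf (field P Q) (a j) z) := by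
  have hε0 : ε ≠ 0 := by rcases hε with h | h <;> rw [h] <;> norm_num
  have hεε : ε * ε = 1 := by rcases hε with h | h <;> rw [h] <;> norm_num
  have hL : ∀ j, Loop (γ j) (fun t => rf (field P Q) (a j) (γ j t)) (T j) := fun j =>
    N224.Hil.orb_loop (hO j)
  have hr₂ : 0 < r₂ := by linarith
  have h0m : (0:ℝ) ∈ Icc α β := ⟨hα, hβ⟩
  -- small discs are enclosed
  have hin : ∀ j w, H709R2.sq (w - p) < ρ ^ 2 →
      w ∈ ins (γ j) (fun t => rf (field P Q) (a j) (γ j t)) (T j) := fun j w hw' =>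
    disc_ins (hL j) (fun t => (hγ j t).1) (by rw [hw j]; exact hε0) hw'
  have hout : ∀ j w, r₂ ^ 2 ≤ H709R2.sq (w - p) →
      w ∉ fill (γ j) (fun t => rf (field P Q) (a j) (γ j t)) (T j) := fun j w hw' =>
    far_fill (hL j) (fun t => (hγ j t).2) hw'
  have hr₁ρ : r₁ ^ 2 < ρ ^ 2 := by nlinarith
  have hρr₂ : ρ ^ 2 < r₂ ^ 2 := by nlinarith
  have hzr : H709R2.sq (z - p) < r₂ ^ 2 := by
    by_contra h
    exact hout o z (not_lt.1 h) (Or.inr ho)
  have hβ0 : 0 < β := by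
    rcases hβ.lt_or_eq with h | h
    · exact h
    · exfalso
      rw [← h, hl0] at hlβ
      rcases hlβ with h1 | h1 <;> linarith
  have hα0 : α < 0 := by
    rcases hα.lt_or_eq with h | h
    · exact h
    · exfalso
      rw [h, hl0] at hlα
      rcases hlα with h1 | h1 <;> linarith
  -- the field along the arc
  have hfield : ∀ s ∈ Icc α β, ∀ j, rf (field P Q) (a j) (l s) =
      (mu P Q c (l s) * cos (a j - c), mu P Q c (l s) * sin (a j - c)) := fun s hs j =>
    level_field (hl s hs).2 (a j)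
  have hcross : ∀ j, ∀ s ∈ Icc α β, ∀ t, l s = γ j t →
      wedge (rf (field P Q) (a j) (γ j t)) (σ • GG P Q c (l s)) =
        mu P Q c (l s) * (σ * ev (DLv P Q c (a j)) (l s)) := by
    intro j s hs t hst
    rw [← hst, hfield s hs j]
    have h1 := GG_wedge P Q c (a j) (l s)
    unfold wedge at h1 ⊢
    simp only [Prod.smul_fst, Prod.smul_snd, smul_eq_mul] at h1 ⊢
    linear_combination (-(mu P Q c (l s)) * σ) * h1
  have hεw : ∀ j, ∃ w ∉ range (γ j), wn (γ j) (fun t => rf (field P Q) (a j) (γ j t)) (T j) w = ε := by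
    intro j
    refine ⟨p, (hin j p ?_).1, hw j⟩
    rw [sub_self]
    have : H709R2.sq (0 : ℝ × ℝ) = 0 := by unfold H709R2.sq; simp
    rw [this]
    nlinarith
  -- forward: stays outside of `C i`
  have hfw : l β ∉ fill (γ i) (fun t => rf (field P Q) (a i) (γ i t)) (T i) := by
    refine hC (γ i) _ (T i) (hL i) (hO i).ne (hO i).inj ε hε (hεw i) l
      (fun s => σ • GG P Q c (l s)) α β (fun s hs => (hl s hs).1) ?_ 0 β hα hβ0 le_rfl ?_
    · intro s hs t hst
      rw [hcross i s hs t hst, ← mul_assoc]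
      exact hexit s hs
    · rw [hl0]
      exact fun h => hi (Or.inr h)
  have hβr : H709R2.sq (l β - p) = r₂ ^ 2 := by
    rcases hlβ with h | h
    · exfalso
      exact hfw (Or.inr (hin i _ (by rw [h]; exact hr₁ρ)))
    · exact h
  -- the product of signs
  have hprod : ∀ j, (∀ s ∈ Icc α β, 0 < ε * mu P Q c (l s) * (σ * ev (DLv P Q c (a j)) (l s))) ∨
      (∀ s ∈ Icc α β, ε * mu P Q c (l s) * (σ * ev (DLv P Q c (a j)) (l s)) < 0) := by
    intro j
    rcases hε with h1 | h1 <;> rcases hμ with h2 | h2 <;> rcases hD j with h3 | h3 <;> rw [h1]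
    · exact Or.inl fun s hs => mul_pos (by linarith [h2 s hs]) (h3 s hs)
    · exact Or.inr fun s hs => mul_neg_of_pos_of_neg (by linarith [h2 s hs]) (h3 s hs)
    · exact Or.inr fun s hs => mul_neg_of_neg_of_pos (by linarith [h2 s hs]) (h3 s hs)
    · exact Or.inl fun s hs => mul_pos_of_neg_of_neg (by linarith [h2 s hs]) (h3 s hs)
    · exact Or.inr fun s hs => mul_neg_of_neg_of_pos (by linarith [h2 s hs]) (h3 s hs)
    · exact Or.inl fun s hs => mul_pos_of_neg_of_neg (by linarith [h2 s hs]) (h3 s hs)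
    · exact Or.inl fun s hs => mul_pos (by linarith [h2 s hs]) (h3 s hs)
    · exact Or.inr fun s hs => mul_neg_of_pos_of_neg (by linarith [h2 s hs]) (h3 s hs)
  have hoexit : ∀ s ∈ Icc α β, ε * mu P Q c (l s) * (σ * ev (DLv P Q c (a o)) (l s)) < 0 := by
    rcases hprod o with h | h
    · exfalso
      -- the reversed arc crosses `C o` outwards
      have h1 : l (-(-0)) ∉ fill (γ o) (fun t => rf (field P Q) (a o) (γ o t)) (T o) := by
        refine hC (γ o) _ (T o) (hL o) (hO o).ne (hO o).inj ε hε (hεw o) (fun s => l (-s))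
          (fun s => -(σ • GG P Q c (l (-s)))) (-β) (-α) (fun s hs => ?_) ?_ (-β) (-0) le_rfl
          (by linarith) (by linarith) ?_
        · have h2 := (hl (-s) ⟨by linarith [hs.2], by linarith [hs.1]⟩).1
          have h3 := h2.scomp s (hasDerivAt_neg s)
          rw [neg_one_smul] at h3
          exact h3
        · intro s hs t hst
          have h2 : -s ∈ Icc α β := ⟨by linarith [hs.2], by linarith [hs.1]⟩
          have h3 := hcross o (-s) h2 t hst
          have h4 : wedge (rf (field P Q) (a o) (γ o t)) (-(σ • GG P Q c (l (-s)))) =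
              -wedge (rf (field P Q) (a o) (γ o t)) (σ • GG P Q c (l (-s))) := by
            unfold wedge
            simp only [Prod.fst_neg, Prod.snd_neg]
            ring
          rw [h4, h3]
          have h5 := h (-s) h2
          have h6 : ε * -(mu P Q c (l (-s)) * (σ * ev (DLv P Q c (a o)) (l (-s)))) =
            -(ε * mu P Q c (l (-s)) * (σ * ev (DLv P Q c (a o)) (l (-s)))) := by ring
          rw [h6]
          linarith
        · simp only [neg_neg]
          exact fun h2 => hout o _ (by rw [hβr]) (Or.inr h2)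
      rw [neg_neg, hl0] at h1
      exact h1 (Or.inr ho)
    · exact h
  -- backward: stays inside of `C o`
  have hbw : l α ∈ ins (γ o) (fun t => rf (field P Q) (a o) (γ o t)) (T o) := by
    by_contra hcon
    have h1 := hC (γ o) _ (T o) (hL o) (hO o).ne (hO o).inj ε hε (hεw o) l
      (fun s => σ • GG P Q c (l s)) α β (fun s hs => (hl s hs).1) (by
        intro s hs t hst
        rw [hcross o s hs t hst, ← mul_assoc]
        exact hoexit s hs) α 0 le_rfl hα0 hβ hcon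
    rw [hl0] at h1
    exact h1 (Or.inr ho)
  have hαr : H709R2.sq (l α - p) = r₁ ^ 2 := by
    rcases hlα with h | h
    · exact h
    · exfalso
      exact hout o _ (by rw [h]) (Or.inr hbw)
  -- all crossings go outwards
  have hoi : o ≠ i := by
    rintro rfl
    exact hi (Or.inr ho)
  have hall : ∀ s ∈ Icc α β, ε * mu P Q c (l s) * (σ * ev (DLv P Q c (a j)) (l s)) < 0 := by
    have h1 : j = o ∨ j = i := by
      revert hoi
      fin_cases j <;> fin_cases o <;> fin_cases i <;> simp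
    rcases h1 with h1 | h1
    · rw [h1]; exact hoexit
    · rw [h1]; exact hexit
  -- integrate
  have hμ0 : ∀ s ∈ Icc α β, 0 < mu P Q c (l 0) * mu P Q c (l s) := by
    intro s hs
    rcases hμ with h | h
    · exact mul_pos (h 0 h0m) (h s hs)
    · exact mul_pos_of_neg_of_neg (h 0 h0m) (h s hs)
  set e : ℝ × ℝ := (cos (a j - c), sin (a j - c)) with he
  have hder : ∀ s ∈ Icc α β, HasDerivAt (fun s => ε * mu P Q c (l 0) * wedge (l s - p) e)
      (ε * mu P Q c (l 0) * (σ * -ev (DLv P Q c (a j)) (l s))) s := by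
    intro s hs
    have h1 := (hl s hs).1
    have h2 := (ContinuousLinearMap.fst ℝ ℝ ℝ).hasFDerivAt.comp_hasDerivAt s h1
    have h3 := (ContinuousLinearMap.snd ℝ ℝ ℝ).hasFDerivAt.comp_hasDerivAt s h1
    have h4 := (((h2.sub_const p.1).mul_const e.2).sub ((h3.sub_const p.2).mul_const e.1)).const_mul
      (ε * mu P Q c (l 0))
    refine h4.congr_deriv ?_
    have h5 := GG_wedge P Q c (a j) (l s)
    unfold wedge at h5
    simp only [ContinuousLinearMap.coe_fst', ContinuousLinearMap.coe_snd', Prod.smul_fst,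
      Prod.smul_snd, smul_eq_mul, he] at h5 ⊢
    linear_combination (ε * mu P Q c (l 0) * σ) * h5
  have hmono : MonotoneOn (fun s => ε * mu P Q c (l 0) * wedge (l s - p) e) (Icc α β) := by
    refine monotoneOn_of_deriv_nonneg (convex_Icc _ _)
      (fun s hs => (hder s hs).continuousAt.continuousWithinAt) ?_ ?_
    · intro s hs
      rw [interior_Icc] at hs
      exact (hder s (Ioo_subset_Icc_self hs)).differentiableAt.differentiableWithinAt
    · intro s hs
      rw [interior_Icc] at hs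
      have hs' := Ioo_subset_Icc_self hs
      rw [(hder s hs').deriv]
      have h1 := hall s hs'
      have h2 := hμ0 s hs'
      by_contra h3
      push Not at h3
      have h4 : (ε * mu P Q c (l 0) * (σ * -ev (DLv P Q c (a j)) (l s))) *
          (ε * mu P Q c (l s) * (σ * ev (DLv P Q c (a j)) (l s))) =
          -(ε * ε) * (mu P Q c (l 0) * mu P Q c (l s)) *
            (σ * ev (DLv P Q c (a j)) (l s)) ^ 2 := by ring
      have h5 := mul_pos_of_neg_of_neg h3 h1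
      rw [h4, hεε] at h5
      nlinarith [mul_nonneg h2.le (sq_nonneg (σ * ev (DLv P Q c (a j)) (l s)))]
  have h1 := hmono ⟨le_rfl, hα.trans hβ⟩ h0m hα
  simp only at h1
  -- the end
  have h2 : |wedge (l α - p) e| ≤ r₁ := by
    have h3 := wedge_unit_le (l α - p) (a j - c)
    rw [hαr, Real.sqrt_sq hr₁.le] at h3
    exact h3
  have h3 : √(H709R2.sq (field P Q z)) = |mu P Q c (l 0)| := by
    have h4 := hfield 0 h0m j
    rw [hl0] at h4
    have h5 : H709R2.sq (rf (field P Q) (a j) z) = H709R2.sq (field P Q z) := H709R2.sq_rot _ _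
    rw [← h5, h4, ← hl0, ← Real.sqrt_sq_eq_abs]
    congr 1
    unfold H709R2.sq
    simp only
    linear_combination (mu P Q c (l 0)) ^ 2 * Real.sin_sq_add_cos_sq (a j - c)
  have h4 : wedge (z - p) (rf (field P Q) (a j) z) = mu P Q c (l 0) * wedge (l 0 - p) e := by
    have h4 := hfield 0 h0m j
    rw [hl0] at h4
    rw [h4, ← hl0]
    unfold wedge
    simp only [he]
    ring
  rw [h3, h4]
  have h5 : |ε * mu P Q c (l 0) * wedge (l α - p) e| ≤ r₁ * |mu P Q c (l 0)| := by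
    rw [abs_mul, abs_mul]
    have h6 : |ε| = 1 := by rcases hε with h | h <;> rw [h] <;> norm_num
    rw [h6, one_mul, mul_comm]
    exact mul_le_mul_of_nonneg_right h2 (abs_nonneg _)
  have h6 := neg_le_of_abs_le h5
  calc -(r₁ * |mu P Q c (l 0)|) ≤ ε * mu P Q c (l 0) * wedge (l α - p) e := h6
    _ ≤ ε * mu P Q c (l 0) * wedge (l 0 - p) e := h1
    _ = _ := by ring

lemma sign_const {f : ℝ → ℝ} {α β : ℝ} (hf : ContinuousOn f (Icc α β))
    (hne : ∀ s ∈ Icc α β, f s ≠ 0) : (∀ s ∈ Icc α β, 0 < f s) ∨ (∀ s ∈ Icc α β, f s < 0) := by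
  by_contra hcon
  push Not at hcon
  obtain ⟨⟨s, hs, h1⟩, t, ht, h2⟩ := hcon
  obtain ⟨x, hx, hx0⟩ := isPreconnected_Icc.intermediate_value hs ht hf ⟨h1, h2⟩
  exact hne x hx hx0

lemma GG_contDiff (P Q : MvPolynomial (Fin 2) ℝ) (c : ℝ) : ContDiff ℝ 1 (GG P Q c) :=
  (ev_contDiff _).neg.prodMk (ev_contDiff _)

lemma GG_tangent (P Q : MvPolynomial (Fin 2) ℝ) (c : ℝ) (z : ℝ × ℝ) :
    fderiv ℝ (ev (Lv P Q c)) z (GG P Q c z) = 0 := by
  rw [(ev_hasFDerivAt (Lv P Q c) z).fderiv]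
  unfold GG
  simp
  ring

theorem th (hC : S_CR) (hA : S_ARC) : S_TH := by
  intro P Q p r₁ r₂ ρ c a γ T ε hr₁ hρ hρ' hε hO hγ hw hfree z hz hLz hoi j
  obtain ⟨o, i, ho, hi⟩ := hoi
  have hL : ∀ j, Loop (γ j) (fun t => rf (field P Q) (a j) (γ j t)) (T j) := fun j =>
    N224.Hil.orb_loop (hO j)
  have hzr : H709R2.sq (z - p) < r₂ ^ 2 := by
    by_contra h
    exact far_fill (hL o) (fun t => (hγ o t).2) (not_lt.1 h) (Or.inr ho)
  have hzK : z ∈ {z : ℝ × ℝ | r₁ ^ 2 ≤ H709R2.sq (z - p) ∧ H709R2.sq (z - p) ≤ r₂ ^ 2} :=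
    ⟨by nlinarith, hzr.le⟩
  obtain ⟨α, β, l, hα, hβ, hl0, hl, hlα, hlβ⟩ := hA (GG P Q c) (ev (Lv P Q c)) (GG_contDiff P Q c)
    (ev_contDiff _) (GG_tangent P Q c) _ (compact_annulus p r₁ r₂) z hzK hLz
    (cos (a 0 - c), sin (a 0 - c)) (by
      rintro w ⟨hw1, hw2⟩ hLw
      rw [GG_wedge]
      exact neg_ne_zero.2 ((hfree w hw1 hw2 hLw).2 0))
  have hlc : ContinuousOn l (Icc α β) := fun s hs => (hl s hs).1.continuousAt.continuousWithinAt
  have hμ := sign_const (f := fun s => mu P Q c (l s)) ((mu_cont P Q c).comp_continuousOn hlc) (by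
    intro s hs h0
    obtain ⟨h1, ⟨h2, h3⟩, h4⟩ := hl s hs
    have h5 := (hfree _ h2 h3 h4).1
    have h6 := level_field h4 0
    rw [h0, zero_mul, zero_mul] at h6
    have h7 : H709R2.sq (rf (field P Q) 0 (l s)) = H709R2.sq (field P Q (l s)) :=
      H709R2.sq_rot _ _
    rw [h6] at h7
    have h8 := sq_pos_of_ne h5
    rw [← h7] at h8
    unfold H709R2.sq at h8
    simp at h8)
  have hD : ∀ j, (∀ s ∈ Icc α β, 0 < ev (DLv P Q c (a j)) (l s)) ∨
      (∀ s ∈ Icc α β, ev (DLv P Q c (a j)) (l s) < 0) := fun j =>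
    sign_const ((ev_cont _).comp_continuousOn hlc) fun s hs =>
      (hfree _ (hl s hs).2.1.1 (hl s hs).2.1.2 (hl s hs).2.2).2 j
  have hε0 : ε ≠ 0 := by rcases hε with h | h <;> rw [h] <;> norm_num
  have hprod := sign_const (f := fun s => ε * mu P Q c (l s) * ev (DLv P Q c (a i)) (l s))
    ((continuousOn_const.mul ((mu_cont P Q c).comp_continuousOn hlc)).mul
      ((ev_cont _).comp_continuousOn hlc)) (by
    intro s hs
    refine mul_ne_zero (mul_ne_zero hε0 ?_) ?_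
    · rcases hμ with h | h
      · exact (h s hs).ne'
      · exact (h s hs).ne
    · rcases hD i with h | h
      · exact (h s hs).ne'
      · exact (h s hs).ne)
  rcases hprod with h | h
  · -- reverse the arc
    have hm : ∀ s ∈ Icc (-β) (-α), -s ∈ Icc α β := fun s hs =>
      ⟨by linarith [hs.2], by linarith [hs.1]⟩
    refine th_core hC (c := c) hr₁ hρ hρ' hε hO hγ hw hz ho hi (σ := -1) (α := -β) (β := -α)
      (l := fun s => l (-s)) (by linarith) (by linarith) (by simpa using hl0) ?_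
      (by simpa using frontier_annulus hlβ) (by simpa using frontier_annulus hlα) ?_ ?_ ?_ j
    · intro s hs
      obtain ⟨h1, -, h2⟩ := hl (-s) (hm s hs)
      exact ⟨h1.scomp s (hasDerivAt_neg s), h2⟩
    · rcases hμ with h1 | h1
      · exact Or.inl fun s hs => h1 _ (hm s hs)
      · exact Or.inr fun s hs => h1 _ (hm s hs)
    · intro j
      rcases hD j with h1 | h1
      · exact Or.inr fun s hs => by linarith [h1 _ (hm s hs)]
      · exact Or.inl fun s hs => by linarith [h1 _ (hm s hs)]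
    · intro s hs
      have h1 := h _ (hm s hs)
      linarith
  · refine th_core hC (c := c) hr₁ hρ hρ' hε hO hγ hw hz ho hi (σ := 1) hα hβ hl0 ?_
      (frontier_annulus hlα) (frontier_annulus hlβ) hμ ?_ ?_ j
    · intro s hs
      obtain ⟨h1, -, h2⟩ := hl s hs
      rw [one_smul]
      exact ⟨h1, h2⟩
    · intro j
      simpa only [one_mul] using hD j
    · intro s hs
      rw [one_mul]
      exact h s hs

end Pool.Agent.K9h44.HS
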